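import Mathlib
import Pool.Agent.TH951.NF.Count
import Pool.Agent.TH951.FE.Ht

/-! Finite places in an extension of number fields. -/

set_option autoImplicit false

open Height NumberField Module Finset IsDedekindDomain TH951
open scoped NNReal

namespace Pool.Agent.Y725.LS

theorem val_eq {F : Type*} [Field F] [NumberField F] (u : FinitePlace F) (z : F) :
    u.val z = WithZeroMulInt.toNNReal (HeightOneSpectrum.absNorm_ne_zero u.maximalIdeal)
      (u.maximalIdeal.valuation F z) := by
  rw [← FinitePlace.norm_embedding', FinitePlace.norm_embedding_eq]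
  rfl

section

variable {K : Type*} [Field K] [NumberField K] {L : Type*} [Field L] [NumberField L] [Algebra K L]

variable (K) in
/-- the place below -/
noncomputable def below (w : FinitePlace L) : FinitePlace K :=
  FinitePlace.mk (w.maximalIdeal.under (𝓞 K))

variable (K) in
theorem below_ideal (w : FinitePlace L) : (below K w).maximalIdeal = w.maximalIdeal.under (𝓞 K) :=
  FinitePlace.maximalIdeal_mk _

variable (K) in
instance (w : FinitePlace L) : w.maximalIdeal.asIdeal.LiesOver (below K w).maximalIdeal.asIdeal := by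
  rw [below_ideal]
  exact ⟨rfl⟩

variable (K) in
/-- the local degree -/
noncomputable def ldeg (w : FinitePlace L) : ℕ :=
  (below K w).maximalIdeal.asIdeal.ramificationIdx' w.maximalIdeal.asIdeal *
    (below K w).maximalIdeal.asIdeal.inertiaDeg' w.maximalIdeal.asIdeal

variable (K) in
theorem ram_pos (w : FinitePlace L) :
    0 < (below K w).maximalIdeal.asIdeal.ramificationIdx' w.maximalIdeal.asIdeal :=
  Nat.pos_of_ne_zero (Ideal.IsDedekindDomain.ramificationIdx'_ne_zero_of_liesOver _
    (below K w).maximalIdeal.ne_bot)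

variable (K) in
theorem inert_pos (w : FinitePlace L) :
    0 < (below K w).maximalIdeal.asIdeal.inertiaDeg' w.maximalIdeal.asIdeal := by
  haveI : (below K w).maximalIdeal.asIdeal.IsMaximal := (below K w).maximalIdeal.isMaximal
  exact Nat.pos_of_ne_zero (Ideal.inertiaDeg'_ne_zero _ _)

variable (K) in
theorem ldeg_pos (w : FinitePlace L) : 0 < ldeg K w := Nat.mul_pos (ram_pos K w) (inert_pos K w)

variable (K) in
theorem Nm_below (w : FinitePlace L) : NF.Nm w = NF.Nm (below K w) ^
    ((below K w).maximalIdeal.asIdeal.inertiaDeg' w.maximalIdeal.asIdeal) :=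
  Ideal.absNorm_eq_pow_inertiaDeg'_of_liesOver _ _ (below K w).maximalIdeal.isPrime
    (below K w).maximalIdeal.ne_bot

theorem ext_apply (w : FinitePlace L) (x : K) :
    w.val (algebraMap K L x) = (below K w).val x ^ ldeg K w := by
  by_cases hx : x = 0
  · rw [hx, map_zero, map_zero, map_zero, zero_pow (ldeg_pos K w).ne']
  rw [val_eq, val_eq, ← HeightOneSpectrum.valuation_liesOver L (below K w).maximalIdeal
    w.maximalIdeal, map_pow]
  set m := (below K w).maximalIdeal.valuation K x with hm
  have hm0 : m ≠ 0 := (Valuation.ne_zero_iff _).2 hx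
  rw [WithZeroMulInt.toNNReal_neg_apply _ hm0, WithZeroMulInt.toNNReal_neg_apply _ hm0]
  have h2 : ((Ideal.absNorm w.maximalIdeal.asIdeal : ℕ) : ℝ≥0) =
      ((Ideal.absNorm (below K w).maximalIdeal.asIdeal : ℕ) : ℝ≥0) ^
      ((below K w).maximalIdeal.asIdeal.inertiaDeg' w.maximalIdeal.asIdeal) := by
    have := Nm_below K w
    unfold NF.Nm at this
    exact_mod_cast this
  rw [h2]
  unfold ldeg
  push_cast
  rw [← zpow_natCast, ← zpow_natCast, ← zpow_natCast, ← zpow_mul, ← zpow_mul, ← zpow_mul]
  congr 1
  push_cast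
  ring

theorem ideal_inj : Function.Injective fun w : FinitePlace L => w.maximalIdeal.asIdeal := by
  intro w₁ w₂ h12
  apply FinitePlace.maximalIdeal_injective
  exact HeightOneSpectrum.ext h12

variable (K) in
theorem mem_over (w : FinitePlace L) : w.maximalIdeal.asIdeal ∈
    IsDedekindDomain.primesOverFinset (below K w).maximalIdeal.asIdeal (𝓞 L) := by
  haveI : (below K w).maximalIdeal.asIdeal.IsMaximal := (below K w).maximalIdeal.isMaximal
  exact (IsDedekindDomain.mem_primesOverFinset_iff (below K w).maximalIdeal.ne_bot _).2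
    ⟨w.maximalIdeal.isPrime, inferInstance⟩

/-- the fundamental identity -/
theorem sum_ldeg (v : FinitePlace K) (R : Finset (FinitePlace L)) (hR : ∀ w ∈ R, below K w = v) :
    ∑ w ∈ R, ldeg K w ≤ finrank K L := by
  classical
  haveI : v.maximalIdeal.asIdeal.IsMaximal := v.maximalIdeal.isMaximal
  have h := Ideal.sum_ramification_inertia (R := 𝓞 K) (𝓞 L) K L (p := v.maximalIdeal.asIdeal)
    v.maximalIdeal.ne_bot
  rw [← h]
  have h1 : ∑ w ∈ R, ldeg K w = ∑ P ∈ R.image (fun w : FinitePlace L => w.maximalIdeal.asIdeal),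
      v.maximalIdeal.asIdeal.ramificationIdx' P * v.maximalIdeal.asIdeal.inertiaDeg' P := by
    rw [Finset.sum_image (fun a _ b _ hab => ideal_inj hab)]
    refine Finset.sum_congr rfl fun w hw => ?_
    rw [ldeg, hR w hw]
  rw [h1]
  refine Finset.sum_le_sum_of_subset ?_
  intro P hP
  obtain ⟨w, hw, rfl⟩ := Finset.mem_image.1 hP
  have := mem_over K w
  rwa [hR w hw] at this

/-- the places above -/
theorem above_finite (v : FinitePlace K) : {w : FinitePlace L | below K w = v}.Finite := by
  classical
  have h1 : ((fun w : FinitePlace L => w.maximalIdeal.asIdeal) ⁻¹'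
      (IsDedekindDomain.primesOverFinset v.maximalIdeal.asIdeal (𝓞 L) : Set (Ideal (𝓞 L)))).Finite :=
    Set.Finite.preimage (fun a _ b _ hab => ideal_inj hab) (Finset.finite_toSet _)
  refine h1.subset ?_
  rintro w rfl
  exact mem_over K w

theorem exists_above (v : FinitePlace K) : ∃ w : FinitePlace L, below K w = v := by
  haveI : v.maximalIdeal.asIdeal.IsPrime := v.maximalIdeal.isPrime
  obtain ⟨P, hP, hPv⟩ := Ideal.exists_ideal_over_prime_of_isIntegral_of_isDomain (S := 𝓞 L)
    v.maximalIdeal.asIdeal (by simp)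
  refine ⟨FinitePlace.mk ⟨P, hP, ?_⟩, ?_⟩
  · rintro rfl
    apply v.maximalIdeal.ne_bot
    rw [← hPv]
    exact Ideal.comap_bot_of_injective _ (FaithfulSMul.algebraMap_injective (𝓞 K) (𝓞 L))
  · apply FinitePlace.maximalIdeal_injective
    change (below K _).maximalIdeal = v.maximalIdeal
    rw [below_ideal, FinitePlace.maximalIdeal_mk]
    exact HeightOneSpectrum.ext hPv

/-- **Transfer of the Szpiro-type inequality to an extension.** -/
theorem szpiro_ext {M s n : ℕ} {σ δ : ℝ} (hn : finrank K L ≤ n) (hσ : 0 ≤ σ) {j : K}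
    {T F : Finset (FinitePlace K)} (hT : T.card ≤ s)
    (hF : ∀ v ∈ F, 1 < v.val j)
    (h : ∀ S : Finset (FinitePlace K),
      (∀ v ∈ S, v ∉ T ∧ v.val (M : K) = 1 ∧ 1 < v.val j) →
      ∑ v ∈ S, Real.log (v.val j) ≤ σ * ∑ v ∈ F, Real.log (NF.Nm v) + δ * logHeight₁ j) :
    ∃ T' F' : Finset (FinitePlace L), T'.card ≤ s * n ∧
      (∀ w ∈ F', 1 < w.val (algebraMap K L j)) ∧
      ∀ S : Finset (FinitePlace L),
      (∀ w ∈ S, w ∉ T' ∧ w.val (M : L) = 1 ∧ 1 < w.val (algebraMap K L j)) →
      ∑ w ∈ S, Real.log (w.val (algebraMap K L j)) ≤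
        (n * σ) * ∑ w ∈ F', Real.log (NF.Nm w) + δ * logHeight₁ (algebraMap K L j) := by
  classical
  have hlt : ∀ w : FinitePlace L, 1 < w.val (algebraMap K L j) ↔ 1 < (below K w).val j := by
    intro w
    rw [ext_apply]
    exact one_lt_pow_iff_of_nonneg ((below K w).val.nonneg _) (ldeg_pos K w).ne'
  choose up hup using exists_above (K := K) (L := L)
  refine ⟨T.biUnion fun v => (above_finite (L := L) v).toFinset, F.image up, ?_, ?_, ?_⟩
  · refine Finset.card_biUnion_le.trans ?_
    refine (Finset.sum_le_card_nsmul _ _ n fun v _ => ?_).trans ?_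
    · have h1 := sum_ldeg v (above_finite (L := L) v).toFinset (fun w hw => by simpa using hw)
      refine le_trans ?_ (h1.trans hn)
      rw [Finset.card_eq_sum_ones]
      exact Finset.sum_le_sum fun w _ => ldeg_pos K w
    · rw [smul_eq_mul]
      exact Nat.mul_le_mul_right _ hT
  · intro w hw
    obtain ⟨v, hv, rfl⟩ := Finset.mem_image.1 hw
    rw [hlt, hup]
    exact hF v hv
  · intro S hS
    have hnn : ∀ u : FinitePlace K, 0 ≤ Real.log (NF.Nm u) := fun u => by
      have : (1 : ℝ) < NF.Nm u := by exact_mod_cast NF.one_lt_Nm u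
      exact (Real.log_pos this).le
    have h1 := h (S.image (below K)) (by
      intro v hv
      obtain ⟨w, hw, rfl⟩ := Finset.mem_image.1 hv
      obtain ⟨h1, h2, h3⟩ := hS w hw
      refine ⟨fun h4 => h1 ?_, ?_, (hlt w).1 h3⟩
      · rw [Finset.mem_biUnion]
        exact ⟨_, h4, by simp⟩
      · have h5 := ext_apply (K := K) w (M : K)
        rw [map_natCast, h2] at h5
        exact (pow_eq_one_iff_of_nonneg ((below K w).val.nonneg _) (ldeg_pos K w).ne').1 h5.symm)
    have h2 : ∑ w ∈ S, Real.log (w.val (algebraMap K L j)) ≤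
        finrank K L * ∑ v ∈ S.image (below K), Real.log (v.val j) := by
      rw [← Finset.sum_fiberwise_of_maps_to (t := S.image (below K)) (g := below K)
        (fun w hw => Finset.mem_image_of_mem _ hw), Finset.mul_sum]
      refine Finset.sum_le_sum fun v hv => ?_
      obtain ⟨w₀, hw₀, hv₀⟩ := Finset.mem_image.1 hv
      have hv1 : 1 < v.val j := by
        rw [← hv₀]; exact (hlt w₀).1 (hS w₀ hw₀).2.2
      have h3 : ∀ w ∈ S.filter (fun w => below K w = v),
          Real.log (w.val (algebraMap K L j)) = ldeg K w * Real.log (v.val j) := by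
        intro w hw
        rw [ext_apply, Real.log_pow, (Finset.mem_filter.1 hw).2]
      rw [Finset.sum_congr rfl h3, ← Finset.sum_mul]
      refine mul_le_mul_of_nonneg_right ?_ (Real.log_pos hv1).le
      have := sum_ldeg v (S.filter (fun w => below K w = v)) (fun w hw =>
        (Finset.mem_filter.1 hw).2)
      exact_mod_cast this
    have h3 : logHeight₁ (algebraMap K L j) = finrank K L * logHeight₁ j := by
      rw [FE.logHeight₁_pair, FE.logHeight₁_pair,
        ← Pool.Agent.Helper259.HtExt.logHeight_ext (L := L)]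
      congr 1
      funext i
      fin_cases i
      · rfl
      · exact (map_one _).symm
    have hupinj : Function.Injective up := by
      intro a b hab
      rw [← hup a, ← hup b, hab]
    have h4 : ∑ v ∈ F, Real.log (NF.Nm v) ≤ ∑ w ∈ F.image up, Real.log (NF.Nm w) := by
      rw [Finset.sum_image (fun a _ b _ hab => hupinj hab)]
      refine Finset.sum_le_sum fun v _ => ?_
      rw [Nm_below K (up v), hup]
      push_cast
      rw [Real.log_pow]
      have h5 := inert_pos K (up v)
      rw [hup] at h5
      have h6 : (1 : ℝ) ≤ (v.maximalIdeal.asIdeal.inertiaDeg' (up v).maximalIdeal.asIdeal : ℕ) := by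
        exact_mod_cast h5
      nlinarith [hnn v]
    have h5 : (0 : ℝ) ≤ finrank K L := Nat.cast_nonneg _
    have h6 := mul_le_mul_of_nonneg_left h1 h5
    have h7 : 0 ≤ ∑ v ∈ F, Real.log (NF.Nm v) := Finset.sum_nonneg fun v _ => hnn v
    have h8 : (finrank K L : ℝ) ≤ n := by exact_mod_cast hn
    have h9 : finrank K L * (σ * ∑ v ∈ F, Real.log (NF.Nm v)) ≤
        (n * σ) * ∑ w ∈ F.image up, Real.log (NF.Nm w) := by
      rw [← mul_assoc]
      refine mul_le_mul (mul_le_mul_of_nonneg_right h8 hσ) h4 h7 (by positivity)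
    rw [h3]
    linarith

end

end Pool.Agent.Y725.LS
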