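import Mathlib

/-! The energy of points with discrete positions on an interval. -/

set_option autoImplicit false

open Finset

namespace Pool.Agent.Y725.LS

/-- sums of maxima of natural numbers -/
theorem sum_max {n : ℕ} (m : ℕ) (k : Fin n → ℕ) (hk : ∀ i, k i ≤ m) :
    ∑ i, ∑ j, ((max (k i) (k j) : ℕ) : ℝ) =
      ∑ u ∈ range m, ((n : ℝ) ^ 2 - ((univ.filter fun i => k i ≤ u).card : ℝ) ^ 2) := by
  have h1 : ∀ i j, ((max (k i) (k j) : ℕ) : ℝ) =
      ∑ u ∈ range m, (1 - (if k i ≤ u then (1 : ℝ) else 0) * (if k j ≤ u then (1 : ℝ) else 0)) := by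
    intro i j
    have h2 : ∀ u, (1 - (if k i ≤ u then (1 : ℝ) else 0) * (if k j ≤ u then (1 : ℝ) else 0)) =
        if u < max (k i) (k j) then 1 else 0 := by
      intro u
      by_cases h3 : k i ≤ u <;> by_cases h4 : k j ≤ u
      · rw [if_pos h3, if_pos h4, if_neg (by omega)]; ring
      · rw [if_pos h3, if_neg h4, if_pos (by omega)]; ring
      · rw [if_neg h3, if_pos h4, if_pos (by omega)]; ring
      · rw [if_neg h3, if_neg h4, if_pos (by omega)]; ring
    rw [Finset.sum_congr rfl fun u _ => h2 u, ← Finset.sum_filter, Finset.sum_const, nsmul_eq_mul,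
      mul_one]
    congr 1
    have h5 : (range m).filter (fun u => u < max (k i) (k j)) = range (max (k i) (k j)) := by
      ext u
      have := hk i
      have := hk j
      simp only [mem_filter, mem_range]
      omega
    rw [h5, card_range]
  rw [Finset.sum_congr rfl fun i _ => Finset.sum_congr rfl fun j _ => h1 i j]
  rw [Finset.sum_congr rfl fun i _ => Finset.sum_comm, Finset.sum_comm]
  refine Finset.sum_congr rfl fun u _ => ?_
  simp only [Finset.sum_sub_distrib, Finset.sum_const, Finset.card_univ, Fintype.card_fin,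
    nsmul_eq_mul, mul_one]
  rw [← Finset.sum_mul_sum]
  have h6 : ∑ i, (if k i ≤ u then (1 : ℝ) else 0) =
      ((univ.filter fun i => k i ≤ u).card : ℝ) := by
    rw [← Finset.sum_filter, Finset.sum_const, nsmul_eq_mul, mul_one]
  rw [h6]
  ring

theorem sum_sq {n : ℕ} (m : ℕ) (k : Fin n → ℕ) (hk : ∀ i, k i ≤ m) :
    ∑ i, (k i : ℝ) ^ 2 =
      ∑ u ∈ range m, (2 * (u : ℝ) + 1) * (n - ((univ.filter fun i => k i ≤ u).card : ℝ)) := by
  have hs : ∀ t : ℕ, (t : ℝ) ^ 2 = ∑ u ∈ range t, (2 * (u : ℝ) + 1) := by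
    intro t
    induction t with
    | zero => simp
    | succ t ih => rw [Finset.sum_range_succ, ← ih]; push_cast; ring
  have h1 : ∀ i, (k i : ℝ) ^ 2 = ∑ u ∈ range m, (2 * (u : ℝ) + 1) *
      (1 - if k i ≤ u then (1 : ℝ) else 0) := by
    intro i
    rw [hs]
    have h2 : ∀ u : ℕ, (2 * (u : ℝ) + 1) * (1 - if k i ≤ u then (1 : ℝ) else 0) =
        if u < k i then (2 * (u : ℝ) + 1) else 0 := by
      intro u
      by_cases h3 : k i ≤ u
      · rw [if_pos h3, if_neg (by omega)]; ring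
      · rw [if_neg h3, if_pos (by omega)]; ring
    rw [Finset.sum_congr rfl fun u _ => h2 u, ← Finset.sum_filter]
    refine Finset.sum_congr ?_ fun _ _ => rfl
    ext u
    have := hk i
    simp only [mem_filter, mem_range]
    omega
  rw [Finset.sum_congr rfl fun i _ => h1 i, Finset.sum_comm]
  refine Finset.sum_congr rfl fun u _ => ?_
  rw [← Finset.mul_sum, Finset.sum_sub_distrib, Finset.sum_const, Finset.card_univ,
    Fintype.card_fin, nsmul_eq_mul, mul_one, ← Finset.sum_filter, Finset.sum_const, nsmul_eq_mul,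
    mul_one]

theorem sum_odd (m : ℕ) : ∑ u ∈ range m, (2 * (u : ℝ) + 1) = (m : ℝ) ^ 2 := by
  induction m with
  | zero => simp
  | succ m ih => rw [Finset.sum_range_succ, ih]; push_cast; ring

theorem sum_odd_sq (m : ℕ) :
    ∑ u ∈ range m, (2 * (u : ℝ) + 1) ^ 2 = m * (4 * (m : ℝ) ^ 2 - 1) / 3 := by
  induction m with
  | zero => simp
  | succ m ih => rw [Finset.sum_range_succ, ih]; push_cast; ring

/-- **The energy of integral positions.** -/
theorem energy_nat {n : ℕ} {m : ℕ} (hm : 0 < m) (k : Fin n → ℕ) (hk : ∀ i, k i ≤ m) :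
    (n : ℝ) ^ 2 / (12 * m) ≤ ∑ i, ∑ j, (((k i : ℝ) ^ 2 + (k j : ℝ) ^ 2) / (2 * m) -
      max (k i : ℝ) (k j : ℝ) + m / 3) := by
  have hmr : (0 : ℝ) < m := by exact_mod_cast hm
  have hmax : ∀ i j, max (k i : ℝ) (k j : ℝ) = ((max (k i) (k j) : ℕ) : ℝ) := fun i j => by
    push_cast; rfl
  have e1 : ∑ i, ∑ j, (((k i : ℝ) ^ 2 + (k j : ℝ) ^ 2) / (2 * m) -
      max (k i : ℝ) (k j : ℝ) + m / 3) =
      (n / m) * ∑ i, (k i : ℝ) ^ 2 - ∑ i, ∑ j, ((max (k i) (k j) : ℕ) : ℝ) +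
        (n : ℝ) ^ 2 * (m / 3) := by
    simp only [hmax, add_div, Finset.sum_add_distrib, Finset.sum_sub_distrib, Finset.sum_const,
      Finset.card_univ, Fintype.card_fin, nsmul_eq_mul]
    rw [← Finset.mul_sum, ← Finset.sum_div]
    field_simp
    ring
  rw [e1, sum_sq m k hk, sum_max m k hk]
  set A : ℕ → ℝ := fun u => ((univ.filter fun i => k i ≤ u).card : ℝ) with hA
  have e2 : (n / m : ℝ) * ∑ u ∈ range m, (2 * (u : ℝ) + 1) * (n - A u) -
      ∑ u ∈ range m, ((n : ℝ) ^ 2 - A u ^ 2) + (n : ℝ) ^ 2 * (m / 3) =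
      ∑ u ∈ range m, (A u - n * (2 * (u : ℝ) + 1) / (2 * m)) ^ 2 + (n : ℝ) ^ 2 / (12 * m) := by
    have e3 : ∑ u ∈ range m, (A u - n * (2 * (u : ℝ) + 1) / (2 * m)) ^ 2 =
        ∑ u ∈ range m, A u ^ 2 - (n / m : ℝ) * ∑ u ∈ range m, (2 * (u : ℝ) + 1) * A u +
        (n ^ 2 / (4 * m ^ 2) : ℝ) * ∑ u ∈ range m, (2 * (u : ℝ) + 1) ^ 2 := by
      rw [Finset.mul_sum, Finset.mul_sum, ← Finset.sum_sub_distrib, ← Finset.sum_add_distrib]
      refine Finset.sum_congr rfl fun u _ => ?_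
      field_simp
      ring
    have e4 : ∑ u ∈ range m, (2 * (u : ℝ) + 1) * (n - A u) =
        n * ∑ u ∈ range m, (2 * (u : ℝ) + 1) - ∑ u ∈ range m, (2 * (u : ℝ) + 1) * A u := by
      rw [Finset.mul_sum, ← Finset.sum_sub_distrib]
      exact Finset.sum_congr rfl fun u _ => by ring
    rw [e3, e4, sum_odd, sum_odd_sq, Finset.sum_sub_distrib, Finset.sum_const, card_range,
      nsmul_eq_mul]
    field_simp
    ring
  rw [e2]
  have h3 : 0 ≤ ∑ u ∈ range m, (A u - n * (2 * (u : ℝ) + 1) / (2 * m)) ^ 2 :=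
    Finset.sum_nonneg fun u _ => sq_nonneg _
  linarith

/-- the energy for positions which are multiples of `u`, off the diagonal -/
theorem energy {n : ℕ} {Λ u : ℝ} (hΛ : 0 < Λ) (hu : 0 < u) (hΛu : ∃ m : ℕ, Λ = m * u)
    (t : Fin n → ℝ) (ht : ∀ i, t i ≤ Λ) (htu : ∀ i, ∃ k : ℕ, t i = k * u) :
    (n : ℝ) ^ 2 * u ^ 2 / (12 * Λ) - n * (Λ / 3) ≤
      ∑ p ∈ (univ : Finset (Fin n)).offDiag,
        ((t p.1 ^ 2 + t p.2 ^ 2) / (2 * Λ) - max (t p.1) (t p.2) + Λ / 3) := by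
  obtain ⟨m, hm⟩ := hΛu
  choose k hk using htu
  have hm0 : 0 < m := by
    rcases Nat.eq_zero_or_pos m with h | h
    · subst h; simp at hm; linarith
    · exact h
  have hmr : (0 : ℝ) < m := by exact_mod_cast hm0
  have hkm : ∀ i, k i ≤ m := by
    intro i
    have h1 := ht i
    rw [hk, hm] at h1
    have h2 := le_of_mul_le_mul_right h1 hu
    exact_mod_cast h2
  have h1 := energy_nat hm0 k hkm
  have h2 : ∀ i j, (t i ^ 2 + t j ^ 2) / (2 * Λ) - max (t i) (t j) + Λ / 3 =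
      u * (((k i : ℝ) ^ 2 + (k j : ℝ) ^ 2) / (2 * m) - max (k i : ℝ) (k j : ℝ) + m / 3) := by
    intro i j
    rw [hk i, hk j, hm, ← max_mul_of_nonneg _ _ hu.le]
    field_simp
  have h3 : ∑ i, ∑ j, ((t i ^ 2 + t j ^ 2) / (2 * Λ) - max (t i) (t j) + Λ / 3) =
      u * ∑ i, ∑ j, (((k i : ℝ) ^ 2 + (k j : ℝ) ^ 2) / (2 * m) -
      max (k i : ℝ) (k j : ℝ) + m / 3) := by
    rw [Finset.mul_sum]
    refine Finset.sum_congr rfl fun i _ => ?_
    rw [Finset.mul_sum]
    exact Finset.sum_congr rfl fun j _ => h2 i j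
  have h4 : (n : ℝ) ^ 2 * u ^ 2 / (12 * Λ) ≤
      ∑ i, ∑ j, ((t i ^ 2 + t j ^ 2) / (2 * Λ) - max (t i) (t j) + Λ / 3) := by
    rw [h3]
    refine le_trans (le_of_eq ?_) (mul_le_mul_of_nonneg_left h1 hu.le)
    rw [hm]
    field_simp
  -- the diagonal
  have h5 : ∑ i, ∑ j, ((t i ^ 2 + t j ^ 2) / (2 * Λ) - max (t i) (t j) + Λ / 3) =
      ∑ p ∈ (univ : Finset (Fin n)).offDiag,
        ((t p.1 ^ 2 + t p.2 ^ 2) / (2 * Λ) - max (t p.1) (t p.2) + Λ / 3) +
      ∑ i, ((t i ^ 2 + t i ^ 2) / (2 * Λ) - max (t i) (t i) + Λ / 3) := by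
    rw [← Finset.sum_product', Finset.univ_product_univ, ← Finset.univ_product_univ,
      ← Finset.diag_union_offDiag, Finset.sum_union (Finset.disjoint_diag_offDiag _), add_comm,
      Finset.sum_diag]
  have h6 : ∀ i, (t i ^ 2 + t i ^ 2) / (2 * Λ) - max (t i) (t i) + Λ / 3 ≤ Λ / 3 := by
    intro i
    have h7 : 0 ≤ t i := by rw [hk i]; positivity
    have h8 := ht i
    rw [max_self]
    have h9 : (t i ^ 2 + t i ^ 2) / (2 * Λ) ≤ t i := by
      rw [div_le_iff₀ (by positivity)]; nlinarith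
    linarith
  have h7 : ∑ i, ((t i ^ 2 + t i ^ 2) / (2 * Λ) - max (t i) (t i) + Λ / 3) ≤ n * (Λ / 3) := by
    refine (Finset.sum_le_card_nsmul _ _ _ fun i _ => h6 i).trans (le_of_eq ?_)
    rw [Finset.card_univ, Fintype.card_fin, nsmul_eq_mul]
  linarith

end Pool.Agent.Y725.LS
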