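import Mathlib
import Pool.Agent.TH951.LS.Wei

/-! The exact canonical pairing of the Lattès map of a Legendre curve with multiplicative reduction,
from below: the Green function of an interval. -/

set_option autoImplicit false

open Real Finset Filter Topology Pool.Agent.H951R3.PB TH951.LS
open scoped Classical

namespace Pool.Agent.Y725.LS

universe u

section na

variable {L : Type u} [Field L]

/-- the position of the vector `x` on the interval `[0, Λ]` -/
noncomputable def pos (w : AbsoluteValue L ℝ) (Λ : ℝ) (x : Fin 2 → L) : ℝ :=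
  if x 0 = 0 then Λ else if x 1 = 0 then 0 else
    max 0 (min Λ (log (w (x 1)) - log (w (x 0))))

/-- the escape function -/
noncomputable def esc (w : AbsoluteValue L ℝ) (Λ : ℝ) (x : Fin 2 → L) : ℝ :=
  log (nrm w x) + (pos w Λ x ^ 2 / (2 * Λ) - pos w Λ x)

variable {w : AbsoluteValue L ℝ} {Λ : ℝ}

theorem pos_nonneg (hΛ : 0 ≤ Λ) (x : Fin 2 → L) : 0 ≤ pos w Λ x := by
  unfold pos
  split_ifs
  · exact hΛ
  · exact le_rfl
  · exact le_max_left _ _

theorem pos_le (hΛ : 0 ≤ Λ) (x : Fin 2 → L) : pos w Λ x ≤ Λ := by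
  unfold pos
  split_ifs
  · exact le_rfl
  · exact hΛ
  · exact max_le hΛ (min_le_left _ _)

/-- the position is zero if `|x| ≥ 1` -/
theorem pos_zero {x : Fin 2 → L} (h0 : x 0 ≠ 0) (h : w (x 1) ≤ w (x 0)) : pos w Λ x = 0 := by
  unfold pos
  rw [if_neg h0]
  split_ifs with h1
  · rfl
  · have h2 : log (w (x 1)) ≤ log (w (x 0)) := log_le_log (w.pos h1) h
    apply max_eq_left
    exact (min_le_right _ _).trans (by linarith)

/-- the first coordinate is small -/
theorem w0_le (hΛ : 0 ≤ Λ) (x : Fin 2 → L) (hx : x ≠ 0) :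
    w (x 0) ≤ exp (-pos w Λ x) * nrm w x := by
  have hn : 0 ≤ nrm w x := (w.nonneg _).trans (le_max_left _ _)
  unfold pos
  split_ifs with h0 h1
  · rw [h0, map_zero]; positivity
  · rw [neg_zero, exp_zero, one_mul]; exact le_max_left _ _
  · have p0 := w.pos h0
    have p1 := w.pos h1
    rcases le_total (log (w (x 1)) - log (w (x 0))) 0 with h | h
    · rw [max_eq_left ((min_le_right _ _).trans h), neg_zero, exp_zero, one_mul]
      exact le_max_left _ _
    · have h2 : max 0 (min Λ (log (w (x 1)) - log (w (x 0)))) ≤ log (w (x 1)) - log (w (x 0)) :=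
        max_le h (min_le_right _ _)
      have h3 : exp (-(log (w (x 1)) - log (w (x 0)))) ≤
          exp (-max 0 (min Λ (log (w (x 1)) - log (w (x 0))))) := exp_le_exp.2 (by linarith)
      have h4 : exp (-(log (w (x 1)) - log (w (x 0)))) * w (x 1) = w (x 0) := by
        rw [neg_sub, exp_sub, exp_log p0, exp_log p1]
        field_simp
      calc w (x 0) = exp (-(log (w (x 1)) - log (w (x 0)))) * w (x 1) := h4.symm
        _ ≤ exp (-max 0 (min Λ (log (w (x 1)) - log (w (x 0))))) * nrm w x :=
          mul_le_mul h3 (le_max_right _ _) p1.le (exp_pos _).le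

/-- the wedge product is small if both positions are large -/
theorem wd_le (hw : IsNonarchimedean w) (hΛ : 0 ≤ Λ) {x y : Fin 2 → L} (hxy : wd x y ≠ 0) :
    min (pos w Λ x) (pos w Λ y) ≤ log (nrm w x) + log (nrm w y) - log (w (wd x y)) := by
  have hx : x ≠ 0 := by rintro rfl; simp [wd] at hxy
  have hy : y ≠ 0 := by rintro rfl; simp [wd] at hxy
  have nx := F4_nrm_pos w hx
  have ny := F4_nrm_pos w hy
  have h1 : w (wd x y) ≤ exp (-min (pos w Λ x) (pos w Λ y)) * (nrm w x * nrm w y) := by
    have h2 : w (wd x y) ≤ max (w (x 0 * y 1)) (w (x 1 * y 0)) := by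
      unfold wd
      rw [sub_eq_add_neg]
      refine (hw _ _).trans (le_of_eq ?_)
      rw [AbsoluteValue.map_neg]
    refine h2.trans (max_le ?_ ?_)
    · rw [map_mul]
      have h3 := w0_le (w := w) hΛ x hx
      have h4 : exp (-pos w Λ x) ≤ exp (-min (pos w Λ x) (pos w Λ y)) :=
        exp_le_exp.2 (by linarith [min_le_left (pos w Λ x) (pos w Λ y)])
      calc w (x 0) * w (y 1) ≤ (exp (-pos w Λ x) * nrm w x) * nrm w y :=
            mul_le_mul h3 (le_max_right _ _) (w.nonneg _) (by positivity)
        _ = exp (-pos w Λ x) * (nrm w x * nrm w y) := by ring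
        _ ≤ _ := mul_le_mul_of_nonneg_right h4 (by positivity)
    · rw [map_mul]
      have h3 := w0_le (w := w) hΛ y hy
      have h4 : exp (-pos w Λ y) ≤ exp (-min (pos w Λ x) (pos w Λ y)) :=
        exp_le_exp.2 (by linarith [min_le_right (pos w Λ x) (pos w Λ y)])
      calc w (x 1) * w (y 0) ≤ nrm w x * (exp (-pos w Λ y) * nrm w y) :=
            mul_le_mul (le_max_right _ _) h3 (w.nonneg _) nx.le
        _ = exp (-pos w Λ y) * (nrm w x * nrm w y) := by ring
        _ ≤ _ := mul_le_mul_of_nonneg_right h4 (by positivity)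
  have h2 := log_le_log (w.pos hxy) h1
  rw [log_mul (exp_pos _).ne' (by positivity), log_exp, log_mul nx.ne' ny.ne'] at h2
  linarith

theorem na_eq' (hw : IsNonarchimedean w) {a b : L} (h : w b < w a) : w (a - b) = w a := by
  apply le_antisymm
  · rw [sub_eq_add_neg]
    refine (hw _ _).trans ?_
    rw [AbsoluteValue.map_neg]
    exact max_le le_rfl h.le
  · by_contra hcon
    push Not at hcon
    have h1 := hw (a - b) b
    rw [sub_add_cancel] at h1
    rcases le_max_iff.1 h1 with h2 | h2 <;> linarith

theorem na_le (hw : IsNonarchimedean w) (a b : L) : w (a - b) ≤ max (w a) (w b) := by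
  rw [sub_eq_add_neg]
  refine (hw _ _).trans ?_
  rw [AbsoluteValue.map_neg]

/-- **The functional equation** of the escape function. -/
theorem esc_map (hw : IsNonarchimedean w) (h2 : w 2 = 1) {l : L} (h0 : l ≠ 0) (hl : w l < 1)
    (hΛ : Λ = -log (w l)) {x : Fin 2 → L} (hx : x ≠ 0) :
    esc w Λ (ev (leg l) x) = 4 * esc w Λ x := by
  have hl0 : 0 < w l := w.pos h0
  have hlog : log (w l) < 0 := log_neg hl0 hl
  have hΛ0 : 0 < Λ := by rw [hΛ]; linarith
  have h4 : w (4 : L) = 1 := by
    rw [show (4 : L) = 2 * 2 by norm_num, map_mul, h2, one_mul]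
  rw [ev_leg]
  obtain ⟨a, ha⟩ : ∃ a, a = x 0 := ⟨_, rfl⟩
  obtain ⟨b, hb⟩ : ∃ b, b = x 1 := ⟨_, rfl⟩
  have hxab : x = ![a, b] := by
    rw [ha, hb]; funext i; fin_cases i <;> rfl
  set y : Fin 2 → L := ![(x 0 ^ 2 - l * x 1 ^ 2) ^ 2, 4 * x 0 * x 1 * (x 0 - x 1) *
    (x 0 - l * x 1)] with hy
  have y0 : y 0 = (a ^ 2 - l * b ^ 2) ^ 2 := by rw [hy, ha, hb]; rfl
  have y1 : y 1 = 4 * a * b * (a - b) * (a - l * b) := by rw [hy, ha, hb]; rfl
  have wy1 : w (y 1) = w a * w b * w (a - b) * w (a - l * b) := by
    rw [y1]; simp only [map_mul, h4, one_mul]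
  have wy0 : w (y 0) = w (a ^ 2 - l * b ^ 2) ^ 2 := by rw [y0, map_pow]
  have nx : nrm w x = max (w a) (w b) := by rw [ha, hb]; rfl
  have ny : nrm w y = max (w (y 0)) (w (y 1)) := rfl
  have hA := w.nonneg a
  have hB := w.nonneg b
  rcases le_or_gt (w b) (w a) with hab | hab
  · -- |x| ≥ 1
    have ha0 : a ≠ 0 := by
      rintro rfl
      rw [map_zero] at hab
      have hb0 : b = 0 := w.eq_zero.1 (le_antisymm hab hB)
      apply hx
      rw [hxab, hb0]
      funext i; fin_cases i <;> rfl
    have pa := w.pos ha0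
    have e1 : w (l * b ^ 2) < w (a ^ 2) := by
      rw [map_mul, map_pow, map_pow]
      have : w b ^ 2 ≤ w a ^ 2 := pow_le_pow_left₀ hB hab 2
      have h3 : 0 < w a ^ 2 := by positivity
      nlinarith [w.nonneg b]
    have e2 : w (y 0) = w a ^ 4 := by
      rw [wy0, na_eq' hw e1, map_pow]; ring
    have e3 : w (l * b) < w a := by
      rw [map_mul]
      nlinarith
    have e4 : w (y 1) ≤ w a ^ 4 := by
      rw [wy1, na_eq' hw e3]
      have h5 : w (a - b) ≤ w a := (na_le hw a b).trans (max_le le_rfl hab)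
      calc w a * w b * w (a - b) * w a ≤ w a * w a * w a * w a := by
            gcongr
        _ = w a ^ 4 := by ring
    have px : pos w Λ x = 0 := pos_zero (by rw [← ha]; exact ha0) (by rw [← ha, ← hb]; exact hab)
    have py : pos w Λ y = 0 := pos_zero (by
      intro h; rw [h, map_zero] at e2; have := pow_pos pa 4; linarith) (by rw [e2]; exact e4)
    unfold esc
    rw [px, py, nx, ny, e2, max_eq_left e4, max_eq_left hab, log_pow]
    push_cast; ring
  · -- |x| < 1
    have hb0 : b ≠ 0 := by
      rintro rfl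
      rw [map_zero] at hab
      linarith
    have pb := w.pos hb0
    have eab : w (a - b) = w b := by
      rw [← AbsoluteValue.map_neg, neg_sub]; exact na_eq' hw hab
    have lb0 : 0 < w l * w b := by positivity
    rcases le_or_gt (w a) (w l * w b) with hal | hal
    · -- |x| ≤ |λ|
      have e1 : w (a ^ 2) < w (l * b ^ 2) := by
        rw [map_mul, map_pow, map_pow]
        have h3 : w a ^ 2 ≤ (w l * w b) ^ 2 := pow_le_pow_left₀ hA hal 2
        have h5 : (w l * w b) ^ 2 < w l * w b ^ 2 := by
          have : 0 < w l * w b ^ 2 := by positivity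
          nlinarith
        linarith
      have e2 : w (y 0) = w l ^ 2 * w b ^ 4 := by
        rw [wy0, ← AbsoluteValue.map_neg, neg_sub, na_eq' hw e1, map_mul, map_pow]; ring
      have e3 : w (a - l * b) ≤ w l * w b := by
        refine (na_le hw _ _).trans (max_le hal ?_)
        rw [map_mul]
      have e4 : w (y 1) ≤ w l ^ 2 * w b ^ 4 := by
        rw [wy1, eab]
        calc w a * w b * w b * w (a - l * b) ≤ (w l * w b) * w b * w b * (w l * w b) := by
              gcongr
          _ = w l ^ 2 * w b ^ 4 := by ring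
      have hpos0 : 0 < w l ^ 2 * w b ^ 4 := by positivity
      have px : pos w Λ x = Λ := by
        unfold pos
        rw [← ha, ← hb, if_neg hb0]
        split_ifs with h
        · rfl
        · have pa := w.pos h
          have h6 := log_le_log pa hal
          rw [log_mul hl0.ne' pb.ne'] at h6
          rw [min_eq_left (by linarith), max_eq_right hΛ0.le]
      have py : pos w Λ y = 0 := pos_zero (by
        intro h; rw [h, map_zero] at e2; linarith) (by rw [e2]; exact e4)
      unfold esc
      rw [px, py, nx, ny, e2, max_eq_left e4, max_eq_right hab.le,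
        log_mul (by positivity) (by positivity), log_pow, log_pow]
      have : log (w l) = -Λ := by rw [hΛ]; ring
      rw [this]
      push_cast
      field_simp
      ring
    · -- |λ| < |x| < 1
      have ha0 : a ≠ 0 := by
        rintro rfl
        rw [map_zero] at hal
        linarith
      have pa := w.pos ha0
      have e3 : w (a - l * b) = w a := na_eq' hw (by rw [map_mul]; exact hal)
      have e1 : w (y 1) = w a ^ 2 * w b ^ 2 := by
        rw [wy1, eab, e3]; ring
      obtain ⟨t, ht⟩ : ∃ t, t = log (w b) - log (w a) := ⟨_, rfl⟩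
      have t0 : 0 < t := by
        have := log_lt_log pa hab
        rw [ht]; linarith
      have tΛ : t < Λ := by
        have := log_lt_log lb0 hal
        rw [log_mul hl0.ne' pb.ne'] at this
        rw [ht, hΛ]; linarith
      have px : pos w Λ x = t := by
        unfold pos
        rw [← ha, ← hb, if_neg ha0, if_neg hb0, ← ht, min_eq_right tΛ.le, max_eq_right t0.le]
      have hab4 : w a ^ 4 < w a ^ 2 * w b ^ 2 := by
        have : w a ^ 2 < w b ^ 2 := pow_lt_pow_left₀ hab hA (by norm_num)
        have h5 : 0 < w a ^ 2 := by positivity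
        nlinarith
      have hy1 : y 1 ≠ 0 := by
        intro h; rw [h, map_zero] at e1
        have : 0 < w a ^ 2 * w b ^ 2 := by positivity
        linarith
      have hlogy1 : log (w (y 1)) = 2 * log (w a) + 2 * log (w b) := by
        rw [e1, log_mul (by positivity) (by positivity), log_pow, log_pow]; push_cast; ring
      rcases lt_trichotomy (w a ^ 2) (w l * w b ^ 2) with h | h | h
      · -- 2 t > Λ
        have e5 : w (y 0) = w l ^ 2 * w b ^ 4 := by
          rw [wy0, ← AbsoluteValue.map_neg, neg_sub, na_eq' hw (by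
            rw [map_mul, map_pow, map_pow]; exact h), map_mul, map_pow]; ring
        have e6 : w (y 0) < w a ^ 2 * w b ^ 2 := by
          rw [e5]
          have : (w l * w b) ^ 2 < w a ^ 2 := pow_lt_pow_left₀ hal lb0.le (by norm_num)
          have h5 : 0 < w b ^ 2 := by positivity
          nlinarith
        have hlog2 : 2 * log (w a) < log (w l) + 2 * log (w b) := by
          have := log_lt_log (by positivity) h
          rw [log_pow, log_mul (by positivity) (by positivity), log_pow] at this
          exact_mod_cast this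
        have hy0 : y 0 ≠ 0 := by
          intro h'; rw [h', map_zero] at e5
          have : 0 < w l ^ 2 * w b ^ 4 := by positivity
          linarith
        have hlogy0 : log (w (y 0)) = 2 * log (w l) + 4 * log (w b) := by
          rw [e5, log_mul (by positivity) (by positivity), log_pow, log_pow]; push_cast; ring
        have hd : log (w (y 1)) - log (w (y 0)) = 2 * Λ - 2 * t := by
          rw [hlogy1, hlogy0, ht, hΛ]; ring
        have py : pos w Λ y = 2 * Λ - 2 * t := by
          unfold pos
          rw [if_neg hy0, if_neg hy1, hd, min_eq_right (by rw [ht, hΛ]; linarith),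
            max_eq_right (by linarith)]
        unfold esc
        rw [px, py, nx, ny, max_eq_right hab.le, max_eq_right (by rw [e1]; exact e6.le), hlogy1]
        have : log (w a) = log (w b) - t := by rw [ht]; ring
        rw [this]
        field_simp
        ring
      · -- 2 t = Λ
        have e6 : w (y 0) ≤ w a ^ 4 := by
          rw [wy0]
          have : w (a ^ 2 - l * b ^ 2) ≤ w a ^ 2 := by
            refine (na_le hw _ _).trans (max_le ?_ ?_)
            · rw [map_pow]
            · rw [map_mul, map_pow, ← h]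
          calc w (a ^ 2 - l * b ^ 2) ^ 2 ≤ (w a ^ 2) ^ 2 := pow_le_pow_left₀ (w.nonneg _) this 2
            _ = w a ^ 4 := by ring
        have hlog2 : 2 * log (w a) = log (w l) + 2 * log (w b) := by
          have := congrArg log h
          rw [log_pow, log_mul (by positivity) (by positivity), log_pow] at this
          exact_mod_cast this
        have hΛt : Λ = 2 * t := by rw [ht, hΛ]; linarith
        have py : pos w Λ y = Λ := by
          unfold pos
          rw [if_neg hy1]
          split_ifs with h'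
          · rfl
          · have h7 := log_le_log (w.pos h') e6
            rw [log_pow] at h7
            push_cast at h7
            rw [min_eq_left (by rw [hlogy1, hΛt, ht]; linarith), max_eq_right hΛ0.le]
        unfold esc
        rw [px, py, nx, ny, max_eq_right hab.le, max_eq_right (by rw [e1]; linarith), hlogy1]
        have : log (w a) = log (w b) - t := by rw [ht]; ring
        rw [this, hΛt]
        field_simp
        ring
      · -- 2 t < Λ
        have e5 : w (y 0) = w a ^ 4 := by
          rw [wy0, na_eq' hw (by rw [map_mul, map_pow, map_pow]; exact h), map_pow]; ring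
        have hlog2 : log (w l) + 2 * log (w b) < 2 * log (w a) := by
          have := log_lt_log (by positivity) h
          rw [log_pow, log_mul (by positivity) (by positivity), log_pow] at this
          exact_mod_cast this
        have hy0 : y 0 ≠ 0 := by
          intro h'; rw [h', map_zero] at e5
          have : 0 < w a ^ 4 := by positivity
          linarith
        have hlogy0 : log (w (y 0)) = 4 * log (w a) := by
          rw [e5, log_pow]; push_cast; ring
        have hd : log (w (y 1)) - log (w (y 0)) = 2 * t := by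
          rw [hlogy1, hlogy0, ht]; ring
        have py : pos w Λ y = 2 * t := by
          unfold pos
          rw [if_neg hy0, if_neg hy1, hd, min_eq_right (by rw [ht, hΛ]; linarith),
            max_eq_right (by linarith)]
        unfold esc
        rw [px, py, nx, ny, max_eq_right hab.le, max_eq_right (by rw [e1, e5]; exact hab4.le),
          hlogy1]
        have : log (w a) = log (w b) - t := by rw [ht]; ring
        rw [this]
        field_simp
        ring

end na

section closed

variable {L : Type u} [Field L] [IsAlgClosed L] [CharZero L] {w : AbsoluteValue L ℝ} {Λ : ℝ}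

/-- the escape function is the Green function -/
theorem gr_esc (hw : IsNonarchimedean w) (h2 : w 2 = 1) {l : L} (h0 : l ≠ 0) (hl : w l < 1)
    (hΛ : Λ = -log (w l)) {r : ℝ} (hfib : Fib w (ev (leg l)) 4 r) {x : Fin 2 → L} (hx : x ≠ 0) :
    Gr w (ev (leg l)) 4 x = esc w Λ x := by
  have hΛ0 : 0 < Λ := by rw [hΛ]; linarith [log_neg (w.pos h0) hl]
  have h1 := gr_tendsto (by norm_num : 2 ≤ 4) hfib hx
  have hne : ∀ n : ℕ, (ev (leg l))^[n] x ≠ 0 := fun n => fib_ne_zero (fib_iter hfib n) hx
  have hit : ∀ n : ℕ, esc w Λ ((ev (leg l))^[n] x) = 4 ^ n * esc w Λ x := by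
    intro n
    induction n with
    | zero => simp
    | succ n ih =>
      rw [Function.iterate_succ_apply', esc_map hw h2 h0 hl hΛ (hne n), ih, pow_succ]; ring
  have hb : ∀ y : Fin 2 → L, |log (nrm w y) - esc w Λ y| ≤ Λ := by
    intro y
    have p0 := pos_nonneg (w := w) hΛ0.le y
    have p1 := pos_le (w := w) hΛ0.le y
    unfold esc
    have e1 : log (nrm w y) - (log (nrm w y) + (pos w Λ y ^ 2 / (2 * Λ) - pos w Λ y)) =
        pos w Λ y - pos w Λ y ^ 2 / (2 * Λ) := by ring
    rw [e1]
    have h3 : pos w Λ y ^ 2 / (2 * Λ) ≤ pos w Λ y := by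
      rw [div_le_iff₀ (by positivity)]; nlinarith
    have h4 : 0 ≤ pos w Λ y ^ 2 / (2 * Λ) := by positivity
    rw [abs_le]
    constructor <;> linarith
  have h3 : Tendsto (fun n : ℕ => Λ / (4 : ℝ) ^ n) atTop (𝓝 0) := by
    have := tendsto_pow_atTop_nhds_zero_of_lt_one (r := (1 / 4 : ℝ)) (by norm_num) (by norm_num)
    have h4 := this.const_mul Λ
    rw [mul_zero] at h4
    refine h4.congr fun n => ?_
    rw [div_pow, one_pow]; ring
  have h4 : Tendsto (fun n : ℕ => log (nrm w ((ev (leg l))^[n] x)) / (4 : ℝ) ^ n - esc w Λ x)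
      atTop (𝓝 0) := by
    refine squeeze_zero_norm (fun n => ?_) h3
    have h5 := hb ((ev (leg l))^[n] x)
    rw [hit n] at h5
    have h6 : (0 : ℝ) < 4 ^ n := by positivity
    rw [Real.norm_eq_abs]
    have e1 : log (nrm w ((ev (leg l))^[n] x)) / (4 : ℝ) ^ n - esc w Λ x =
        (log (nrm w ((ev (leg l))^[n] x)) - 4 ^ n * esc w Λ x) / 4 ^ n := by
      field_simp
    rw [e1, abs_div, abs_of_pos h6]
    exact div_le_div_of_nonneg_right h5 h6.le
  have h5 : Tendsto (fun n : ℕ => log (nrm w ((ev (leg l))^[n] x)) / (4 : ℝ) ^ n)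
      atTop (𝓝 (esc w Λ x)) := by
    have := h4.add_const (esc w Λ x)
    rw [zero_add] at this
    refine this.congr fun n => ?_
    ring
  have h1' : Tendsto (fun n : ℕ => log (nrm w ((ev (leg l))^[n] x)) / (4 : ℝ) ^ n)
      atTop (𝓝 (Gr w (ev (leg l)) 4 x)) := by
    exact_mod_cast h1
  exact tendsto_nhds_unique h1' h5

/-- the resultant -/
theorem leg_res (hw : IsNonarchimedean w) (h2 : w 2 = 1) {l : L} (h0 : l ≠ 0) (hl : w l < 1)
    {r : ℝ} (hfib : Fib w (ev (leg l)) 4 r) : r = 4 * log (w l) := by
  obtain ⟨s, hs⟩ := IsAlgClosed.exists_pow_nat_eq l (n := 2) (by norm_num)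
  have hl0 := w.pos h0
  have hs0 : s ≠ 0 := by rintro rfl; apply h0; rw [← hs]; ring
  have ps := w.pos hs0
  have hws : w s ^ 2 = w l := by rw [← map_pow, hs]
  have hs1 : w s < 1 := by
    by_contra hcon
    push Not at hcon
    have : 1 ≤ w s ^ 2 := one_le_pow₀ hcon
    linarith
  obtain ⟨C, z, hz⟩ := hfib ![1, 0] (by simp [nrm])
  have hC := w.pos hz.C_ne
  have hfac : ∀ x : Fin 2 → L, 4 * x 0 * x 1 * (x 0 - x 1) * (x 0 - l * x 1) =
      C * ∏ j, wd x (z j) := by
    intro x
    rw [← hz.fac x, ev_leg]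
    simp [wd]
  have h4 : w (4 : L) = 1 := by
    rw [show (4 : L) = 2 * 2 by norm_num, map_mul, h2, one_mul]
  -- the second coordinate vanishes on the fibre
  have hF1 : ∀ j, ev (leg l) (z j) 1 = 0 := by
    intro j
    obtain ⟨c, -, hc⟩ := hz.img j
    rw [hc]; simp
  have hF0 : ∀ j, ev (leg l) (z j) 0 = wd (z j) ![s, 1] ^ 2 * wd (z j) ![-s, 1] ^ 2 := by
    intro j
    rw [ev_leg]
    simp only [wd, Matrix.cons_val_zero, Matrix.cons_val_one, ← hs]
    ring
  have hn : ∀ j, nrm w (ev (leg l) (z j)) = w (wd (z j) ![s, 1]) ^ 2 *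
      w (wd (z j) ![-s, 1]) ^ 2 := by
    intro j
    unfold nrm
    rw [hF1, map_zero, max_eq_left (w.nonneg _), hF0, map_mul, map_pow, map_pow]
  have hsw : ∀ x y : Fin 2 → L, w (wd x y) = w (wd y x) := by
    intro x y
    rw [← AbsoluteValue.map_neg]; congr 1; simp only [wd]; ring
  have hval : ∀ t : L, t ^ 2 = l → w t < 1 → t ≠ 0 →
      w C * ∏ j, w (wd (z j) ![t, 1]) = w l := by
    intro t ht ht1 ht0
    have h5 := congrArg w (hfac ![t, 1])
    simp only [Matrix.cons_val_zero, Matrix.cons_val_one, mul_one] at h5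
    rw [map_mul w C, map_prod] at h5
    simp only [hsw (z _) ![t, 1]]
    rw [← h5]
    have e1 : w (t - 1) = 1 := by
      rw [← AbsoluteValue.map_neg, neg_sub, na_eq' hw (by rw [map_one]; exact ht1), map_one]
    have e2 : t - l = t * (1 - t) := by rw [← ht]; ring
    have e3 : w (1 - t) = 1 := by
      rw [na_eq' hw (by rw [map_one]; exact ht1), map_one]
    rw [e2]
    simp only [map_mul, h4, e1, e3, one_mul, mul_one]
    rw [← map_mul, ← pow_two, ht]
  have v1 := hval s hs hs1 hs0
  have v2 := hval (-s) (by rw [neg_pow_two]; exact hs) (by rw [AbsoluteValue.map_neg]; exact hs1)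
    (neg_ne_zero.2 hs0)
  have hres := hz.res
  have hprod1 : ∏ j, w (wd (z j) ![s, 1]) ≠ 0 := by
    intro h; rw [h, mul_zero] at v1; linarith
  have hprod2 : ∏ j, w (wd (z j) ![-s, 1]) ≠ 0 := by
    intro h; rw [h, mul_zero] at v2; linarith
  have hne1 : ∀ j ∈ (Finset.univ : Finset (Fin 4)), w (wd (z j) ![s, 1]) ≠ 0 := fun j hj =>
    Finset.prod_ne_zero_iff.1 hprod1 j hj
  have hne2 : ∀ j ∈ (Finset.univ : Finset (Fin 4)), w (wd (z j) ![-s, 1]) ≠ 0 := fun j hj =>
    Finset.prod_ne_zero_iff.1 hprod2 j hj
  have hsum : ∑ j, log (nrm w (ev (leg l) (z j))) =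
      2 * log (∏ j, w (wd (z j) ![s, 1])) + 2 * log (∏ j, w (wd (z j) ![-s, 1])) := by
    rw [log_prod hne1, log_prod hne2, Finset.mul_sum, Finset.mul_sum, ← Finset.sum_add_distrib]
    refine Finset.sum_congr rfl fun j hj => ?_
    rw [hn, log_mul (pow_ne_zero _ (hne1 j hj)) (pow_ne_zero _ (hne2 j hj)), log_pow, log_pow]
    push_cast; ring
  have l1 := congrArg log v1
  have l2 := congrArg log v2
  rw [log_mul hC.ne' hprod1] at l1
  rw [log_mul hC.ne' hprod2] at l2
  rw [hsum] at hres
  push_cast at hres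
  linarith

/-- the Green function of the interval -/
noncomputable def neu (Λ s t : ℝ) : ℝ := (s ^ 2 + t ^ 2) / (2 * Λ) - max s t + Λ / 3

/-- **The canonical pairing** is at least the Green function of the interval. -/
theorem gg_leg (hw : IsNonarchimedean w) (h2 : w 2 = 1) {l : L} (h0 : l ≠ 0) (hl : w l < 1)
    (hΛ : Λ = -log (w l)) {r : ℝ} (hfib : Fib w (ev (leg l)) 4 r) {x y : Fin 2 → L}
    (hxy : wd x y ≠ 0) :
    neu Λ (pos w Λ x) (pos w Λ y) ≤ gg w (ev (leg l)) 4 r x y := by
  have hΛ0 : 0 < Λ := by rw [hΛ]; linarith [log_neg (w.pos h0) hl]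
  have hx : x ≠ 0 := by rintro rfl; simp [wd] at hxy
  have hy : y ≠ 0 := by rintro rfl; simp [wd] at hxy
  have h1 := wd_le hw hΛ0.le hxy
  unfold gg neu
  rw [gr_esc hw h2 h0 hl hΛ hfib hx, gr_esc hw h2 h0 hl hΛ hfib hy, leg_res hw h2 h0 hl hfib, ta]
  unfold esc
  have e1 : min (pos w Λ x) (pos w Λ y) + max (pos w Λ x) (pos w Λ y) =
      pos w Λ x + pos w Λ y := min_add_max _ _
  have e2 : log (w l) = -Λ := by rw [hΛ]; ring
  rw [e2]
  push_cast
  have e3 : (pos w Λ x ^ 2 + pos w Λ y ^ 2) / (2 * Λ) =
      pos w Λ x ^ 2 / (2 * Λ) + pos w Λ y ^ 2 / (2 * Λ) := by rw [add_div]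
  have e4 : -(4 * -Λ) / (4 * (4 - 1)) = Λ / 3 := by ring
  rw [e3, e4]
  linarith

end closed

end Pool.Agent.Y725.LS
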