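import Mathlib
import Pool.Agent.Y725.LS.MLoc
import Pool.Agent.TH951.NF.Count

/-! The value group of an extension of a finite place on elements of bounded degree. -/

set_option autoImplicit false

open Real Finset Module NumberField Pool.Agent.H951R3.PB TH951.LS
open scoped IntermediateField

namespace Pool.Agent.Y725.LS

universe u

/-- two terms of a vanishing sum have the same maximal absolute value -/
theorem two_max {L : Type u} [Field L] {w : AbsoluteValue L ℝ} (hw : IsNonarchimedean w)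
    {ι : Type*} [DecidableEq ι] (s : Finset ι) (f : ι → L) (hs : ∑ i ∈ s, f i = 0)
    (hne : ∃ i ∈ s, f i ≠ 0) : ∃ i ∈ s, ∃ j ∈ s, i ≠ j ∧ f i ≠ 0 ∧ w (f i) = w (f j) := by
  obtain ⟨i₀, hi₀, h0⟩ := hne
  obtain ⟨i, hi, hmax⟩ := Finset.exists_max_image s (fun i => w (f i)) ⟨i₀, hi₀⟩
  have hfi : f i ≠ 0 := by
    intro h
    have h1 := hmax i₀ hi₀
    simp only [h, map_zero] at h1
    exact absurd (w.pos h0) (not_lt.2 h1)
  have h1 : f i = -∑ j ∈ s.erase i, f j := by
    rw [eq_neg_iff_add_eq_zero, Finset.add_sum_erase _ _ hi, hs]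
  have hne' : (s.erase i).Nonempty := by
    rw [Finset.nonempty_iff_ne_empty]
    intro h
    rw [h, Finset.sum_empty, neg_zero] at h1
    exact hfi h1
  have h2 : w (f i) ≤ (s.erase i).sup' hne' fun j => w (f j) := by
    rw [h1, AbsoluteValue.map_neg]
    exact IsNonarchimedean.apply_sum_le_sup hw hne'
  obtain ⟨j, hj, hj'⟩ := Finset.exists_mem_eq_sup' hne' fun j => w (f j)
  refine ⟨i, hi, j, Finset.mem_of_mem_erase hj, (Finset.ne_of_mem_erase hj).symm, hfi, ?_⟩
  rw [hj'] at h2
  exact le_antisymm h2 (hmax j (Finset.mem_of_mem_erase hj))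

/-- a power of the absolute value of an algebraic number lies in the value group -/
theorem val_root {K : Type u} [Field K] {v : AbsoluteValue K ℝ}
    {w : AbsoluteValue (AlgebraicClosure K) ℝ} (hvw : Ext v w) (hw : IsNonarchimedean w)
    {z : AlgebraicClosure K} (hz : z ≠ 0) {n : ℕ} (hn : (minpoly K z).natDegree ≤ n) :
    ∃ k : ℕ, 0 < k ∧ k ≤ n ∧ ∃ c : K, c ≠ 0 ∧ w z ^ k = v c := by
  classical
  set p := minpoly K z with hp
  have hint : IsIntegral K z := Algebra.IsIntegral.isIntegral z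
  have hp0 : p ≠ 0 := minpoly.ne_zero hint
  have hsum : ∑ i ∈ range (p.natDegree + 1), algebraMap K (AlgebraicClosure K) (p.coeff i) * z ^ i
      = 0 := by
    have h1 := minpoly.aeval K z
    rw [← hp, Polynomial.aeval_eq_sum_range] at h1
    simpa [Algebra.smul_def] using h1
  obtain ⟨i, hi, j, hj, hij, hne, heq⟩ := two_max hw _ _ hsum
    ⟨p.natDegree, by simp, by
      have h1 : p.coeff p.natDegree = 1 := (minpoly.monic hint).coeff_natDegree
      rw [h1, map_one, one_mul]
      exact pow_ne_zero _ hz⟩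
  have hwz := w.pos hz
  have key : ∀ i j : ℕ, i < j → j ≤ n → p.coeff i ≠ 0 → p.coeff j ≠ 0 →
      w (algebraMap K (AlgebraicClosure K) (p.coeff i) * z ^ i) =
      w (algebraMap K (AlgebraicClosure K) (p.coeff j) * z ^ j) →
      ∃ k : ℕ, 0 < k ∧ k ≤ n ∧ ∃ c : K, c ≠ 0 ∧ w z ^ k = v c := by
    intro i j hij hjn hci hcj h
    refine ⟨j - i, by omega, by omega, p.coeff i / p.coeff j, div_ne_zero hci hcj, ?_⟩
    rw [map_mul, map_mul, hvw, hvw, map_pow, map_pow] at h
    have hvj := v.pos hcj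
    rw [map_div₀, eq_div_iff hvj.ne']
    have h2 : w z ^ j = w z ^ (j - i) * w z ^ i := by rw [← pow_add]; congr 1; omega
    rw [h2] at h
    have h3 : w z ^ i ≠ 0 := pow_ne_zero _ hwz.ne'
    apply mul_right_cancel₀ h3
    rw [h]; ring
  have hci : p.coeff i ≠ 0 := by
    intro h; rw [h, map_zero, zero_mul] at hne; exact hne rfl
  have hcj : p.coeff j ≠ 0 := by
    intro h
    rw [h, map_zero, zero_mul, map_zero] at heq
    exact (w.pos hne).ne' heq
  have hi' : i ≤ n := by
    have := mem_range.1 hi; omega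
  have hj' : j ≤ n := by
    have := mem_range.1 hj; omega
  rcases lt_or_gt_of_ne hij with h | h
  · exact key i j h hj' hci hcj heq
  · exact key j i h hi' hcj hci heq.symm

/-- the logarithm of the absolute value of an algebraic number of degree at most `n` is a multiple
of `log N v / n!` -/
theorem val_log {K : Type u} [Field K] [NumberField K] (v : FinitePlace K)
    {w : AbsoluteValue (AlgebraicClosure K) ℝ} (hvw : Ext v.val w)
    {z : AlgebraicClosure K} (hz : z ≠ 0) {n : ℕ} (hn : (minpoly K z).natDegree ≤ n) :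
    ∃ k : ℤ, log (w z) = k * (log (TH951.NF.Nm v) / n.factorial) := by
  obtain ⟨k, hk, hkn, c, hc, h⟩ := val_root hvw (ext_na v w hvw) hz hn
  obtain ⟨m, hm⟩ := TH951.NF.Nm_pow v hc
  have hm' : v.val c = (TH951.NF.Nm v : ℝ) ^ m := hm
  rw [hm'] at h
  have h1 := congrArg log h
  rw [log_pow, log_zpow] at h1
  obtain ⟨q, hq⟩ := Nat.dvd_factorial hk hkn
  have hk0 : (k : ℝ) ≠ 0 := by exact_mod_cast hk.ne'
  refine ⟨m * q, ?_⟩
  have hq0 : (n.factorial : ℝ) = k * q := by exact_mod_cast hq
  have hf : (n.factorial : ℝ) ≠ 0 := by exact_mod_cast Nat.factorial_ne_zero n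
  have hq1 : (q : ℝ) ≠ 0 := by
    intro h'; rw [h', mul_zero] at hq0; exact hf hq0
  rw [hq0]
  push_cast
  have h2 : log (w z) = m * log (TH951.NF.Nm v) / k := by
    rw [eq_div_iff hk0, mul_comm]; exact h1
  rw [h2]
  field_simp

end Pool.Agent.Y725.LS
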