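import Mathlib
import Pool.Agent.Y725.LS.MLoc
import Pool.Agent.Y725.LS.Val
import Pool.Agent.Y725.LS.Energy
import Pool.Agent.TH951.LS.Fam

/-! Places of (potentially) multiplicative reduction: positions and energy. -/

set_option autoImplicit false

open Real Finset Module NumberField Pool.Agent.H951R3.PB TH951.LS
open scoped IntermediateField

namespace Pool.Agent.Y725.LS

universe u

section roots

variable {L : Type u} [Field L] {b2 b4 b6 b8 e₁ e₂ e₃ : L}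

theorem Roots.swap23 (h : Roots b2 b4 b6 b8 e₁ e₂ e₃) : Roots b2 b4 b6 b8 e₁ e₃ e₂ :=
  ⟨by rw [h.h2]; ring, by rw [h.h4]; ring, by rw [h.h6]; ring, h.h8, h.n13, h.n12, h.n23.symm⟩

theorem Roots.swap12 (h : Roots b2 b4 b6 b8 e₁ e₂ e₃) : Roots b2 b4 b6 b8 e₂ e₁ e₃ :=
  ⟨by rw [h.h2]; ring, by rw [h.h4]; ring, by rw [h.h6]; ring, h.h8, h.n12.symm, h.n23, h.n13⟩

end roots

section K

variable {K : Type u} [Field K] [NumberField K] {W : WeierstrassCurve K} [W.IsElliptic]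
  {e₁ e₂ e₃ : AlgebraicClosure K}

/-- a labelling of the roots with `|λ| < 1`, and the value of `j` -/
theorem roots_lt (v : FinitePlace K) {w : AbsoluteValue (AlgebraicClosure K) ℝ}
    (hvw : Ext v.val w) (h2 : v.val 2 = 1) (hj : 1 < v.val W.j) :
    ∃ e₁ e₂ e₃ : AlgebraicClosure K, Roots (algebraMap K (AlgebraicClosure K) W.b₂)
      (algebraMap K (AlgebraicClosure K) W.b₄) (algebraMap K (AlgebraicClosure K) W.b₆)
      (algebraMap K (AlgebraicClosure K) W.b₈) e₁ e₂ e₃ ∧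
      w ((e₃ - e₁) / (e₂ - e₁)) < 1 ∧
      -log (w ((e₃ - e₁) / (e₂ - e₁))) = log (v.val W.j) / 2 := by
  have hw := ext_na v w hvw
  have h2w : w (2 : AlgebraicClosure K) = 1 := by
    rw [← map_ofNat (algebraMap K (AlgebraicClosure K)) 2, hvw]; exact h2
  have hval : ∀ e₁ e₂ e₃ : AlgebraicClosure K, Roots (algebraMap K (AlgebraicClosure K) W.b₂)
      (algebraMap K (AlgebraicClosure K) W.b₄) (algebraMap K (AlgebraicClosure K) W.b₆)
      (algebraMap K (AlgebraicClosure K) W.b₈) e₁ e₂ e₃ → w ((e₃ - e₁) / (e₂ - e₁)) < 1 →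
      -log (w ((e₃ - e₁) / (e₂ - e₁))) = log (v.val W.j) / 2 := by
    intro e₁ e₂ e₃ h hlt
    obtain ⟨h0, h1⟩ := roots_l h
    set l := (e₃ - e₁) / (e₂ - e₁) with hl
    have hj' := congrArg w (j_roots W h)
    rw [← hl] at hj'
    have p1 : w (1 - l) = 1 := by rw [na_eq' hw (by rw [map_one]; exact hlt), map_one]
    have pq : w (l ^ 2 - l + 1) = 1 := by
      have e : l ^ 2 - l + 1 = 1 - l * (1 - l) := by ring
      rw [e, na_eq' hw (by rw [map_one, map_mul, p1, mul_one]; exact hlt), map_one]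
    have h256 : w (256 : AlgebraicClosure K) = 1 := by
      rw [show (256 : AlgebraicClosure K) = 2 ^ 8 by norm_num, map_pow, h2w, one_pow]
    rw [map_mul, map_mul, map_mul, map_pow, map_pow, map_pow, p1, pq, h256, hvw] at hj'
    have pl := w.pos h0
    have hj'' : v.val W.j * w l ^ 2 = 1 := by
      rw [one_pow, mul_one, one_pow, mul_one] at hj'; exact hj'
    have h5 := congrArg log hj''
    rw [log_mul (by linarith) (by positivity), log_pow, log_one] at h5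
    push_cast at h5
    linarith
  obtain ⟨e₁, e₂, e₃, h⟩ := roots_closure W
  obtain ⟨h0, h1⟩ := roots_l h
  have n21 : e₂ - e₁ ≠ 0 := sub_ne_zero.2 (Ne.symm h.n12)
  have n31 : e₃ - e₁ ≠ 0 := sub_ne_zero.2 (Ne.symm h.n13)
  rcases lt_trichotomy (w ((e₃ - e₁) / (e₂ - e₁))) 1 with hlt | heq | hgt
  · exact ⟨e₁, e₂, e₃, h, hlt, hval _ _ _ h hlt⟩
  · -- then `|1 - λ| < 1`
    have h1l : w (1 - (e₃ - e₁) / (e₂ - e₁)) < 1 := by
      by_contra hcon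
      push Not at hcon
      have p1 : w (1 - (e₃ - e₁) / (e₂ - e₁)) = 1 := by
        apply le_antisymm _ hcon
        refine (na_le hw _ _).trans ?_
        rw [map_one, heq, max_self]
      have h3 := (two_ell_le hw h2w h0 h1 (j_roots W h)).1
      have hj' := congrArg w (j_roots W h)
      have h256 : w (256 : AlgebraicClosure K) = 1 := by
        rw [show (256 : AlgebraicClosure K) = 2 ^ 8 by norm_num, map_pow, h2w, one_pow]
      rw [map_mul, map_mul, map_mul, map_pow, map_pow, map_pow, p1, heq, h256, hvw] at hj'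
      have hq : w (((e₃ - e₁) / (e₂ - e₁)) ^ 2 - (e₃ - e₁) / (e₂ - e₁) + 1) ≤ 1 := by
        refine (hw _ _).trans (max_le ((na_le hw _ _).trans ?_) (by rw [map_one]))
        rw [map_pow, heq, one_pow, max_self]
      have h5 : w (((e₃ - e₁) / (e₂ - e₁)) ^ 2 - (e₃ - e₁) / (e₂ - e₁) + 1) ^ 3 ≤ 1 :=
        pow_le_one₀ (w.nonneg _) hq
      linarith
    have e1 : 1 - (e₃ - e₁) / (e₂ - e₁) = (e₃ - e₂) / (e₁ - e₂) := by
      have : e₁ - e₂ ≠ 0 := sub_ne_zero.2 h.n12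
      rw [eq_div_iff this, sub_mul, one_mul, div_mul_eq_mul_div, sub_eq_iff_eq_add, ← sub_eq_iff_eq_add',
        eq_div_iff n21]
      ring
    rw [e1] at h1l
    exact ⟨e₂, e₁, e₃, Roots.swap12 h, h1l, hval _ _ _ (Roots.swap12 h) h1l⟩
  · have hlt : w ((e₂ - e₁) / (e₃ - e₁)) < 1 := by
      have e1 : (e₂ - e₁) / (e₃ - e₁) = ((e₃ - e₁) / (e₂ - e₁))⁻¹ := by rw [inv_div]
      rw [e1, map_inv₀]
      exact inv_lt_one_of_one_lt₀ hgt
    exact ⟨e₁, e₃, e₂, Roots.swap23 h, hlt, hval _ _ _ (Roots.swap23 h) hlt⟩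

omit [W.IsElliptic] in
theorem root_deg (h : Roots (algebraMap K (AlgebraicClosure K) W.b₂)
    (algebraMap K (AlgebraicClosure K) W.b₄) (algebraMap K (AlgebraicClosure K) W.b₆)
    (algebraMap K (AlgebraicClosure K) W.b₈) e₁ e₂ e₃) : finrank K K⟮e₁⟯ ≤ 3 := by
  have ha : W.twoTorsionPolynomial.a ≠ 0 := by
    change (4 : K) ≠ 0
    norm_num
  refine finrank_root ha ?_
  rw [WeierstrassCurve.twoTorsionPolynomial, Cubic.toPoly]
  simp only [map_add, map_mul, map_pow, Polynomial.aeval_C, Polynomial.aeval_X, map_ofNat]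
  rw [h.h2, h.h4, h.h6]
  ring

/-- elements of the field generated by two roots have degree at most nine -/
theorem deg_nine (h : Roots (algebraMap K (AlgebraicClosure K) W.b₂)
    (algebraMap K (AlgebraicClosure K) W.b₄) (algebraMap K (AlgebraicClosure K) W.b₆)
    (algebraMap K (AlgebraicClosure K) W.b₈) e₁ e₂ e₃) {z : AlgebraicClosure K}
    (hz : z ∈ K⟮e₁⟯ ⊔ K⟮e₂⟯) : (minpoly K z).natDegree ≤ 9 := by
  have h1 := root_deg h
  have h2 := root_deg (Roots.swap12 h)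
  have hint : ∀ t : AlgebraicClosure K, IsIntegral K t := fun t => Algebra.IsIntegral.isIntegral t
  haveI : FiniteDimensional K K⟮e₁⟯ := IntermediateField.adjoin.finiteDimensional (hint e₁)
  haveI : FiniteDimensional K K⟮e₂⟯ := IntermediateField.adjoin.finiteDimensional (hint e₂)
  haveI : FiniteDimensional K ↥(K⟮e₁⟯ ⊔ K⟮e₂⟯) := inferInstance
  have h3 : finrank K ↥(K⟮e₁⟯ ⊔ K⟮e₂⟯) ≤ finrank K K⟮e₁⟯ * finrank K K⟮e₂⟯ :=
    IntermediateField.finrank_sup_le _ _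
  have h4 : (minpoly K z).natDegree = (minpoly K (⟨z, hz⟩ : ↥(K⟮e₁⟯ ⊔ K⟮e₂⟯))).natDegree := by
    rw [← minpoly.algebraMap_eq (algebraMap ↥(K⟮e₁⟯ ⊔ K⟮e₂⟯) (AlgebraicClosure K)).injective]
    rfl
  rw [h4]
  have h5 := minpoly.natDegree_le (A := K) (⟨z, hz⟩ : ↥(K⟮e₁⟯ ⊔ K⟮e₂⟯))
  calc _ ≤ finrank K ↥(K⟮e₁⟯ ⊔ K⟮e₂⟯) := h5
    _ ≤ _ := h3
    _ ≤ 3 * 3 := Nat.mul_le_mul h1 h2

/-- **Positions at a place of multiplicative reduction.** -/
theorem mult_pos (v : FinitePlace K) {w : AbsoluteValue (AlgebraicClosure K) ℝ}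
    (hvw : Ext v.val w) (h2 : v.val 2 = 1) (hj : 1 < v.val W.j) :
    ∃ p : (Fin 2 → K) → ℝ,
      (∀ x, 0 ≤ p x ∧ p x ≤ log (v.val W.j) / 2 ∧
        ∃ k : ℕ, p x = k * (log (TH951.NF.Nm v) / (Nat.factorial 9 : ℕ))) ∧
      (∃ m : ℕ, log (v.val W.j) / 2 = m * (log (TH951.NF.Nm v) / (Nat.factorial 9 : ℕ))) ∧
      ∀ x y, wd x y ≠ 0 → neu (log (v.val W.j) / 2) (p x) (p y) ≤
        gg w (ev (fL K (fW W))) 4 (log (w (rs (fL K (fW W)) 4))) (vL K x) (vL K y) := by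
  classical
  have hw := ext_na v w hvw
  have h2w : w (2 : AlgebraicClosure K) = 1 := by
    rw [← map_ofNat (algebraMap K (AlgebraicClosure K)) 2, hvw]; exact h2
  obtain ⟨e₁, e₂, e₃, h, hlt, hΛ⟩ := roots_lt (W := W) v hvw h2 hj
  obtain ⟨h0, h1⟩ := roots_l h
  have n21 : e₂ - e₁ ≠ 0 := sub_ne_zero.2 (Ne.symm h.n12)
  set l := (e₃ - e₁) / (e₂ - e₁) with hl
  set Λ := log (v.val W.j) / 2 with hΛdef
  have hΛ0 : 0 < Λ := by
    rw [hΛdef]
    have := Real.log_pos hj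
    positivity
  obtain ⟨u, hu⟩ : ∃ u, u = log (TH951.NF.Nm v) / ((Nat.factorial 9 : ℕ) : ℝ) := ⟨_, rfl⟩
  have hNm : (1 : ℝ) < TH951.NF.Nm v := by exact_mod_cast TH951.NF.one_lt_Nm v
  have hu0 : 0 < u := by
    rw [hu]
    have := Real.log_pos hNm
    positivity
  have hE1 : e₁ ∈ K⟮e₁⟯ ⊔ K⟮e₂⟯ :=
    (le_sup_left : K⟮e₁⟯ ≤ _) (IntermediateField.mem_adjoin_simple_self K e₁)
  have hE2 : e₂ ∈ K⟮e₁⟯ ⊔ K⟮e₂⟯ :=
    (le_sup_right : K⟮e₂⟯ ≤ _) (IntermediateField.mem_adjoin_simple_self K e₂)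
  have hK : ∀ c : K, algebraMap K (AlgebraicClosure K) c ∈ K⟮e₁⟯ ⊔ K⟮e₂⟯ := fun c =>
    IntermediateField.algebraMap_mem _ c
  have hE3 : e₃ ∈ K⟮e₁⟯ ⊔ K⟮e₂⟯ := by
    have h4 : (4 : AlgebraicClosure K) ≠ 0 := by norm_num
    have e : e₃ = -(algebraMap K (AlgebraicClosure K) (W.b₂ / 4)) - e₁ - e₂ := by
      rw [map_div₀, h.h2, map_ofNat]
      field_simp
      ring
    rw [e]
    exact sub_mem (sub_mem (neg_mem (hK _)) hE1) hE2
  have hlE : l ∈ K⟮e₁⟯ ⊔ K⟮e₂⟯ := by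
    rw [hl]; exact div_mem (sub_mem hE3 hE1) (sub_mem hE2 hE1)
  have hmulint : ∀ z ∈ K⟮e₁⟯ ⊔ K⟮e₂⟯, z ≠ 0 → ∃ k : ℤ, log (w z) = k * u := by
    intro z hz hz0
    rw [hu]
    exact val_log v hvw hz0 (deg_nine h hz)
  obtain ⟨m, hm⟩ : ∃ m : ℕ, Λ = m * u := by
    obtain ⟨k, hk⟩ := hmulint l hlE h0
    rw [hk] at hΛ
    have hk0 : 0 ≤ -k := by
      have h5 : 0 < ((-k : ℤ) : ℝ) * u := by push_cast; linarith
      have h6 : (0 : ℝ) < ((-k : ℤ) : ℝ) := by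
        by_contra hcon
        push Not at hcon
        nlinarith
      exact_mod_cast h6.le
    obtain ⟨m, hm⟩ := Int.eq_ofNat_of_zero_le hk0
    refine ⟨m, ?_⟩
    rw [← hΛ]
    have h7 : (k : ℝ) = -(m : ℝ) := by
      have : k = -(m : ℤ) := by linarith
      rw [this]; push_cast; ring
    rw [h7]; ring
  have hab := roots_wd h
  have hposu : ∀ x : Fin 2 → K, ∃ k : ℕ, pos w Λ (coo ![e₂ - e₁, 0] ![e₁, 1] (vL K x)) =
      k * u := by
    intro x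
    rw [(coo_Psi e₁ e₂ _).resolve_right n21]
    unfold pos
    split_ifs with c0 c1
    · exact ⟨m, hm⟩
    · exact ⟨0, by simp⟩
    · have c0' : w (Psi e₁ e₂ (vL K x) 0) ≠ 0 := (w.pos c0).ne'
      have c1' : w (Psi e₁ e₂ (vL K x) 1) ≠ 0 := (w.pos c1).ne'
      have m0 : Psi e₁ e₂ (vL K x) 0 ∈ K⟮e₁⟯ ⊔ K⟮e₂⟯ := by
        change (vL K x 0 - e₁ * vL K x 1) / (e₂ - e₁) ∈ _
        exact div_mem (sub_mem (hK _) (mul_mem hE1 (hK _))) (sub_mem hE2 hE1)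
      have m1 : Psi e₁ e₂ (vL K x) 1 ∈ K⟮e₁⟯ ⊔ K⟮e₂⟯ := hK _
      obtain ⟨k0, hk0⟩ := hmulint _ m0 c0
      obtain ⟨k1, hk1⟩ := hmulint _ m1 c1
      rw [hk0, hk1, hm]
      refine ⟨(max 0 (min (m : ℤ) (k1 - k0))).toNat, ?_⟩
      have e1 : (((max 0 (min (m : ℤ) (k1 - k0))).toNat : ℕ) : ℝ) =
          ((max 0 (min (m : ℤ) (k1 - k0)) : ℤ) : ℝ) := by
        have := Int.toNat_of_nonneg (le_max_left 0 (min (m : ℤ) (k1 - k0)))
        exact_mod_cast congrArg (fun t : ℤ => (t : ℝ)) this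
      rw [e1]
      push_cast
      rw [max_mul_of_nonneg _ _ hu0.le, min_mul_of_nonneg _ _ hu0.le]
      ring_nf
  refine ⟨fun x => pos w Λ (coo ![e₂ - e₁, 0] ![e₁, 1] (vL K x)), fun x =>
    ⟨pos_nonneg hΛ0.le _, pos_le hΛ0.le _, ?_⟩, ?_, ?_⟩
  · rw [← hu]; exact hposu x
  · rw [← hu]; exact ⟨m, hm⟩
  · intro x y hxy
    have hfib := F4_fib (by norm_num : 1 ≤ 4) (fW_hom W) (fW_rs h) w
    have hc : ((e₂ - e₁) ^ 3)⁻¹ ≠ 0 := inv_ne_zero (pow_ne_zero 3 n21)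
    set X := vL K x with hX
    set Y := vL K y with hY
    have hXY : wd X Y ≠ 0 := wd_vL_ne hxy
    have hex : emb ![e₂ - e₁, 0] ![e₁, 1] (coo ![e₂ - e₁, 0] ![e₁, 1] X) = X := D2.emb_coo hab X
    have hey : emb ![e₂ - e₁, 0] ![e₁, 1] (coo ![e₂ - e₁, 0] ![e₁, 1] Y) = Y := D2.emb_coo hab Y
    have hxy' : wd (coo ![e₂ - e₁, 0] ![e₁, 1] X) (coo ![e₂ - e₁, 0] ![e₁, 1] Y) ≠ 0 := by
      intro h0
      have := D2.wd_emb ![e₂ - e₁, 0] ![e₁, 1] (coo ![e₂ - e₁, 0] ![e₁, 1] X)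
        (coo ![e₂ - e₁, 0] ![e₁, 1] Y)
      rw [hex, hey, h0, mul_zero] at this
      exact hXY this
    have k1 := gg_cj (by norm_num : 2 ≤ 4) hfib hab hxy'
    have k2 := gg_scale (by norm_num : 2 ≤ 4) (fib_cj hfib hab) hc hxy'
    rw [hex, hey] at k1
    rw [← k1, ← k2.2]
    obtain ⟨hfib', -⟩ := k2
    have hev := roots_ev h
    rw [← hl] at hev
    rw [← hev] at hfib' ⊢
    exact gg_leg hw h2w h0 hlt hΛ.symm hfib' hxy'

end K

end Pool.Agent.Y725.LS
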