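import Mathlib
import Pool.Agent.Y725.LS.Mult
import Pool.Agent.TH951.LS.Rel

/-! Energies at the finite places outside `6`. -/

set_option autoImplicit false

open Finset Module NumberField Pool.Agent.H951R3.PB TH951.LS TH951

namespace Pool.Agent.Y725.LS

universe u

/-- two positions which are close -/
theorem neu_close {Λ s t : ℝ} (hΛ : 0 < Λ) (h : |s - t| ≤ Λ / 24) : Λ / 16 ≤ neu Λ s t := by
  unfold neu
  have h1 : (s + t) / 2 - Λ / 4 ≤ (s ^ 2 + t ^ 2) / (2 * Λ) := by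
    rw [le_div_iff₀ (by positivity)]
    nlinarith [sq_nonneg (s - Λ / 2), sq_nonneg (t - Λ / 2)]
  have h2 : max s t ≤ (s + t) / 2 + Λ / 48 := by
    have := abs_le.1 h
    exact max_le (by linarith) (by linarith)
  linarith

/-- the number of pairs in a common cell -/
theorem card_same {n m : ℕ} (hm : 0 < m) (f : Fin n → Fin m) :
    (n : ℝ) ^ 2 / m - n ≤ ∑ p ∈ (univ : Finset (Fin n)).offDiag,
      (if f p.1 = f p.2 then (1 : ℝ) else 0) := by
  classical
  have h1 : ∑ p ∈ (univ : Finset (Fin n)).offDiag, (if f p.1 = f p.2 then (1 : ℝ) else 0) =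
      ∑ i, ∑ j, (if f i = f j then (1 : ℝ) else 0) - n := by
    have h2 : (univ : Finset (Fin n × Fin n)) =
        (univ : Finset (Fin n)).offDiag ∪ (univ : Finset (Fin n)).diag := by
      rw [Finset.union_comm, Finset.diag_union_offDiag, Finset.univ_product_univ]
    have h3 : ∑ p : Fin n × Fin n, (if f p.1 = f p.2 then (1 : ℝ) else 0) =
        ∑ p ∈ (univ : Finset (Fin n)).offDiag, (if f p.1 = f p.2 then (1 : ℝ) else 0) + n := by
      rw [h2, Finset.sum_union (by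
        rw [disjoint_comm]; exact Finset.disjoint_diag_offDiag _)]
      congr 1
      rw [Finset.sum_diag]
      simp
    rw [← Fintype.sum_prod_type', h3]
    ring
  have h4 : ∀ i j, (if f i = f j then (1 : ℝ) else 0) =
      ∑ c, (if f i = c then (1 : ℝ) else 0) * (if f j = c then (1 : ℝ) else 0) := by
    intro i j
    rw [Finset.sum_eq_single (f j)]
    · simp
    · intro c _ hc
      rw [if_neg (show ¬ f j = c from fun h => hc h.symm), mul_zero]
    · simp
  have h5 : ∑ i, ∑ j, (if f i = f j then (1 : ℝ) else 0) =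
      ∑ c, (∑ i, (if f i = c then (1 : ℝ) else 0)) ^ 2 := by
    simp only [h4]
    rw [Finset.sum_congr rfl fun i _ => Finset.sum_comm, Finset.sum_comm]
    refine Finset.sum_congr rfl fun c _ => ?_
    rw [pow_two, Finset.sum_mul_sum]
  have h6 : (∑ c : Fin m, ∑ i, (if f i = c then (1 : ℝ) else 0)) ^ 2 ≤
      (m : ℝ) * ∑ c, (∑ i, (if f i = c then (1 : ℝ) else 0)) ^ 2 := by
    have := sq_sum_le_card_mul_sum_sq (s := (univ : Finset (Fin m)))
      (f := fun c => ∑ i, (if f i = c then (1 : ℝ) else 0))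
    simpa using this
  have h7 : ∑ c : Fin m, ∑ i, (if f i = c then (1 : ℝ) else 0) = n := by
    rw [Finset.sum_comm]
    simp
  rw [h7] at h6
  rw [h1, h5]
  have hm' : (0 : ℝ) < m := by exact_mod_cast hm
  have h8 : (n : ℝ) ^ 2 / m ≤ ∑ c, (∑ i, (if f i = c then (1 : ℝ) else 0)) ^ 2 := by
    rw [div_le_iff₀ hm']
    linarith
  linarith

section K

variable {K : Type u} [Field K] [NumberField K] {W : WeierstrassCurve K} [W.IsElliptic]

/-- the energy at a place of (potentially) multiplicative reduction -/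
theorem mult_energy (v : FinitePlace K) {w : AbsoluteValue (AlgebraicClosure K) ℝ}
    (hvw : Ext v.val w) (h2 : v.val 2 = 1) (hj : 1 < v.val W.j) {n : ℕ}
    (y : Fin n → Fin 2 → K) (hy : ∀ i k, i ≠ k → wd (y i) (y k) ≠ 0) :
    (n : ℝ) ^ 2 * (Real.log (NF.Nm v) / (Nat.factorial 9 : ℕ)) ^ 2 /
        (6 * Real.log (v.val W.j)) - n * (Real.log (v.val W.j) / 6) ≤
      ∑ p ∈ (univ : Finset (Fin n)).offDiag, gg w (ev (fL K (fW W))) 4
        (Real.log (w (rs (fL K (fW W)) 4))) (vL K (y p.1)) (vL K (y p.2)) := by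
  obtain ⟨p, hp, hm, hgg⟩ := mult_pos (W := W) v hvw h2 hj
  have hj0 := Real.log_pos hj
  have hNm : (1 : ℝ) < NF.Nm v := by exact_mod_cast NF.one_lt_Nm v
  have hu : 0 < Real.log (NF.Nm v) / (Nat.factorial 9 : ℕ) := by
    have := Real.log_pos hNm
    positivity
  have h1 := energy (n := n) (Λ := Real.log (v.val W.j) / 2) (by positivity) hu hm
    (fun i => p (y i)) (fun i => (hp (y i)).2.1) (fun i => (hp (y i)).2.2)
  refine le_trans (le_of_eq ?_) (h1.trans (Finset.sum_le_sum fun q hq =>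
    hgg _ _ (hy _ _ (Finset.mem_offDiag.1 hq).2.2)))
  have e1 : 12 * (Real.log (v.val W.j) / 2) = 6 * Real.log (v.val W.j) := by ring
  rw [e1]
  ring

/-- cells at a place of (potentially) multiplicative reduction -/
theorem mult_cell (v : FinitePlace K) {w : AbsoluteValue (AlgebraicClosure K) ℝ}
    (hvw : Ext v.val w) (h2 : v.val 2 = 1) (hj : 1 < v.val W.j) :
    ∃ cell : (Fin 2 → K) → Fin 25, ∀ x y, wd x y ≠ 0 → cell x = cell y →
      Real.log (v.val W.j) / 32 ≤ gg w (ev (fL K (fW W))) 4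
        (Real.log (w (rs (fL K (fW W)) 4))) (vL K x) (vL K y) := by
  obtain ⟨p, hp, hm, hgg⟩ := mult_pos (W := W) v hvw h2 hj
  have hj0 := Real.log_pos hj
  obtain ⟨Λ, hΛ⟩ : ∃ Λ, Λ = Real.log (v.val W.j) / 2 := ⟨_, rfl⟩
  have hΛ0 : 0 < Λ := by rw [hΛ]; positivity
  rw [← hΛ] at hm hgg
  simp only [← hΛ] at hp
  have hfl : ∀ x, ⌊24 * p x / Λ⌋₊ < 25 := by
    intro x
    rw [Nat.floor_lt (by have := (hp x).1; positivity)]
    rw [div_lt_iff₀ hΛ0]
    have := (hp x).2.1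
    push_cast
    linarith
  refine ⟨fun x => ⟨⌊24 * p x / Λ⌋₊, hfl x⟩, fun x y hxy hc => ?_⟩
  have hc' : ⌊24 * p x / Λ⌋₊ = ⌊24 * p y / Λ⌋₊ := by simpa using hc
  have a1 := Nat.floor_le (show 0 ≤ 24 * p x / Λ by have := (hp x).1; positivity)
  have a2 := Nat.lt_floor_add_one (24 * p x / Λ)
  have b1 := Nat.floor_le (show 0 ≤ 24 * p y / Λ by have := (hp y).1; positivity)
  have b2 := Nat.lt_floor_add_one (24 * p y / Λ)
  rw [hc'] at a1 a2
  have h3 : |p x - p y| ≤ Λ / 24 := by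
    rw [le_div_iff₀ hΛ0] at a1 b1
    rw [div_lt_iff₀ hΛ0] at a2 b2
    rw [abs_le]
    constructor <;> nlinarith
  have h4 := (neu_close hΛ0 h3).trans (hgg x y hxy)
  refine le_trans (le_of_eq ?_) h4
  rw [hΛ]; ring

/-- the energy at a bad place outside `6` where `j` is integral -/
theorem add_energy [DecidableEq K] {e₁ e₂ e₃ : AlgebraicClosure K}
    (hR : Roots (algebraMap K (AlgebraicClosure K) W.b₂)
    (algebraMap K (AlgebraicClosure K) W.b₄) (algebraMap K (AlgebraicClosure K) W.b₆)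
    (algebraMap K (AlgebraicClosure K) W.b₈) e₁ e₂ e₃) (v : FinitePlace K)
    {w : AbsoluteValue (AlgebraicClosure K) ℝ} (hvw : Ext v.val w) (h2 : v.val 2 = 1)
    (h3 : v.val 3 = 1) (hvj : v.val W.j ≤ 1) (hbad : ¬ GoodRed v.val W) {n : ℕ}
    (Q : Fin n → W.toAffine.Point) (hQ : ∀ i k, i ≠ k → (Q i).xRep ≠ (Q k).xRep) :
    ((n : ℝ) ^ 2 / 5 - n) * (Real.log (NF.Nm v) / 6) ≤
      ∑ p ∈ (univ : Finset (Fin n)).offDiag, gg w (ev (fL K (fW W))) 4
        (Real.log (w (rs (fL K (fW W)) 4))) (vL K (Q p.1).xRep) (vL K (Q p.2).xRep) := by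
  have hne : e₂ - e₁ ≠ 0 := sub_ne_zero.2 (Ne.symm hR.n12)
  have hΔ : W.Δ ≠ 0 := by rw [← W.coe_Δ']; exact W.Δ'.ne_zero
  have hw := ext_na v w hvw
  have h2w : w (2 : AlgebraicClosure K) = 1 := by
    rw [← map_ofNat (algebraMap K (AlgebraicClosure K)) 2, hvw]; exact h2
  obtain ⟨p, q⟩ := potK hR v hvw h2 hvj
  have hadd : ∀ u : K, v.val W.Δ ≠ v.val u ^ 12 := fun u hu =>
    hbad (goodRed_of (na_val v) h2 h3 W hvj hu)
  obtain ⟨cell, hcell⟩ := gain_add hR v hvw h2 h3 hΔ p q hadd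
  have hfib := F4_fib (by norm_num : 1 ≤ 4) (fW_hom W) (fW_rs hR) w
  have hrsL : rs (fL K (fW W)) 4 ≠ 0 := F4_rs_ne (fW_rs hR)
  have hNm : (1 : ℝ) < NF.Nm v := by exact_mod_cast NF.one_lt_Nm v
  have hL : 0 < Real.log (NF.Nm v) / 6 := by
    have := Real.log_pos hNm
    positivity
  have h1 := card_same (by norm_num : 0 < 5) (fun i => cell (Q i))
  have h4 := mul_le_mul_of_nonneg_right h1 hL.le
  push_cast at h4
  refine h4.trans ?_
  rw [Finset.sum_mul]
  refine Finset.sum_le_sum fun r hr => ?_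
  have hrk := (Finset.mem_offDiag.1 hr).2.2
  have hwd := wd_vL_ne (wd_xRep W (hQ r.1 r.2 hrk))
  split_ifs with hc
  · have h5 := hcell (Q r.1) (Q r.2) (hQ r.1 r.2 hrk) hc
    have h6 := gg_good hw (by norm_num : 2 ≤ 4) hfib (good_leg hw h2w p q)
      (roots_wd hR) (inv_ne_zero (pow_ne_zero 3 hne)) (roots_ev hR) hwd
    rw [(coo_Psi e₁ e₂ _).resolve_right hne, (coo_Psi e₁ e₂ _).resolve_right hne] at h6
    rw [one_mul]
    exact h5.trans h6
  · rw [zero_mul]
    exact potgood_gg (by norm_num) (fW_hom W) hrsL w hw (roots_potGood hR hw h2w p q) hwd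

end K

end Pool.Agent.Y725.LS
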