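import Mathlib
import Pool.Agent.Y725.LS.Loc2

/-! The energy inequality for families of points on an elliptic curve. -/

set_option autoImplicit false

open Height NumberField Module Finset Pool.Agent.H951R3.PB Filter Topology TH951.LS TH951

namespace Pool.Agent.Y725.LS

universe u

/-- a small constant -/
noncomputable def kap : ℝ := 1 / (6 * ((Nat.factorial 9 : ℕ) : ℝ) ^ 2)

theorem kap_pos : 0 < kap := by unfold kap; positivity

theorem kap_le : kap ≤ 1 / 60 := by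
  unfold kap
  have h : (10 : ℝ) ≤ ((Nat.factorial 9 : ℕ) : ℝ) ^ 2 := by norm_num [Nat.factorial]
  rw [div_le_div_iff_of_pos_left one_pos (by positivity) (by norm_num)]
  linarith

/-- the local inequality at a bad place outside `6` -/
theorem loc_mult {n : ℕ} {lN lj θ S : ℝ} (hlN : 0 ≤ lN) (hlj : 0 < lj) 
    (h : (n : ℝ) ^ 2 * (lN / (Nat.factorial 9 : ℕ)) ^ 2 / (6 * lj) - n * (lj / 6) ≤ S) :
    (n : ℝ) ^ 2 * kap * (2 * θ * lN - θ ^ 2 * (lj + lN)) - n * (lj / 6) ≤ S := by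
  refine le_trans ?_ h
  have e1 : (n : ℝ) ^ 2 * (lN / (Nat.factorial 9 : ℕ)) ^ 2 / (6 * lj) =
      (n : ℝ) ^ 2 * kap * (lN ^ 2 / lj) := by
    unfold kap
    have : ((Nat.factorial 9 : ℕ) : ℝ) ≠ 0 := by exact_mod_cast Nat.factorial_ne_zero 9
    field_simp
  rw [e1]
  have e2 : 2 * θ * lN - θ ^ 2 * (lj + lN) ≤ lN ^ 2 / lj := by
    rw [le_div_iff₀ hlj]
    nlinarith [sq_nonneg (lN - θ * lj), mul_nonneg (mul_nonneg (sq_nonneg θ) hlN) hlj.le]
  have e3 : 0 ≤ (n : ℝ) ^ 2 * kap := mul_nonneg (by positivity) kap_pos.le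
  have e4 := mul_le_mul_of_nonneg_left e2 e3
  linarith

theorem loc_add {n : ℕ} (hn : 10 ≤ n) {lN θ S : ℝ} (hlN : 0 ≤ lN)
    (h : ((n : ℝ) ^ 2 / 5 - n) * (lN / 6) ≤ S) :
    (n : ℝ) ^ 2 * kap * (2 * θ * lN - θ ^ 2 * (0 + lN)) - n * (0 / 6) ≤ S := by
  refine le_trans ?_ h
  have hn' : (10 : ℝ) ≤ n := by exact_mod_cast hn
  have e1 : 2 * θ * lN - θ ^ 2 * (0 + lN) ≤ lN := by nlinarith [mul_nonneg (sq_nonneg (θ - 1)) hlN]
  have e3 : 0 ≤ (n : ℝ) ^ 2 * kap := mul_nonneg (by positivity) kap_pos.le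
  have e4 := mul_le_mul_of_nonneg_left e1 e3
  have e5 : (n : ℝ) ^ 2 * kap * lN ≤ (n : ℝ) ^ 2 * (1 / 60) * lN :=
    mul_le_mul_of_nonneg_right (mul_le_mul_of_nonneg_left kap_le (by positivity)) hlN
  have e6 : (n : ℝ) ^ 2 / 10 ≤ (n : ℝ) ^ 2 / 5 - n := by nlinarith
  have e7 := mul_le_mul_of_nonneg_right e6 (show 0 ≤ lN / 6 by positivity)
  rw [zero_div, mul_zero, sub_zero]
  refine e4.trans (e5.trans (le_trans (le_of_eq ?_) e7))
  ring

/-- **The energy inequality.** -/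
theorem energy_ineq (D : ℕ) : ∃ (N₂ : ℕ) (C : ℝ), 0 < C ∧ ∀ M : ℕ, M ≠ 0 → ∃ A₂ : ℝ, 0 ≤ A₂ ∧
    ∀ (K : Type u) [Field K] [NumberField K] [DecidableEq K], finrank ℚ K ≤ D →
    ∀ (W : WeierstrassCurve K) [W.IsElliptic]
      (wf : FinitePlace K → AbsoluteValue (AlgebraicClosure K) ℝ), (∀ v, Ext v.val (wf v)) →
    ∀ ht : W.toAffine.Point → ℝ, (∀ Q : W.toAffine.Point,
      Tendsto (fun n : ℕ => logHeight ((2 ^ n • Q).xRep) / (4 ^ n * finrank ℚ K)) atTop
        (𝓝 (ht Q))) →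
    ∀ (X S S₁ : Finset (FinitePlace K)) (γ : FinitePlace K → ℝ),
      (∀ v ∈ X, ¬ GoodRed v.val W ∧ v.val ((6 * M : ℕ) : K) = 1 ∧ v ∉ S₁) →
      (∀ v, v ∈ S ↔ v.val ((6 * M : ℕ) : K) = 1 ∧ 1 < v.val W.j) →
      (∀ v ∈ S₁, v.val ((6 * M : ℕ) : K) = 1) →
    ∀ k : ℕ, 0 < k → N₂ ≤ 4 ^ k → ∀ Q : Fin (4 ^ k) → W.toAffine.Point,
      (∀ i k, i ≠ k → (Q i).xRep ≠ (Q k).xRep) →
      (∀ v ∈ S₁, ∀ i k, i ≠ k → γ v ≤ gg (wf v) (ev (fL K (fW W))) 4
        (Real.log (wf v (rs (fL K (fW W)) 4))) (vL K (Q i).xRep) (vL K (Q k).xRep)) →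
    ∀ μ : ℝ, 0 ≤ μ → (∀ i, ht (Q i) ≤ μ) → ∀ θ : ℝ,
      ((4 : ℝ) ^ k) ^ 2 * kap * (2 * θ * (∑ v ∈ X, Real.log (NF.Nm v)) -
          θ ^ 2 * (∑ v ∈ S, Real.log (v.val W.j) + ∑ v ∈ X, Real.log (NF.Nm v))) +
        (4 : ℝ) ^ k * ((4 : ℝ) ^ k - 1) * (∑ v ∈ S₁, γ v) ≤
      C * ((4 : ℝ) ^ k * ((4 : ℝ) ^ k + k)) * (finrank ℚ K * μ) +
        C * ((4 : ℝ) ^ k * k) * (∑ v ∈ S, Real.log (v.val W.j) + A₂) := by
  classical
  obtain ⟨_, _, B, _, hB, hloc⟩ := FE.local_facts.{u} 4 (by norm_num)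
  obtain ⟨N₂, η, C₂, hη, hC₂, hdyn⟩ := FE.dyn.{u} 4 (by norm_num) D
  refine ⟨N₂ + 16, 2 + 2 * B / η + 32 * B * C₂ + 1 + 2 * B, by positivity, ?_⟩
  set C := 2 + 2 * B / η + 32 * B * C₂ + 1 + 2 * B with hC
  intro M hM
  obtain ⟨A₂, hA₂, hdyn⟩ := hdyn (6 * M) (by positivity)
  refine ⟨A₂, hA₂, ?_⟩
  intro K _ _ _ hKD W _ wf hwf ht hlim X S S₁ γ hX hS hS₁ k hk hkN Q hQ hgg μ hμ0 hμ θ
  have hd : (0 : ℝ) < finrank ℚ K := by exact_mod_cast (finrank_pos : 0 < finrank ℚ K)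
  obtain ⟨d, hdd⟩ : ∃ d : ℝ, d = finrank ℚ K := ⟨_, rfl⟩
  rw [← hdd] at hd ⊢
  obtain ⟨e₁, e₂, e₃, hR⟩ := roots_closure W
  choose wi hwi using fun v : InfinitePlace K => exists_ext_inf v
  have h6M : ((6 * M : ℕ) : K) ≠ 0 := by
    have : 6 * M ≠ 0 := by positivity
    exact_mod_cast this
  have hhom := fW_hom W
  have hrs := fW_rs hR
  have hrsL : rs (fL K (fW W)) 4 ≠ 0 := F4_rs_ne hrs
  have h6 : ∀ v : FinitePlace K, v.val ((6 * M : ℕ) : K) = 1 → v.val 2 = 1 ∧ v.val 3 = 1 ∧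
      v.val (M : K) = 1 := by
    intro v hv
    have a1 : v.val ((2 : ℕ) : K) ≤ 1 := NF.natCast_le_one v 2
    have a2 : v.val ((3 : ℕ) : K) ≤ 1 := NF.natCast_le_one v 3
    have a3 : v.val (M : K) ≤ 1 := NF.natCast_le_one v M
    have b1 : 0 ≤ v.val ((2 : ℕ) : K) := v.val.nonneg _
    have b2 : 0 ≤ v.val ((3 : ℕ) : K) := v.val.nonneg _
    have b3 : 0 ≤ v.val (M : K) := v.val.nonneg _
    have e1 : ((6 * M : ℕ) : K) = ((2 : ℕ) : K) * ((3 : ℕ) : K) * (M : K) := by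
      push_cast; ring
    rw [e1, map_mul, map_mul] at hv
    have c12 : v.val ((2 : ℕ) : K) * v.val ((3 : ℕ) : K) ≤ 1 := mul_le_one₀ a1 b2 a2
    have c3 : v.val (M : K) = 1 := by
      apply le_antisymm a3; nlinarith
    rw [c3, mul_one] at hv
    have c1 : v.val ((2 : ℕ) : K) = 1 := by
      apply le_antisymm a1; nlinarith
    have c2 : v.val ((3 : ℕ) : K) = 1 := by
      apply le_antisymm a2; nlinarith
    exact ⟨by simpa using c1, by simpa using c2, c3⟩
  set T₀ : Finset (FinitePlace K) := (F4_finite_ne h6M).toFinset with hT₀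
  have hT₀mem : ∀ v, v ∈ T₀ ↔ v.val ((6 * M : ℕ) : K) ≠ 1 := by
    intro v
    rw [hT₀, Set.Finite.mem_toFinset, Set.mem_ofPred_eq]
  set U : Finset (FinitePlace K) := (S ∪ X) ∪ S₁ with hU
  have hU1 : ∀ v ∈ U, v.val ((6 * M : ℕ) : K) = 1 := by
    intro v hv
    rcases Finset.mem_union.1 hv with h | h
    · rcases Finset.mem_union.1 h with h | h
      · exact ((hS v).1 h).1
      · exact (hX v h).2.1
    · exact hS₁ v h
  have hS₁U : S₁ ⊆ U := Finset.subset_union_right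
  set T : Finset (FinitePlace K) := T₀ ∪ S with hT
  have hpot : ∀ v, v ∉ T → PotGoodAt (wf v) 4 (fW W) := by
    intro v hv
    rw [hT, Finset.mem_union, not_or, hT₀mem, not_not, hS] at hv
    obtain ⟨hv1, hv2⟩ := hv
    have hvj : v.val W.j ≤ 1 := by
      by_contra hcon
      push Not at hcon
      exact hv2 ⟨hv1, hcon⟩
    obtain ⟨h2, h3, -⟩ := h6 v hv1
    have h2w : wf v (2 : AlgebraicClosure K) = 1 := by
      rw [← map_ofNat (algebraMap K (AlgebraicClosure K)) 2, hwf v]; exact h2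
    obtain ⟨p, q⟩ := potK hR v (hwf v) h2 hvj
    exact roots_potGood hR (ext_na v _ (hwf v)) h2w p q
  have hcanv : ∀ P : W.toAffine.Point, hcan 4 (fW W) P.xRep = d * ht P := by
    intro P
    have := tendsto_nhds_unique (hlim P) (tendsto_K hR P)
    rw [this, ← hdd]
    field_simp
  set sI : InfinitePlace K → ℝ := fun v => 1 + max (msz 4 (fW W) (wi v)) 0 with hsI
  set sF : FinitePlace K → ℝ := fun v => 1 + max (msz 4 (fW W) (wf v)) 0 with hsF
  set J := ∑ v ∈ S, Real.log (v.val W.j) with hJ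
  have hJ0 : 0 ≤ J := Finset.sum_nonneg fun v hv => (Real.log_pos ((hS v).1 hv).2).le
  set bg := FE.big 4 (fW W) wi wf (T.filter fun v => v.val ((6 * M : ℕ) : K) ≠ 1) with hbg
  have hTf : T.filter (fun v => v.val ((6 * M : ℕ) : K) ≠ 1) = T₀ := by
    ext v
    rw [Finset.mem_filter, hT, Finset.mem_union, hT₀mem]
    constructor
    · exact fun h => h.2
    · exact fun h => ⟨Or.inl h, h⟩
  have hTf' : T.filter (fun v => v.val ((6 * M : ℕ) : K) = 1) = S := by
    ext v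
    rw [Finset.mem_filter, hT, Finset.mem_union, hT₀mem]
    constructor
    · rintro ⟨h | h, h'⟩
      · exact absurd h' h
      · exact h
    · exact fun h => ⟨Or.inr h, ((hS v).1 h).1⟩
  have hoff : ∑ v ∈ S, sF v ≤ 16 * J := by
    rw [hJ, Finset.mul_sum]
    refine Finset.sum_le_sum fun v hv => ?_
    obtain ⟨hv1, hv2⟩ := (hS v).1 hv
    have := sizeK hR v (hwf v) (h6 v hv1).1 hv2
    rwa [max_eq_left (Real.log_pos hv2).le] at this
  have hwd : ∀ i k, i ≠ k → wd (Q i).xRep (Q k).xRep ≠ 0 := fun i k hik =>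
    wd_xRep W (hQ i k hik)
  have hbig : bg ≤ d * μ / η + (C₂ * (16 * J) + A₂) := by
    by_cases hsm : ∀ x ∈ Finset.univ.image (fun i => (Q i).xRep),
        hcan 4 (fW W) x ≤ η * bg
    · have h := hdyn K hKD (fW W) hhom hrs wi hwi wf hwf T hpot
        (Finset.univ.image (fun i => (Q i).xRep)) (by
          rw [Finset.card_image_of_injective _ (fun i k h => by
            by_contra hik
            exact hQ i k hik h), Finset.card_univ, Fintype.card_fin]
          omega) (by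
          intro x hx
          obtain ⟨i, -, rfl⟩ := Finset.mem_image.1 hx
          exact WeierstrassCurve.Affine.Point.xRep_ne_zero (Q i)) (by
          intro x hx y hy hxy
          obtain ⟨i, -, rfl⟩ := Finset.mem_image.1 hx
          obtain ⟨k, -, rfl⟩ := Finset.mem_image.1 hy
          exact hwd i k fun h => hxy (by rw [h])) hsm
      rw [hTf'] at h
      have h1 : 0 ≤ d * μ / η := by positivity
      have h2 := mul_le_mul_of_nonneg_left hoff hC₂.le
      exact h.trans (by linarith)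
    · push Not at hsm
      obtain ⟨x, hx, hxx⟩ := hsm
      obtain ⟨i, -, rfl⟩ := Finset.mem_image.1 hx
      rw [hcanv] at hxx
      have h1 : d * ht (Q i) ≤ d * μ := mul_le_mul_of_nonneg_left (hμ i) hd.le
      have h2 : bg ≤ d * μ / η := by
        rw [le_div_iff₀ hη]
        linarith
      have : 0 ≤ C₂ * (16 * J) + A₂ := by positivity
      linarith
  -- the pairings
  obtain ⟨g, hg⟩ : ∃ g : FinitePlace K → Fin (4 ^ k) → Fin (4 ^ k) → ℝ, ∀ v i k, g v i k =
      gg (wf v) (ev (fL K (fW W))) 4 (Real.log (wf v (rs (fL K (fW W)) 4)))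
        (vL K (Q i).xRep) (vL K (Q k).xRep) := ⟨_, fun _ _ _ => rfl⟩
  obtain ⟨gi, hgi⟩ : ∃ gi : InfinitePlace K → Fin (4 ^ k) → Fin (4 ^ k) → ℝ, ∀ v i k, gi v i k =
      gg (wi v) (ev (fL K (fW W))) 4 (Real.log (wi v (rs (fL K (fW W)) 4)))
        (vL K (Q i).xRep) (vL K (Q k).xRep) := ⟨_, fun _ _ _ => rfl⟩
  have hgT : ∀ v, v ∉ T → ∀ i k, i ≠ k → 0 ≤ g v i k := by
    intro v hv i k hik
    rw [hg]
    exact potgood_gg (by norm_num) hhom hrsL (wf v) (ext_na v _ (hwf v)) (hpot v hv)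
      (wd_vL_ne (hwd i k hik))
  have hglob : ∀ i k, i ≠ k → ∑ v : InfinitePlace K, (v.mult : ℝ) * gi v i k +
      (∑ v ∈ T₀, g v i k + ∑ v ∈ U, g v i k) ≤ d * ht (Q i) + d * ht (Q k) := by
    intro i k hik
    have h := global_le (by norm_num : 2 ≤ 4) hhom hrs wi hwi wf hwf (hwd i k hik) (T₀ ∪ U)
      (fun v hv => by
        have := hgT v (fun h => hv (by
          rw [hT] at h
          rcases Finset.mem_union.1 h with h | h
          · exact Finset.mem_union_left _ h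
          · exact Finset.mem_union_right _ (Finset.mem_union_left _
              (Finset.mem_union_left _ h)))) i k hik
        rwa [hg] at this)
    rw [hcanv, hcanv, Finset.sum_union (by
      rw [Finset.disjoint_left]
      intro v hv hv'
      exact (hT₀mem v).1 hv (hU1 v hv'))] at h
    simp only [← hg, ← hgi] at h
    exact h
  -- the local energies
  obtain ⟨n, hn⟩ : ∃ n : ℝ, n = (4 : ℝ) ^ k := ⟨_, rfl⟩
  have hn0 : 0 < n := by rw [hn]; positivity
  have hcast : (((4 ^ k : ℕ) : ℕ) : ℝ) = n := by rw [hn]; push_cast; rfl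
  have hn10 : 10 ≤ 4 ^ k := by omega
  have hEI : ∀ v : InfinitePlace K, -(n * (2 * k * (B * sI v))) ≤
      ∑ p ∈ (univ : Finset (Fin (4 ^ k))).offDiag, gi v p.1 p.2 := by
    intro v
    have h1 := (hloc K (fW W) hhom hrs v.val (wi v) (hwi v)).1 k (fun i => (Q i).xRep)
      (fun i k hik => hwd i k hik) (fun i => WeierstrassCurve.Affine.Point.xRep_ne_zero (Q i))
    have h2 : ∀ p ∈ (univ : Finset (Fin (4 ^ k))).offDiag,
        FE.pot 4 (fW W) (wi v) (Q p.1).xRep + FE.pot 4 (fW W) (wi v) (Q p.2).xRep -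
          Real.log (v.val (wd (Q p.1).xRep (Q p.2).xRep)) = gi v p.1 p.2 := by
      intro p _
      rw [FE.pot_gg 4 (fW W) (hwi v), hgi]
    rw [Finset.sum_congr rfl h2] at h1
    rw [hn]
    exact_mod_cast h1
  have hEF : ∀ v : FinitePlace K, -(n * (2 * k * (B * sF v))) ≤
      ∑ p ∈ (univ : Finset (Fin (4 ^ k))).offDiag, g v p.1 p.2 := by
    intro v
    have h1 := (hloc K (fW W) hhom hrs v.val (wf v) (hwf v)).1 k (fun i => (Q i).xRep)
      (fun i k hik => hwd i k hik) (fun i => WeierstrassCurve.Affine.Point.xRep_ne_zero (Q i))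
    have h2 : ∀ p ∈ (univ : Finset (Fin (4 ^ k))).offDiag,
        FE.pot 4 (fW W) (wf v) (Q p.1).xRep + FE.pot 4 (fW W) (wf v) (Q p.2).xRep -
          Real.log (v.val (wd (Q p.1).xRep (Q p.2).xRep)) = g v p.1 p.2 := by
      intro p _
      rw [FE.pot_gg 4 (fW W) (hwf v), hg]
    rw [Finset.sum_congr rfl h2] at h1
    rw [hn]
    exact_mod_cast h1
  have hoffcard : (((univ : Finset (Fin (4 ^ k))).offDiag.card : ℕ) : ℝ) = n * (n - 1) := by
    rw [Finset.offDiag_card, Finset.card_univ, Fintype.card_fin,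
      Nat.cast_sub (Nat.le_mul_self _)]
    push_cast
    rw [hn]; ring
  have hE1 : ∀ v ∈ S₁, n * (n - 1) * (γ v) ≤
      ∑ p ∈ (univ : Finset (Fin (4 ^ k))).offDiag, g v p.1 p.2 := by
    intro v hv
    rw [← hoffcard, ← nsmul_eq_mul]
    refine Finset.card_nsmul_le_sum _ _ _ fun p hp => ?_
    rw [hg]
    exact hgg v hv _ _ (Finset.mem_offDiag.1 hp).2.2
  have hlN : ∀ v : FinitePlace K, 0 ≤ Real.log (NF.Nm v) := fun v => by
    have hNm : (1 : ℝ) < NF.Nm v := by exact_mod_cast NF.one_lt_Nm v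
    exact (Real.log_pos hNm).le
  have hE2 : ∀ v ∈ U \ S₁, n ^ 2 * kap * (if v ∈ X then 2 * θ * Real.log (NF.Nm v) -
      θ ^ 2 * (max (Real.log (v.val W.j)) 0 + Real.log (NF.Nm v)) else 0) -
      n * (max (Real.log (v.val W.j)) 0 / 6) ≤
      ∑ p ∈ (univ : Finset (Fin (4 ^ k))).offDiag, g v p.1 p.2 := by
    intro v hv
    obtain ⟨hvU, hvS₁⟩ := Finset.mem_sdiff.1 hv
    have hv6 := hU1 v hvU
    obtain ⟨h2, h3, -⟩ := h6 v hv6
    by_cases hvj : 1 < v.val W.j
    · have h4 := mult_energy (W := W) v (hwf v) h2 hvj (fun i => (Q i).xRep)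
        (fun i k hik => hwd i k hik)
      rw [hcast] at h4
      simp only [← hg] at h4
      have h5 := Real.log_pos hvj
      rw [max_eq_left h5.le]
      split_ifs with hvF
      · have h7 := loc_mult (n := 4 ^ k) (θ := θ) (hlN v) h5 le_rfl
        rw [hcast] at h7
        exact h7.trans h4
      · rw [mul_zero]
        refine le_trans ?_ h4
        have : 0 ≤ n ^ 2 * (Real.log (NF.Nm v) / (Nat.factorial 9 : ℕ)) ^ 2 /
          (6 * Real.log (v.val W.j)) := by positivity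
        linarith
    · push Not at hvj
      have hvF : v ∈ X := by
        rw [hU, Finset.mem_union, Finset.mem_union, hS] at hvU
        rcases hvU with (h | h) | h
        · exact absurd h.2 (not_lt.2 hvj)
        · exact h
        · exact absurd h hvS₁
      rw [if_pos hvF, max_eq_right (Real.log_nonpos (v.val.nonneg _) hvj)]
      have h4 := add_energy hR v (hwf v) h2 h3 hvj (hX v hvF).1 Q hQ
      have h5 := loc_add (n := 4 ^ k) hn10 (θ := θ) (hlN v) h4
      rw [hcast] at h5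
      simp only [hg]
      exact h5
  clear hg hgi
  -- summing up
  have htot : ∑ v : InfinitePlace K, (v.mult : ℝ) * (-(n * (2 * k * (B * sI v)))) +
      (∑ v ∈ T₀, (-(n * (2 * k * (B * sF v)))) +
      (∑ v ∈ U \ S₁, (n ^ 2 * kap * (if v ∈ X then 2 * θ * Real.log (NF.Nm v) -
      θ ^ 2 * (max (Real.log (v.val W.j)) 0 + Real.log (NF.Nm v)) else 0) -
      n * (max (Real.log (v.val W.j)) 0 / 6)) +
      ∑ v ∈ S₁, n * (n - 1) * γ v)) ≤ 2 * n ^ 2 * (d * μ) := by
    have e1 : ∑ p ∈ (univ : Finset (Fin (4 ^ k))).offDiag,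
        (∑ v : InfinitePlace K, (v.mult : ℝ) * gi v p.1 p.2 +
          (∑ v ∈ T₀, g v p.1 p.2 + (∑ v ∈ U \ S₁, g v p.1 p.2 + ∑ v ∈ S₁, g v p.1 p.2))) ≤
        ∑ p ∈ (univ : Finset (Fin (4 ^ k))).offDiag, 2 * (d * μ) := by
      refine Finset.sum_le_sum fun p hp => ?_
      rw [Finset.sum_sdiff hS₁U]
      refine (hglob p.1 p.2 (Finset.mem_offDiag.1 hp).2.2).trans ?_
      have h1 := mul_le_mul_of_nonneg_left (hμ p.1) hd.le
      have h2 := mul_le_mul_of_nonneg_left (hμ p.2) hd.le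
      linarith
    rw [Finset.sum_const, nsmul_eq_mul, hoffcard] at e1
    have e2 : n * (n - 1) * (2 * (d * μ)) ≤ 2 * n ^ 2 * (d * μ) := by
      have : 0 ≤ n * (d * μ) := by positivity
      nlinarith
    refine le_trans ?_ (e1.trans e2)
    rw [Finset.sum_add_distrib, Finset.sum_add_distrib, Finset.sum_add_distrib]
    refine add_le_add ?_ (add_le_add ?_ (add_le_add ?_ ?_))
    · rw [Finset.sum_comm]
      refine Finset.sum_le_sum fun v _ => ?_
      rw [← Finset.mul_sum]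
      exact mul_le_mul_of_nonneg_left (hEI v) (Nat.cast_nonneg _)
    · rw [Finset.sum_comm]
      exact Finset.sum_le_sum fun v _ => hEF v
    · rw [Finset.sum_comm]
      exact Finset.sum_le_sum fun v hv => hE2 v hv
    · rw [Finset.sum_comm]
      exact Finset.sum_le_sum fun v hv => hE1 v hv
  have hbgeq : bg = ∑ v : InfinitePlace K, (v.mult : ℝ) * sI v + ∑ v ∈ T₀, sF v := by
    rw [hbg, hTf]
    rfl
  have hs1 : ∑ v : InfinitePlace K, (v.mult : ℝ) * (-(n * (2 * k * (B * sI v)))) +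
      ∑ v ∈ T₀, (-(n * (2 * k * (B * sF v)))) = -(n * (2 * k * (B * bg))) := by
    rw [hbgeq, mul_add B, mul_add (2 * (k : ℝ)), mul_add n, neg_add]
    congr 1
    · simp only [Finset.mul_sum, ← Finset.sum_neg_distrib]
      refine Finset.sum_congr rfl fun v _ => ?_
      ring
    · simp only [Finset.mul_sum, ← Finset.sum_neg_distrib]
  set x := ∑ v ∈ X, Real.log (NF.Nm v) with hx
  have hXeq : (U \ S₁).filter (fun v => v ∈ X) = X := by
    ext v
    rw [Finset.mem_filter, Finset.mem_sdiff, hU, Finset.mem_union, Finset.mem_union]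
    constructor
    · exact fun h => h.2
    · exact fun h => ⟨⟨Or.inl (Or.inr h), (hX v h).2.2⟩, h⟩
  have hUJ : ∀ R : Finset (FinitePlace K), R ⊆ U →
      ∑ v ∈ R, max (Real.log (v.val W.j)) 0 ≤ J := by
    intro R hR'
    have h1 : ∑ v ∈ R, max (Real.log (v.val W.j)) 0 ≤ ∑ v ∈ U, max (Real.log (v.val W.j)) 0 :=
      Finset.sum_le_sum_of_subset_of_nonneg hR' fun _ _ _ => le_max_right _ _
    refine h1.trans (le_of_eq ?_)
    rw [hJ, ← Finset.sum_subset (show S ⊆ U from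
      (Finset.subset_union_left).trans Finset.subset_union_left)]
    · refine Finset.sum_congr rfl fun v hv => ?_
      rw [max_eq_left (Real.log_pos ((hS v).1 hv).2).le]
    · intro v hv hvS
      have hvj : v.val W.j ≤ 1 := by
        by_contra hcon
        push Not at hcon
        exact hvS ((hS v).2 ⟨hU1 v hv, hcon⟩)
      exact max_eq_right (Real.log_nonpos (v.val.nonneg _) hvj)
  have hs2 : n ^ 2 * kap * (2 * θ * x - θ ^ 2 * (J + x)) - n * (J / 6) ≤
      ∑ v ∈ U \ S₁, (n ^ 2 * kap * (if v ∈ X then 2 * θ * Real.log (NF.Nm v) -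
      θ ^ 2 * (max (Real.log (v.val W.j)) 0 + Real.log (NF.Nm v)) else 0) -
      n * (max (Real.log (v.val W.j)) 0 / 6)) := by
    rw [Finset.sum_sub_distrib, ← Finset.mul_sum, ← Finset.mul_sum, ← Finset.sum_div,
      ← Finset.sum_filter, hXeq, Finset.sum_sub_distrib, ← Finset.mul_sum, ← Finset.mul_sum,
      Finset.sum_add_distrib, ← hx]
    have hXU : X ⊆ U := by
      rw [← hXeq]
      exact (Finset.filter_subset _ _).trans Finset.sdiff_subset
    have h1 := hUJ X hXU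
    have h2 := hUJ (U \ S₁) Finset.sdiff_subset
    have h3 : 0 ≤ n ^ 2 * kap := mul_nonneg (by positivity) kap_pos.le
    have h4 : 2 * θ * x - θ ^ 2 * (J + x) ≤
        2 * θ * x - θ ^ 2 * (∑ v ∈ X, max (Real.log (v.val W.j)) 0 + x) := by
      have := mul_le_mul_of_nonneg_left h1 (sq_nonneg θ)
      linarith
    have h5 := mul_le_mul_of_nonneg_left h4 h3
    have h6 : n * ((∑ v ∈ U \ S₁, max (Real.log (v.val W.j)) 0) / 6) ≤ n * (J / 6) :=
      mul_le_mul_of_nonneg_left (by linarith) hn0.le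
    linarith
  have hs3 : ∑ v ∈ S₁, n * (n - 1) * γ v = n * (n - 1) * (∑ v ∈ S₁, γ v) := by
    rw [Finset.mul_sum]
  rw [← hn]
  have hk1 : (1 : ℝ) ≤ k := by exact_mod_cast hk
  have hmain : n ^ 2 * kap * (2 * θ * x - θ ^ 2 * (J + x)) +
      n * (n - 1) * (∑ v ∈ S₁, γ v) ≤
      2 * n ^ 2 * (d * μ) + n * (2 * k * (B * bg)) + n * (J / 6) := by
    rw [hs3] at htot
    linarith
  have hdμ : 0 ≤ d * μ := by positivity
  have hb1 : n * (2 * k * (B * bg)) ≤
      n * (2 * k * (B * (d * μ / η + (C₂ * (16 * J) + A₂)))) := by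
    have h1 : 0 ≤ n * (2 * k * B) := by positivity
    have := mul_le_mul_of_nonneg_left hbig h1
    linarith
  have hb2 : n * (2 * k * (B * (d * μ / η + (C₂ * (16 * J) + A₂)))) =
      (2 * B / η) * (n * k * (d * μ)) + (32 * B * C₂) * (n * k * J) + 2 * B * (n * k * A₂) := by
    field_simp
    ring
  have hb3 : n * (J / 6) ≤ n * k * J := by
    have : 0 ≤ n * J := by positivity
    nlinarith
  have hBη : 0 ≤ 2 * B / η := by positivity
  have hBC : 0 ≤ 32 * B * C₂ := by positivity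
  have f1 : 2 * n ^ 2 * (d * μ) ≤ C * (n * n * (d * μ)) := by
    have : 0 ≤ n * n * (d * μ) := by positivity
    have h2 : 2 ≤ C := by rw [hC]; linarith
    have := mul_le_mul_of_nonneg_right h2 this
    linarith
  have f2 : (2 * B / η) * (n * k * (d * μ)) ≤ C * (n * k * (d * μ)) := by
    refine mul_le_mul_of_nonneg_right ?_ (by positivity)
    rw [hC]; linarith
  have f3 : (32 * B * C₂) * (n * k * J) + n * k * J ≤ C * (n * k * J) := by
    have : 0 ≤ n * k * J := by positivity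
    have h2 : 32 * B * C₂ + 1 ≤ C := by rw [hC]; linarith
    have := mul_le_mul_of_nonneg_right h2 this
    linarith
  have f4 : 2 * B * (n * k * A₂) ≤ C * (n * k * A₂) := by
    refine mul_le_mul_of_nonneg_right ?_ (by positivity)
    rw [hC]; linarith
  have f5 : C * (n * (n + k)) * (d * μ) + C * (n * k) * (J + A₂) =
      C * (n * n * (d * μ)) + C * (n * k * (d * μ)) + C * (n * k * J) + C * (n * k * A₂) := by
    ring
  rw [f5]
  linarith

end Pool.Agent.Y725.LS
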