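import Mathlib
import Pool.Agent.Y725.LS.EI
import Pool.Agent.TH951.FE.Ht

/-! Families of points on elliptic curves with bounded truncated Szpiro ratio. -/

set_option autoImplicit false

open Height NumberField Module Finset Pool.Agent.H951R3.PB Filter Topology TH951.LS TH951

namespace Pool.Agent.Y725.LS

universe u

/-- a multiplier for the denominator outside `m` -/
theorem exists_bj {L : Type u} [Field L] [NumberField L] (S : Finset (FinitePlace L)) {m : ℕ}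
    (hm : m ≠ 0) {j : L} (hj : j ≠ 0)
    (hS : ∀ v : FinitePlace L, v ∈ S ↔ v.val (m : L) = 1 ∧ 1 < v.val j) :
    ∃ b k : ℕ, 0 < b ∧ Real.log b = ∑ v ∈ S, Real.log (v.val j) ∧
      IsIntegral ℤ ((b : L) * (m : L) ^ k * j) := by
  classical
  choose e he using fun v : FinitePlace L => NF.Nm_pow v hj
  have he' : ∀ v : FinitePlace L, v.val j = (NF.Nm v : ℝ) ^ (e v) := he
  have hN : ∀ v : FinitePlace L, (1 : ℝ) < NF.Nm v := fun v => by exact_mod_cast NF.one_lt_Nm v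
  have hN0 : ∀ v : FinitePlace L, (NF.Nm v : ℝ) ≠ 0 := fun v => by have := hN v; positivity
  have hepos : ∀ v ∈ S, ((e v).toNat : ℤ) = e v := by
    intro v hv
    have h1 := ((hS v).1 hv).2
    rw [he'] at h1
    have h2 : 0 < e v := by
      by_contra hcon
      push Not at hcon
      exact absurd h1 (not_lt.2 (zpow_le_one_of_nonpos₀ (hN v).le hcon))
    omega
  set b : ℕ := ∏ v ∈ S, NF.Nm v ^ (e v).toNat with hb
  have hb0 : 0 < b := Finset.prod_pos fun v _ => by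
    have := NF.one_lt_Nm v
    positivity
  have hlogb : Real.log b = ∑ v ∈ S, Real.log (v.val j) := by
    rw [hb]
    push_cast
    rw [Real.log_prod (fun v _ => pow_ne_zero _ (hN0 v))]
    refine Finset.sum_congr rfl fun v hv => ?_
    rw [he', Real.log_pow, Real.log_zpow]
    congr 1
    have := hepos v hv
    exact_mod_cast congrArg (fun t : ℤ => (t : ℝ)) this
  have hint : ∀ w : FinitePlace L, w (m : L) = 1 → w ((b : L) * j) ≤ 1 := by
    intro w hw
    rw [map_mul]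
    have hwj0 : 0 ≤ w j := apply_nonneg w _
    have hwb0 : 0 ≤ w (b : L) := apply_nonneg w _
    by_cases hwS : w ∈ S
    · have h1 : b = NF.Nm w ^ (e w).toNat * ∏ v ∈ S.erase w, NF.Nm v ^ (e v).toNat := by
        rw [hb]
        exact (Finset.mul_prod_erase S (fun v => NF.Nm v ^ (e v).toNat) hwS).symm
      have h2 : w (b : L) ≤ ((NF.Nm w : ℝ)⁻¹) ^ (e w).toNat := by
        rw [h1, Nat.cast_mul, map_mul, Nat.cast_pow, map_pow]
        have h3 := NF.natCast_le_one w (∏ v ∈ S.erase w, NF.Nm v ^ (e v).toNat)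
        have h4 : w (NF.Nm w : L) ^ (e w).toNat ≤ ((NF.Nm w : ℝ)⁻¹) ^ (e w).toNat :=
          pow_le_pow_left₀ (apply_nonneg w _) (NF.Nm_le w) _
        calc w (NF.Nm w : L) ^ (e w).toNat * w ((∏ v ∈ S.erase w, NF.Nm v ^ (e v).toNat : ℕ) : L)
            ≤ ((NF.Nm w : ℝ)⁻¹) ^ (e w).toNat * 1 :=
              mul_le_mul h4 h3 (apply_nonneg w _) (by have := hN w; positivity)
          _ = _ := mul_one _
      have h5 : w j = (NF.Nm w : ℝ) ^ (e w).toNat := by
        have h6 : w j = (NF.Nm w : ℝ) ^ (e w) := he w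
        rw [h6, ← zpow_natCast, hepos w hwS]
      rw [h5]
      have h7 : (0 : ℝ) < (NF.Nm w : ℝ) ^ (e w).toNat := by have := hN w; positivity
      calc w (b : L) * (NF.Nm w : ℝ) ^ (e w).toNat
          ≤ ((NF.Nm w : ℝ)⁻¹) ^ (e w).toNat * (NF.Nm w : ℝ) ^ (e w).toNat :=
            mul_le_mul_of_nonneg_right h2 h7.le
        _ = 1 := by rw [← mul_pow, inv_mul_cancel₀ (hN0 w), one_pow]
    · have h1 : w j ≤ 1 := by
        by_contra hcon
        push Not at hcon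
        exact hwS ((hS w).2 ⟨hw, hcon⟩)
      exact mul_le_one₀ (NF.natCast_le_one w b) hwj0 h1
  obtain ⟨k, hk⟩ := NF.integral_away hm hint
  refine ⟨b, k, hb0, hlogb, ?_⟩
  have e1 : (b : L) * (m : L) ^ k * j = (m : L) ^ k * ((b : L) * j) := by ring
  rw [e1]
  exact hk

/-- a large power of four -/
theorem exists_pow {a b : ℝ} (ha : 0 < a) (N : ℕ) : ∃ k : ℕ, 0 < k ∧ N ≤ 4 ^ k ∧
    b * k + 1 ≤ (4 : ℝ) ^ k * a := by
  have h1 : Filter.Tendsto (fun k : ℕ => (k : ℝ) / (4 : ℝ) ^ k) Filter.atTop (nhds 0) := by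
    have := tendsto_pow_const_div_const_pow_of_one_lt 1 (show (1 : ℝ) < 4 by norm_num)
    simpa using this
  have h2 : Filter.Tendsto (fun k : ℕ => (1 : ℝ) / (4 : ℝ) ^ k) Filter.atTop (nhds 0) := by
    have := tendsto_pow_const_div_const_pow_of_one_lt 0 (show (1 : ℝ) < 4 by norm_num)
    simpa using this
  have h3 : Filter.Tendsto (fun k : ℕ => b * ((k : ℝ) / (4 : ℝ) ^ k) + 1 / (4 : ℝ) ^ k)
      Filter.atTop (nhds (b * 0 + 0)) := (h1.const_mul b).add h2
  rw [mul_zero, add_zero] at h3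
  obtain ⟨k, hk1, hk2⟩ := ((h3.eventually (gt_mem_nhds ha)).and
    (Filter.eventually_ge_atTop (N + 1))).exists
  refine ⟨k, by omega, ?_, ?_⟩
  · calc N ≤ k := by omega
      _ ≤ 4 ^ k := (Nat.lt_pow_self (by norm_num)).le
  · have hp : (0 : ℝ) < 4 ^ k := by positivity
    have e1 : b * ((k : ℝ) / (4 : ℝ) ^ k) + 1 / (4 : ℝ) ^ k = (b * k + 1) / 4 ^ k := by
      field_simp
    rw [e1, div_lt_iff₀ hp] at hk1
    linarith

theorem num_x {σ' δ₁ κ d H x f : ℝ} (hσ : 0 < σ') (hκ : κ = δ₁ / (4 * σ'))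
    (h3 : δ₁ / 2 * (d * H) ≤ σ' * f) (h4 : f ≤ x + d * (δ₁ / (4 * σ') * H)) :
    κ * (d * H) ≤ x := by
  have h6 := mul_le_mul_of_nonneg_left h4 hσ.le
  have e0 : σ' * (δ₁ / (4 * σ')) = δ₁ / 4 := by field_simp
  have e1 : σ' * (x + d * (δ₁ / (4 * σ') * H)) = σ' * x + (σ' * (δ₁ / (4 * σ'))) * (d * H) := by
    ring
  rw [e0] at e1
  have h7 : δ₁ / 4 * (d * H) ≤ σ' * x := by linarith
  have h8 : σ' * (κ * (d * H)) ≤ σ' * x := by
    have e2 : σ' * (κ * (d * H)) = (σ' * (δ₁ / (4 * σ'))) * (d * H) := by rw [hκ]; ring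
    rw [e2, e0]
    exact h7
  exact le_of_mul_le_mul_left h8 hσ

theorem num_θ {κ θ Y J x : ℝ} (hκ : 0 < κ) (hθ0 : 0 < θ) (hθ : θ = κ / (1 + κ))
    (hx : κ * Y ≤ x) (hJ : J ≤ Y) (hY : 0 ≤ Y) : θ * (κ * Y) ≤ 2 * θ * x - θ ^ 2 * (J + x) := by
  have e1 : θ * (1 + κ) = κ := by rw [hθ]; field_simp
  have e2 : θ * (Y + x) ≤ x := by
    have e3 : θ * (κ * (Y + x)) ≤ θ * (x + κ * x) := by
      refine mul_le_mul_of_nonneg_left ?_ hθ0.le
      rw [mul_add]
      linarith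
    have e4 : θ * (x + κ * x) = κ * x := by
      calc θ * (x + κ * x) = (θ * (1 + κ)) * x := by ring
        _ = κ * x := by rw [e1]
    rw [e4] at e3
    have e5 : κ * (θ * (Y + x)) ≤ κ * x := by linarith
    exact le_of_mul_le_mul_left e5 hκ
  have e6 : θ * (J + x) ≤ x := by
    have := mul_le_mul_of_nonneg_left hJ hθ0.le
    linarith
  have e7 := mul_le_mul_of_nonneg_left e6 hθ0.le
  have e8 := mul_le_mul_of_nonneg_left hx hθ0.le
  have e9 : θ ^ 2 * (J + x) = θ * (θ * (J + x)) := by ring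
  rw [e9]
  linarith

theorem num_1 {n k C a kap θ κ Y m J A₂ z : ℝ} (hn : 0 < n) (hk : 0 < k) (hC : 0 < C)
    (hY : 0 ≤ Y) (hkap : 0 < kap) (ha : a ≤ kap * (θ * κ)) (hka : 2 * C * k + 1 ≤ n * a)
    (hJ : J ≤ Y) (hA : A₂ ≤ Y) (hz : θ * (κ * Y) ≤ z)
    (h : n ^ 2 * kap * z ≤ C * (n * (n + k)) * m + C * (n * k) * (J + A₂)) :
    Y ≤ C * (n + k) * m := by
  have e1 := mul_le_mul_of_nonneg_left hz (show 0 ≤ n ^ 2 * kap by positivity)
  have e2 : C * (n * k) * (J + A₂) ≤ C * (n * k) * (Y + Y) := by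
    refine mul_le_mul_of_nonneg_left ?_ (by positivity)
    linarith
  have e3 := mul_le_mul_of_nonneg_left ha (show 0 ≤ n ^ 2 * Y by positivity)
  have h12 : n * (n * a * Y) ≤ n * (C * (n + k) * m + C * k * (2 * Y)) := by
    linarith
  have h13 := le_of_mul_le_mul_left h12 hn
  have h14 := mul_le_mul_of_nonneg_right hka hY
  linarith

theorem num_2 {n k C a δ₁ Y m J A₂ z w : ℝ} (hn : 2 ≤ n) (hk : 0 < k) (hC : 0 < C)
    (hY : 0 ≤ Y) (hδ : 0 < δ₁) (ha : a ≤ δ₁ / 64) (hka : 2 * C * k + 1 ≤ n * a)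
    (hJ : J ≤ Y) (hA : A₂ ≤ Y) (hz : δ₁ * Y ≤ z) (hw : w = 0)
    (h : w + n * (n - 1) * (z / 32) ≤ C * (n * (n + k)) * m + C * (n * k) * (J + A₂)) :
    Y ≤ C * (n + k) * m := by
  subst hw
  have hn0 : 0 < n := by linarith
  have h1 : n * (n - 1) * (δ₁ * Y / 32) ≤ n * (n - 1) * (z / 32) := by
    refine mul_le_mul_of_nonneg_left ?_ (mul_nonneg hn0.le (by linarith))
    linarith
  have e2 : C * (n * k) * (J + A₂) ≤ C * (n * k) * (Y + Y) := by
    refine mul_le_mul_of_nonneg_left ?_ (by positivity)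
    linarith
  have e3 := mul_le_mul_of_nonneg_left ha (show 0 ≤ n * n * Y by positivity)
  have e4 : n / 2 ≤ n - 1 := by linarith
  have e5 := mul_le_mul_of_nonneg_right e4 (show 0 ≤ n * (δ₁ * Y / 32) by positivity)
  have h12 : n * (n * a * Y) ≤ n * (C * (n + k) * m + C * k * (2 * Y)) := by
    linarith
  have h13 := le_of_mul_le_mul_left h12 hn0
  have h14 := mul_le_mul_of_nonneg_right hka hY
  linarith

theorem num_3 {n k C kap Y m J A₂ x C₄ C₅ : ℝ} (hn : 0 < n) (hk : 0 < k) (hC : 0 < C)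
    (hkap : 0 < kap) (hJ : J ≤ Y) (hA : A₂ ≤ Y) (hY : Y ≤ C₄ * m)
    (hC₅ : C₅ = C₄ + C * (n + k) / (n * kap) + 2 * C * k / (n * kap) * C₄)
    (h : n ^ 2 * kap * (2 * 1 * x - 1 ^ 2 * (J + x)) ≤
      C * (n * (n + k)) * m + C * (n * k) * (J + A₂)) : x ≤ C₅ * m := by
  have e1 : C * (n * k) * (J + A₂) ≤ C * (n * k) * (2 * (C₄ * m)) := by
    refine mul_le_mul_of_nonneg_left ?_ (by positivity)
    linarith
  have e2 : n ^ 2 * kap * (x - J) ≤ C * (n * (n + k)) * m +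
      C * (n * k) * (2 * (C₄ * m)) := by
    have : (2 * 1 * x - 1 ^ 2 * (J + x)) = x - J := by ring
    rw [this] at h
    linarith
  have e3 : x - J ≤ C * (n + k) / (n * kap) * m + 2 * C * k / (n * kap) * C₄ * m := by
    have e4 : 0 < n ^ 2 * kap := by positivity
    have e5 : n ^ 2 * kap * (C * (n + k) / (n * kap) * m +
      2 * C * k / (n * kap) * C₄ * m) = C * (n * (n + k)) * m +
      C * (n * k) * (2 * (C₄ * m)) := by
      field_simp
    rw [← e5] at e2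
    exact le_of_mul_le_mul_left e2 e4
  rw [hC₅, add_mul, add_mul]
  linarith

/-- **Families of points.** -/
theorem family' (D s : ℕ) (σ : ℝ) : ∃ (N : ℕ) (c δ : ℝ), 0 < c ∧ 0 < δ ∧ ∀ M : ℕ, M ≠ 0 →
    ∃ A : ℝ, 0 ≤ A ∧
    ∀ (K : Type u) [Field K] [NumberField K] [DecidableEq K], finrank ℚ K ≤ D →
    ∀ (W : WeierstrassCurve K) [W.IsElliptic] (F T : Finset (FinitePlace K)),
    (∀ v ∈ F, ¬ GoodRed v.val W) → T.card ≤ s →
    (∀ S : Finset (FinitePlace K),
      (∀ v ∈ S, v ∉ T ∧ v.val (M : K) = 1 ∧ 1 < v.val W.j) →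
      ∑ v ∈ S, Real.log (v.val W.j) ≤
        σ * ∑ v ∈ F, Real.log (NF.Nm v) + δ * logHeight₁ W.j) →
    A < logHeight₁ W.j / finrank ℚ K →
    ∀ ht : W.toAffine.Point → ℝ, (∀ Q : W.toAffine.Point,
      Tendsto (fun n : ℕ => logHeight ((2 ^ n • Q).xRep) / (4 ^ n * finrank ℚ K)) atTop
        (𝓝 (ht Q))) →
    ∀ Q : Fin N → W.toAffine.Point, (∀ i k, i ≠ k → (Q i).xRep ≠ (Q k).xRep) →
      ∃ i, c * (logHeight₁ W.j / finrank ℚ K +
        (∑ v ∈ F, Real.log (NF.Nm v)) / finrank ℚ K) ≤ ht (Q i) := by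
  classical
  obtain ⟨N₁, c₁, δ₀, hc₁, hδ₀, hfam⟩ := family₀.{u} D
  obtain ⟨N₂, C, hC, hEI⟩ := energy_ineq.{u} D
  obtain ⟨σ', hσ'⟩ : ∃ σ' : ℝ, σ' = |σ| + 1 := ⟨_, rfl⟩
  have hσ1 : 1 ≤ σ' := by rw [hσ']; linarith [abs_nonneg σ]
  have hσσ : σ ≤ σ' := by rw [hσ']; linarith [le_abs_self σ]
  obtain ⟨δ₁, hδ₁⟩ : ∃ δ₁ : ℝ, δ₁ = δ₀ / (2 * (D + 1)) := ⟨_, rfl⟩
  have hδ₁0 : 0 < δ₁ := by rw [hδ₁]; positivity
  obtain ⟨κ, hκ⟩ : ∃ κ : ℝ, κ = δ₁ / (4 * σ') := ⟨_, rfl⟩
  have hκ0 : 0 < κ := by rw [hκ]; positivity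
  obtain ⟨θ, hθ⟩ : ∃ θ : ℝ, θ = κ / (1 + κ) := ⟨_, rfl⟩
  have hθ0 : 0 < θ := by rw [hθ]; positivity
  have hkap := kap_pos
  -- the number of points
  obtain ⟨a, ha⟩ : ∃ a : ℝ, a = min (kap * (θ * κ)) (δ₁ / 64) := ⟨_, rfl⟩
  have ha0 : 0 < a := by rw [ha]; exact lt_min (by positivity) (by positivity)
  obtain ⟨k, hk0, hkN, hka⟩ := exists_pow (b := 2 * C) ha0 (N₂ + 2)
  obtain ⟨n, hn⟩ : ∃ n : ℝ, n = (4 : ℝ) ^ k := ⟨_, rfl⟩
  have hn0 : 0 < n := by rw [hn]; positivity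
  have hn1 : 1 ≤ n := by rw [hn]; exact one_le_pow₀ (by norm_num)
  rw [← hn] at hka
  have hk1 : (1 : ℝ) ≤ k := by exact_mod_cast hk0
  have hn2 : 2 ≤ n := by
    have h1 : (2 : ℕ) ≤ 4 ^ k := by omega
    rw [hn]; exact_mod_cast h1
  obtain ⟨C₄, hC₄⟩ : ∃ C₄ : ℝ, C₄ = C * (n + k) + 1 / c₁ := ⟨_, rfl⟩
  have hC₄0 : 0 < C₄ := by rw [hC₄]; positivity
  obtain ⟨C₅, hC₅⟩ : ∃ C₅ : ℝ, C₅ = C₄ + C * (n + k) / (n * kap) + 2 * C * k / (n * kap) * C₄ :=
    ⟨_, rfl⟩
  have hC₅0 : 0 < C₅ := by rw [hC₅]; positivity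
  refine ⟨N₁ + 25 ^ s * 4 ^ k, 1 / (2 * C₄ + C₅), δ₁ / 2, by positivity, by positivity, ?_⟩
  intro M hM
  obtain ⟨A₁, hA₁, hfam⟩ := hfam (6 * M) (by positivity)
  obtain ⟨A₂, hA₂, hEI⟩ := hEI M hM
  have hlog6 : 0 ≤ Real.log ((6 * M : ℕ) : ℝ) := Real.log_natCast_nonneg _
  refine ⟨A₁ + A₂ + Real.log ((6 * M : ℕ) : ℝ) * (1 + 4 * σ' / δ₁), by positivity, ?_⟩
  intro K _ _ _ hKD W _ F T hF hT hSz hAj ht hlim Q hQ
  have hd : (0 : ℝ) < finrank ℚ K := by exact_mod_cast (finrank_pos : 0 < finrank ℚ K)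
  have hd1 : (1 : ℝ) ≤ finrank ℚ K := by exact_mod_cast (finrank_pos : 0 < finrank ℚ K)
  have hdD : (finrank ℚ K : ℝ) ≤ D := by exact_mod_cast hKD
  obtain ⟨d, hdd⟩ : ∃ d : ℝ, d = finrank ℚ K := ⟨_, rfl⟩
  obtain ⟨H, hH⟩ : ∃ H : ℝ, H = logHeight₁ W.j / finrank ℚ K := ⟨_, rfl⟩
  have hdH : logHeight₁ W.j = d * H := by rw [hH, hdd]; field_simp
  have hterm : 0 ≤ Real.log ((6 * M : ℕ) : ℝ) * (4 * σ' / δ₁) := by positivity
  have hH0 : 0 < H := by rw [hH]; nlinarith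
  have hHA₂ : A₂ ≤ H := by rw [hH]; linarith
  have hHA₁ : A₁ < H := by rw [hH]; linarith
  have hH6 : Real.log ((6 * M : ℕ) : ℝ) ≤ H := by rw [hH]; linarith
  have hH6' : Real.log ((6 * M : ℕ) : ℝ) ≤ δ₁ / (4 * σ') * H := by
    have h1 : Real.log ((6 * M : ℕ) : ℝ) * (4 * σ' / δ₁) ≤ H := by rw [hH]; linarith
    have h2 := mul_le_mul_of_nonneg_left h1 (show 0 ≤ δ₁ / (4 * σ') by positivity)
    refine le_trans (le_of_eq ?_) h2
    field_simp
  have h2564 : 4 ^ k ≤ N₁ + 25 ^ s * 4 ^ k := by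
    have : 4 ^ k ≤ 25 ^ s * 4 ^ k := Nat.le_mul_of_pos_left _ (by positivity)
    omega
  haveI : Nonempty (Fin (N₁ + 25 ^ s * 4 ^ k)) := ⟨⟨0, by
    have : 0 < 4 ^ k := by positivity
    omega⟩⟩
  obtain ⟨i₀, hi₀⟩ := Finite.exists_max (fun i => ht (Q i))
  obtain ⟨μ, hμ⟩ : ∃ μ : ℝ, μ = ht (Q i₀) := ⟨_, rfl⟩
  simp only [← hμ] at hi₀
  have hμ0 : 0 ≤ μ := by
    rw [hμ]
    refine ge_of_tendsto' (hlim (Q i₀)) fun n => ?_
    have : 0 ≤ logHeight ((2 ^ n • Q i₀).xRep) := by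
      rw [logHeight_eq_log_mulHeight]
      exact Real.log_nonneg (one_le_mulHeight _)
    positivity
  refine ⟨i₀, ?_⟩
  rw [← hH, ← hμ, ← hdd]
  rw [← hdd] at hd hd1 hdD
  choose wf hwf using fun v : FinitePlace K => exists_ext_fin v
  have hj0 : W.j ≠ 0 := by
    intro h
    rw [hH, h] at hH0
    simp at hH0
  have h6M : ((6 * M : ℕ) : K) ≠ 0 := by
    have : 6 * M ≠ 0 := by positivity
    exact_mod_cast this
  have h6 : ∀ v : FinitePlace K, v.val ((6 * M : ℕ) : K) = 1 → v.val 2 = 1 ∧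
      v.val (M : K) = 1 := by
    intro v hv
    have a1 : v.val ((2 : ℕ) : K) ≤ 1 := NF.natCast_le_one v 2
    have a2 : v.val ((3 : ℕ) : K) ≤ 1 := NF.natCast_le_one v 3
    have a3 : v.val (M : K) ≤ 1 := NF.natCast_le_one v M
    have b1 : 0 ≤ v.val ((2 : ℕ) : K) := v.val.nonneg _
    have b2 : 0 ≤ v.val ((3 : ℕ) : K) := v.val.nonneg _
    have b3 : 0 ≤ v.val (M : K) := v.val.nonneg _
    have e1 : ((6 * M : ℕ) : K) = ((2 : ℕ) : K) * ((3 : ℕ) : K) * (M : K) := by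
      push_cast; ring
    rw [e1, map_mul, map_mul] at hv
    have c12 : v.val ((2 : ℕ) : K) * v.val ((3 : ℕ) : K) ≤ 1 := mul_le_one₀ a1 b2 a2
    have c3 : v.val (M : K) = 1 := by
      apply le_antisymm a3; nlinarith
    rw [c3, mul_one] at hv
    have c1 : v.val ((2 : ℕ) : K) = 1 := by
      apply le_antisymm a1; nlinarith
    exact ⟨by simpa using c1, c3⟩
  set S : Finset (FinitePlace K) :=
    (F4_finite_ne hj0).toFinset.filter (fun v => v.val ((6 * M : ℕ) : K) = 1 ∧ 1 < v.val W.j)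
    with hSd
  have hS : ∀ v, v ∈ S ↔ v.val ((6 * M : ℕ) : K) = 1 ∧ 1 < v.val W.j := by
    intro v
    rw [hSd, Finset.mem_filter, Set.Finite.mem_toFinset, Set.mem_ofPred_eq]
    constructor
    · exact fun h => h.2
    · exact fun h => ⟨h.2.ne', h⟩
  have hlj : ∀ v ∈ S, 0 < Real.log (v.val W.j) := fun v hv => Real.log_pos ((hS v).1 hv).2
  obtain ⟨J, hJ⟩ : ∃ J : ℝ, J = ∑ v ∈ S, Real.log (v.val W.j) := ⟨_, rfl⟩
  have hJH : J ≤ d * H := by
    rw [← hdH, hJ]
    refine le_trans ?_ (FE.posLog_sum_le W.j S)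
    have h1 : 0 ≤ ∑ v : InfinitePlace K, (v.mult : ℝ) * Real.posLog (v.val W.j) :=
      Finset.sum_nonneg fun v _ => mul_nonneg (Nat.cast_nonneg _) Real.posLog_nonneg
    have h2 : ∑ v ∈ S, Real.log (v.val W.j) ≤ ∑ v ∈ S, Real.posLog (v.val W.j) :=
      Finset.sum_le_sum fun v _ => le_max_right _ _
    linarith
  have hdμ : 0 ≤ d * μ := by positivity
  have hdHp : 0 < d * H := by positivity
  have hA2H : A₂ ≤ d * H := hHA₂.trans (le_mul_of_one_le_left hH0.le hd1)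
  have haa : a ≤ kap * (θ * κ) ∧ a ≤ δ₁ / 64 := by
    rw [ha]; exact ⟨min_le_left _ _, min_le_right _ _⟩
  -- conclusions from the energy inequality
  have hHμ : H ≤ C₄ * μ := by
    have hfin : (d * H ≤ C * (n + k) * (d * μ)) → H ≤ C₄ * μ := by
      intro h
      have h1 : d * H ≤ d * (C * (n + k) * μ) := by linarith
      have h2 := le_of_mul_le_mul_left h1 hd
      have h3 : 0 ≤ 1 / c₁ * μ := by positivity
      rw [hC₄, add_mul]
      linarith
    by_cases hJO : δ₁ * (d * H) ≤ ∑ v ∈ S.filter (fun v => v ∉ T), Real.log (v.val W.j)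
    · -- many bad places
      apply hfin
      have h1 := hSz (S.filter (fun v => v ∉ T)) (fun v hv => by
        obtain ⟨h2, h3⟩ := Finset.mem_filter.1 hv
        obtain ⟨h4, h5⟩ := (hS v).1 h2
        exact ⟨h3, (h6 v h4).2, h5⟩)
      have hF0 : 0 ≤ ∑ v ∈ F, Real.log (NF.Nm v) := Finset.sum_nonneg fun v _ => by
        have : (1 : ℝ) < NF.Nm v := by exact_mod_cast NF.one_lt_Nm v
        exact (Real.log_pos this).le
      have h2 : σ * ∑ v ∈ F, Real.log (NF.Nm v) ≤ σ' * ∑ v ∈ F, Real.log (NF.Nm v) :=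
        mul_le_mul_of_nonneg_right hσσ hF0
      rw [hdH] at h1
      have h3 : δ₁ / 2 * (d * H) ≤ σ' * ∑ v ∈ F, Real.log (NF.Nm v) := by linarith
      set X := F.filter (fun v => v.val ((6 * M : ℕ) : K) = 1) with hX
      obtain ⟨x, hx⟩ : ∃ x : ℝ, x = ∑ v ∈ X, Real.log (NF.Nm v) := ⟨_, rfl⟩
      have h4 : ∑ v ∈ F, Real.log (NF.Nm v) ≤ x + d * (δ₁ / (4 * σ') * H) := by
        rw [← Finset.sum_filter_add_sum_filter_not F (fun v => v.val ((6 * M : ℕ) : K) = 1), ← hX,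
          ← hx]
        refine add_le_add le_rfl ?_
        have := sum_Nm_le (K := K) (m := 6 * M) (by positivity)
          (F.filter (fun v => ¬ v.val ((6 * M : ℕ) : K) = 1))
          (fun v hv => (Finset.mem_filter.1 hv).2)
        rw [← hdd] at this
        exact this.trans (mul_le_mul_of_nonneg_left hH6' hd.le)
      have h5 : κ * (d * H) ≤ x := num_x (by linarith) hκ h3 h4
      have hQ' := hEI K hKD W wf hwf ht hlim X S ∅ (fun _ => 0) (fun v hv => by
          obtain ⟨h6, h7⟩ := Finset.mem_filter.1 hv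
          exact ⟨hF v h6, h7, Finset.notMem_empty v⟩) hS
        (fun v hv => absurd hv (Finset.notMem_empty v)) k hk0
        (by omega) (fun i => Q (Fin.castLE h2564 i)) (fun i k hik => hQ _ _ (fun h => hik (by
          exact Fin.castLE_injective _ h))) (fun v hv => absurd hv (Finset.notMem_empty v)) μ hμ0
        (fun i => hi₀ _) θ
      rw [Finset.sum_empty, mul_zero, add_zero, ← hn, ← hJ, ← hx, ← hdd] at hQ'
      exact num_1 hn0 (by linarith) hC hdHp.le hkap haa.1 hka hJH hA2H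
        (num_θ hκ0 hθ0 hθ h5 hJH hdHp.le) hQ'
    · push Not at hJO
      by_cases hJT : δ₁ * (d * H) ≤ ∑ v ∈ S.filter (fun v => v ∈ T), Real.log (v.val W.j)
      · -- the places of `T`
        apply hfin
        set S₁ := S.filter (fun v => v ∈ T) with hS₁
        have hS₁S : S₁ ⊆ S := Finset.filter_subset _ _
        have hS₁T : S₁.card ≤ s := by
          refine (Finset.card_le_card ?_).trans hT
          intro v hv
          exact (Finset.mem_filter.1 hv).2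
        have hcell : ∀ v ∈ S₁, ∃ cell : (Fin 2 → K) → Fin 25, ∀ x y, wd x y ≠ 0 →
            cell x = cell y → Real.log (v.val W.j) / 32 ≤ gg (wf v) (ev (fL K (fW W))) 4
            (Real.log (wf v (rs (fL K (fW W)) 4))) (vL K x) (vL K y) := by
          intro v hv
          obtain ⟨h1, h2⟩ := (hS v).1 (hS₁S hv)
          exact mult_cell v (hwf v) (h6 v h1).1 h2
        choose! cell hcell using hcell
        -- pigeonhole
        obtain ⟨f, hf⟩ := Fintype.exists_le_card_fiber_of_mul_le_card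
          (fun (i : Fin (N₁ + 25 ^ s * 4 ^ k)) (v : S₁) => cell v.1 (Q i).xRep) (n := 4 ^ k) (by
            rw [Fintype.card_fun, Fintype.card_fin, Fintype.card_coe, Fintype.card_fin]
            have : 25 ^ S₁.card ≤ 25 ^ s := Nat.pow_le_pow_right (by norm_num) hS₁T
            have := Nat.mul_le_mul_right (4 ^ k) this
            omega)
        obtain ⟨Y, hYX, hYc⟩ := Finset.exists_subset_card_eq hf
        let e : Fin (4 ^ k) ≃ Y := (Finset.equivFinOfCardEq hYc).symm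
        have he : ∀ i, ∀ v, ∀ hv : v ∈ S₁, cell v (Q (e i).1).xRep = f ⟨v, hv⟩ := by
          intro i v hv
          have := (Finset.mem_filter.1 (hYX (e i).2)).2
          exact congrFun this ⟨v, hv⟩
        have hQd : ∀ i k : Fin (4 ^ k), i ≠ k → (Q (e i).1).xRep ≠ (Q (e k).1).xRep := by
          intro i k hik
          apply hQ
          intro h
          exact hik (e.injective (Subtype.ext h))
        have hQ' := hEI K hKD W wf hwf ht hlim ∅ S S₁ (fun v => Real.log (v.val W.j) / 32)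
          (fun v hv => absurd hv (Finset.notMem_empty v)) hS
          (fun v hv => ((hS v).1 (hS₁S hv)).1) k hk0
          (by omega) (fun i => Q (e i).1) hQd (fun v hv i k hik => by
            refine hcell v hv _ _ (wd_xRep W (hQd i k hik)) ?_
            rw [he i v hv, he k v hv]) μ hμ0
          (fun i => hi₀ _) 0
        rw [Finset.sum_empty, ← hn, ← hJ, ← hdd, ← Finset.sum_div] at hQ'
        exact num_2 hn2 (by linarith) hC hdHp.le hδ₁0 haa.2 hka hJH hA2H hJT (by ring) hQ'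
      · -- `j` is nearly integral
        push Not at hJT
        have hJs : J < δ₀ * H := by
          have e1 : J = ∑ v ∈ S.filter (fun v => v ∈ T), Real.log (v.val W.j) +
              ∑ v ∈ S.filter (fun v => v ∉ T), Real.log (v.val W.j) := by
            rw [hJ, Finset.sum_filter_add_sum_filter_not]
          have e2 : J < 2 * δ₁ * (d * H) := by rw [e1]; linarith
          refine e2.trans_le ?_
          have e3 : 2 * δ₁ * d ≤ δ₀ := by
            rw [hδ₁]
            have e4 : 2 * (δ₀ / (2 * ((D : ℝ) + 1))) * d = δ₀ * (d / (D + 1)) := by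
              field_simp
            rw [e4]
            have e5 : d / ((D : ℝ) + 1) ≤ 1 := by
              rw [div_le_one (by positivity)]
              linarith
            nlinarith
          have := mul_le_mul_of_nonneg_right e3 hH0.le
          linarith
        obtain ⟨b, l, hb, hlb, hint⟩ := exists_bj S (by positivity : 6 * M ≠ 0) hj0 hS
        obtain ⟨i, hi⟩ := hfam K hKD W b l hb hint (by
            rw [hlb, ← hJ, ← hH]
            exact hJs.le) (by rw [← hH]; exact hHA₁) ht hlim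
          (fun i : Fin N₁ => Q (Fin.castLE (by omega) i)) (fun i k hik => hQ _ _ (fun h => hik (by
            exact Fin.castLE_injective _ h)))
        rw [← hH] at hi
        have h1 := hi.trans (hi₀ _)
        have h2 : H ≤ 1 / c₁ * μ := by
          rw [one_div, ← div_eq_inv_mul, le_div_iff₀ hc₁]
          linarith
        have h3 : 0 ≤ C * (n + k) * μ := by positivity
        rw [hC₄, add_mul]
        linarith
  -- all bad places
  have hX : ∑ v ∈ F, Real.log (NF.Nm v) ≤ C₅ * (d * μ) + d * (C₄ * μ) := by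
    set X := F.filter (fun v => v.val ((6 * M : ℕ) : K) = 1) with hX
    obtain ⟨x, hx⟩ : ∃ x : ℝ, x = ∑ v ∈ X, Real.log (NF.Nm v) := ⟨_, rfl⟩
    rw [← Finset.sum_filter_add_sum_filter_not F (fun v => v.val ((6 * M : ℕ) : K) = 1), ← hX,
      ← hx]
    have hQ' := hEI K hKD W wf hwf ht hlim X S ∅ (fun _ => 0) (fun v hv => by
        obtain ⟨h6, h7⟩ := Finset.mem_filter.1 hv
        exact ⟨hF v h6, h7, Finset.notMem_empty v⟩) hS
      (fun v hv => absurd hv (Finset.notMem_empty v)) k hk0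
      (by omega) (fun i => Q (Fin.castLE h2564 i)) (fun i k hik => hQ _ _ (fun h => hik (by
        exact Fin.castLE_injective _ h))) (fun v hv => absurd hv (Finset.notMem_empty v)) μ hμ0
      (fun i => hi₀ _) 1
    rw [Finset.sum_empty, mul_zero, add_zero, ← hn, ← hJ, ← hx, ← hdd] at hQ'
    refine add_le_add ?_ ?_
    · exact num_3 hn0 (by linarith) hC hkap hJH hA2H (by
        have := mul_le_mul_of_nonneg_left hHμ hd.le
        linarith) hC₅ hQ'
    · have := sum_Nm_le (K := K) (m := 6 * M) (by positivity)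
        (F.filter (fun v => ¬ v.val ((6 * M : ℕ) : K) = 1))
        (fun v hv => (Finset.mem_filter.1 hv).2)
      rw [← hdd] at this
      refine this.trans ?_
      exact mul_le_mul_of_nonneg_left (hH6.trans hHμ) hd.le
  have hfin : H + (∑ v ∈ F, Real.log (NF.Nm v)) / d ≤ (2 * C₄ + C₅) * μ := by
    have e1 : (∑ v ∈ F, Real.log (NF.Nm v)) / d ≤ C₅ * μ + C₄ * μ := by
      rw [div_le_iff₀ hd]
      linarith
    have e2 : (2 * C₄ + C₅) * μ = C₄ * μ + (C₅ * μ + C₄ * μ) := by ring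
    rw [e2]
    linarith
  rw [one_div_mul_eq_div, div_le_iff₀ (by positivity)]
  linarith

end Pool.Agent.Y725.LS
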