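import Mathlib
import Pool.Agent.Y725.LS.Fam2
import Pool.Agent.TH910.LS.VarGen

/-! Multiples of a point in the kernel of reduction at many places. -/

set_option autoImplicit false

open Height NumberField Module Finset Pool.Agent.H951R3.PB Filter Topology TH951.LS TH951
open WeierstrassCurve

namespace Pool.Agent.Y725.LS

open Pool.Agent.TH942 Pool.Agent.TH910.LS

section local_

variable {K : Type} [Field K] [CharZero K] [DecidableEq K] {a b : K} {w : AbsoluteValue K ℝ}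

/-- doubling a point near the origin of the group -/
theorem dbl_far (hw : IsNonarchimedean w) (h2 : w 2 = 1) (ha : w a ≤ 1) (hb : w b ≤ 1)
    (Q : SPt a b) (h1 : Q.xRep 1 = 1) (hx : 1 < w (Q.xRep 0)) :
    (2 • Q).xRep 1 = 1 ∧ w (4 * (2 • Q).xRep 0 - Q.xRep 0) < w (Q.xRep 0) := by
  obtain ⟨c, hc, hdup⟩ := dup (sw a b) Q
  have h4 : w (4 : K) = 1 := by rw [show (4 : K) = 2 * 2 by norm_num, map_mul, h2, one_mul]
  have hnat : ∀ n : ℕ, w (n : K) ≤ 1 := fun n => hw.apply_natCast_le_one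
  obtain ⟨x, hxd⟩ : ∃ x, x = Q.xRep 0 := ⟨_, rfl⟩
  obtain ⟨X, hX⟩ : ∃ X, X = (2 • Q).xRep 0 := ⟨_, rfl⟩
  obtain ⟨Y, hY⟩ : ∃ Y, Y = (2 • Q).xRep 1 := ⟨_, rfl⟩
  rw [← hxd] at hx ⊢
  rw [← hX, ← hY]
  have e0 := congrFun hdup 0
  have e1 := congrFun hdup 1
  simp only [dW, Matrix.cons_val_zero, Matrix.cons_val_one, Pi.smul_apply, smul_eq_mul, h1,
    ← hxd, ← hX, ← hY, one_pow, mul_one] at e0 e1
  have b2 : (sw a b).b₂ = 0 := by simp [WeierstrassCurve.b₂, sw]
  have b4 : (sw a b).b₄ = 2 * a := by simp [WeierstrassCurve.b₄, sw]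
  have b6 : (sw a b).b₆ = 4 * b := by simp [WeierstrassCurve.b₆, sw]
  have b8 : (sw a b).b₈ = -a ^ 2 := by simp [WeierstrassCurve.b₈, sw]
  rw [b4, b6, b8] at e0
  rw [b2, b4, b6] at e1
  have hx0 : 0 < w x := by linarith
  -- the cubic
  have hcub : w (x ^ 3 + (a * x + b)) = w x ^ 3 := by
    have h5 : w (a * x + b) < w (x ^ 3) := by
      have h6 : w (a * x + b) ≤ w x := by
        refine (hw _ _).trans (max_le ?_ (hb.trans hx.le))
        rw [map_mul]
        exact mul_le_of_le_one_left hx0.le ha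
      rw [map_pow]
      have : w x < w x ^ 3 := by nlinarith [mul_pos (sub_pos.2 hx) (sub_pos.2 hx)]
      linarith
    have h7 : w (x ^ 3 - -(a * x + b)) = w (x ^ 3) := na_eq' hw (by
      rw [AbsoluteValue.map_neg]; exact h5)
    rw [sub_neg_eq_add] at h7
    rw [h7, map_pow]
  have hcub0 : x ^ 3 + (a * x + b) ≠ 0 := by
    intro h
    rw [h, map_zero] at hcub
    have : 0 < w x ^ 3 := by positivity
    linarith
  have e1' : 4 * (x ^ 3 + (a * x + b)) = c * Y := by rw [← e1]; ring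
  have hY0 : Y ≠ 0 := by
    rintro rfl
    rw [mul_zero] at e1'
    exact hcub0 ((mul_eq_zero.1 e1').resolve_left (by norm_num))
  have hY1 : Y = 1 := by
    rw [hY] at hY0 ⊢
    rcases h : (2 • Q) with _ | ⟨u, z, hu⟩
    · rw [h] at hY0
      exact absurd (by
        have : (Affine.Point.zero : SPt a b).xRep = ![1, 0] := rfl
        rw [this]; rfl) hY0
    · rfl
  refine ⟨hY1, ?_⟩
  rw [hY1, mul_one] at e1'
  have h8 : (4 * X - x) * (x ^ 3 + (a * x + b)) = a ^ 2 - (3 * (a * x ^ 2) + 9 * (b * x)) := by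
    have : c * X = x ^ 4 - 2 * a * x ^ 2 - 2 * (4 * b) * x - -a ^ 2 := e0.symm
    rw [← e1'] at this
    linear_combination this
  have h9 : w (a ^ 2 - (3 * (a * x ^ 2) + 9 * (b * x))) ≤ w x ^ 2 := by
    have hx1 : w x ≤ w x ^ 2 := by nlinarith
    have hx2 : 1 ≤ w x ^ 2 := by nlinarith
    refine (na_le hw _ _).trans (max_le ?_ ((hw _ _).trans (max_le ?_ ?_)))
    · rw [map_pow]
      exact (pow_le_one₀ (w.nonneg _) ha).trans hx2
    · rw [map_mul, map_mul, map_pow]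
      have h3 : w (3 : K) ≤ 1 := by exact_mod_cast hnat 3
      calc w 3 * (w a * w x ^ 2) ≤ 1 * (1 * w x ^ 2) := by gcongr
        _ = w x ^ 2 := by ring
    · rw [map_mul, map_mul]
      have h3 : w (9 : K) ≤ 1 := by exact_mod_cast hnat 9
      calc w 9 * (w b * w x) ≤ 1 * (1 * w x) := by gcongr
        _ ≤ w x ^ 2 := by linarith
  rw [← h8, map_mul, hcub] at h9
  by_contra hcon
  push Not at hcon
  have h10 : w x * w x ^ 3 ≤ w x ^ 2 :=
    (mul_le_mul_of_nonneg_right hcon (by positivity)).trans h9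
  have h11 : 1 < w x ^ 2 := by nlinarith
  nlinarith [mul_pos hx0 hx0]

/-- iterated doubling -/
theorem iter_far (hw : IsNonarchimedean w) (h2 : w 2 = 1) (ha : w a ≤ 1) (hb : w b ≤ 1)
    (R : SPt a b) (h1 : R.xRep 1 = 1) (hx : 1 < w (R.xRep 0)) (i : ℕ) :
    (2 ^ i • R).xRep 1 = 1 ∧ w ((2 ^ i • R).xRep 0) = w (R.xRep 0) ∧
      w (4 ^ i * (2 ^ i • R).xRep 0 - R.xRep 0) < w (R.xRep 0) := by
  have h4 : w (4 : K) = 1 := by rw [show (4 : K) = 2 * 2 by norm_num, map_mul, h2, one_mul]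
  have hx0 : 0 < w (R.xRep 0) := by linarith
  induction i with
  | zero =>
    refine ⟨by simpa using h1, by simp, ?_⟩
    simpa using hx0
  | succ i ih =>
    obtain ⟨i1, i2, i3⟩ := ih
    have e1 : (2 ^ (i + 1) : ℕ) • R = 2 • ((2 ^ i : ℕ) • R) := by
      rw [pow_succ', mul_nsmul']
    rw [e1]
    obtain ⟨d1, d2⟩ := dbl_far hw h2 ha hb (2 ^ i • R) i1 (by rw [i2]; exact hx)
    set X := (2 • (2 ^ i : ℕ) • R).xRep 0 with hX
    set Z := ((2 ^ i : ℕ) • R).xRep 0 with hZ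
    rw [i2] at d2
    refine ⟨d1, ?_, ?_⟩
    · have h5 : w (Z - -(4 * X - Z)) = w Z := na_eq' hw (by
        rw [AbsoluteValue.map_neg, i2]; exact d2)
      have h6 : Z - -(4 * X - Z) = 4 * X := by ring
      rw [h6, map_mul, h4, one_mul] at h5
      rw [h5, i2]
    · have h5 : (4 : K) ^ (i + 1) * X - R.xRep 0 = 4 ^ i * (4 * X - Z) + (4 ^ i * Z - R.xRep 0) := by
        ring
      rw [h5]
      refine (hw _ _).trans_lt (max_lt ?_ i3)
      rw [map_mul, map_pow, h4, one_pow, one_mul]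
      exact d2

/-- two equal multiples -/
theorem far_eq (hw : IsNonarchimedean w) (h2 : w 2 = 1) (ha : w a ≤ 1) (hb : w b ≤ 1)
    (R : SPt a b) (h1 : R.xRep 1 = 1) (hx : 1 < w (R.xRep 0)) {i k : ℕ} (hik : i < k)
    (h : (2 ^ i • R).xRep = (2 ^ k • R).xRep) : w ((4 ^ (k - i) - 1 : ℕ) : K) ≠ 1 := by
  have h4 : w (4 : K) = 1 := by rw [show (4 : K) = 2 * 2 by norm_num, map_mul, h2, one_mul]
  have hx0 : 0 < w (R.xRep 0) := by linarith
  obtain ⟨-, i2, i3⟩ := iter_far hw h2 ha hb R h1 hx i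
  obtain ⟨-, k2, k3⟩ := iter_far hw h2 ha hb R h1 hx k
  rw [← h] at k3 k2
  set Z := ((2 ^ i : ℕ) • R).xRep 0 with hZ
  have h5 : (4 : K) ^ k * Z - 4 ^ i * Z = 4 ^ i * (((4 ^ (k - i) - 1 : ℕ) : K) * Z) := by
    have h6 : (4 : K) ^ k = 4 ^ i * 4 ^ (k - i) := by
      rw [← pow_add]; congr 1; omega
    have h7 : 1 ≤ 4 ^ (k - i) := Nat.one_le_pow _ _ (by norm_num)
    rw [h6, Nat.cast_sub h7]
    push_cast
    ring
  have h6 : w ((4 : K) ^ k * Z - 4 ^ i * Z) < w (R.xRep 0) := by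
    have e1 : (4 : K) ^ k * Z - 4 ^ i * Z = (4 ^ k * Z - R.xRep 0) - (4 ^ i * Z - R.xRep 0) := by
      ring
    rw [e1]
    exact (na_le hw _ _).trans_lt (max_lt k3 i3)
  rw [h5, map_mul, map_pow, h4, one_pow, one_mul, map_mul, i2] at h6
  intro h7
  rw [h7, one_mul] at h6
  exact lt_irrefl _ h6

end local_

section gain

variable {K : Type} [Field K] [NumberField K] {a b : K}

/-- the gain for two points near the origin of the group at a place of good reduction -/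
theorem far_gain (hab : 4 * a ^ 3 + 27 * b ^ 2 ≠ 0) (v : FinitePlace K)
    {w : AbsoluteValue (AlgebraicClosure K) ℝ} (hvw : Ext v.val w) (h2 : v.val 2 = 1)
    (ha : v.val a ≤ 1) (hb : v.val b ≤ 1) (hΔ : v.val (4 * a ^ 3 + 27 * b ^ 2) = 1) {x y : K}
    (hx : 1 < v.val x) (hyx : v.val y = v.val x) (hne : x ≠ y) :
    Real.log (NF.Nm v) ≤ gg w (ev (fL K (fW (sw a b)))) 4
      (Real.log (w (rs (fL K (fW (sw a b))) 4))) (vL K ![x, 1]) (vL K ![y, 1]) := by
  classical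
  haveI : (sw a b).IsElliptic := sw_ell hab
  have hw := ext_na v w hvw
  have h2w : w (2 : AlgebraicClosure K) = 1 := by
    rw [← map_ofNat (algebraMap K (AlgebraicClosure K)) 2, hvw]; exact h2
  have hnat : ∀ n : ℕ, v.val (n : K) ≤ 1 := fun n => NF.natCast_le_one v n
  obtain ⟨e₁, e₂, e₃, hR⟩ := roots_closure (sw a b)
  have n21 : e₂ - e₁ ≠ 0 := sub_ne_zero.2 (Ne.symm hR.n12)
  -- j is integral
  have hj : v.val (sw a b).j ≤ 1 := by
    rw [jinv_eq a b inferInstance, jinv, map_div₀, hΔ, div_one, map_mul, map_pow]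
    have h6 : v.val (6912 : K) ≤ 1 := by exact_mod_cast hnat 6912
    exact mul_le_one₀ h6 (by positivity) (pow_le_one₀ (v.val.nonneg _) ha)
  obtain ⟨p, q⟩ := potK hR v hvw h2 hj
  -- the roots
  set φ := algebraMap K (AlgebraicClosure K) with hφ
  have b2 : (sw a b).b₂ = 0 := by simp [WeierstrassCurve.b₂, sw]
  have b4 : (sw a b).b₄ = 2 * a := by simp [WeierstrassCurve.b₄, sw]
  have b6 : (sw a b).b₆ = 4 * b := by simp [WeierstrassCurve.b₆, sw]
  have r2 := hR.h2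
  have r4 := hR.h4
  have r6 := hR.h6
  rw [b2, map_zero] at r2
  rw [b4, map_mul, map_ofNat] at r4
  rw [b6, map_mul, map_ofNat] at r6
  have c4 : (4 : AlgebraicClosure K) ≠ 0 := by norm_num
  have c2 : (2 : AlgebraicClosure K) ≠ 0 := by norm_num
  have s1 : e₁ + e₂ + e₃ = 0 := by
    have : (-4 : AlgebraicClosure K) * (e₁ + e₂ + e₃) = 0 := r2.symm
    exact (mul_eq_zero.1 this).resolve_left (by norm_num)
  have s2 : e₁ * e₂ + e₁ * e₃ + e₂ * e₃ = φ a := mul_left_cancel₀ c2 r4.symm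
  have s3 : e₁ * e₂ * e₃ = -φ b := by
    apply mul_left_cancel₀ c4
    linear_combination r6
  have hwa : w (φ a) ≤ 1 := by rw [hφ, hvw]; exact ha
  have hwb : w (φ b) ≤ 1 := by rw [hφ, hvw]; exact hb
  have hroot : ∀ e : AlgebraicClosure K, e ^ 3 + (φ a * e + φ b) = 0 → w e ≤ 1 := by
    intro e he
    by_contra hcon
    push Not at hcon
    have h5 : w (φ a * e + φ b) < w (e ^ 3) := by
      have h6 : w (φ a * e + φ b) ≤ w e := by
        refine (hw _ _).trans (max_le ?_ (hwb.trans hcon.le))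
        rw [map_mul]
        exact mul_le_of_le_one_left (by linarith) hwa
      rw [map_pow]
      have : w e < w e ^ 3 := by nlinarith [mul_pos (sub_pos.2 hcon) (sub_pos.2 hcon)]
      linarith
    have h7 : w (e ^ 3 - -(φ a * e + φ b)) = w (e ^ 3) := na_eq' hw (by
      rw [AbsoluteValue.map_neg]; exact h5)
    rw [sub_neg_eq_add, he, map_zero, map_pow] at h7
    have : 0 < w e ^ 3 := by positivity
    linarith
  have we1 : w e₁ ≤ 1 := hroot e₁ (by linear_combination e₁ ^ 2 * s1 - e₁ * s2 + s3)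
  have we2 : w e₂ ≤ 1 := hroot e₂ (by linear_combination e₂ ^ 2 * s1 - e₂ * s2 + s3)
  have we3 : w e₃ ≤ 1 := hroot e₃ (by linear_combination e₃ ^ 2 * s1 - e₃ * s2 + s3)
  have hdisc : (e₂ - e₁) ^ 2 * ((e₁ - e₃) ^ 2 * (e₂ - e₃) ^ 2) = -φ (4 * a ^ 3 + 27 * b ^ 2) := by
    have hb' : φ b = -(e₁ * e₂ * e₃) := by rw [s3, neg_neg]
    have he3 : e₃ = -e₁ - e₂ := by linear_combination s1
    rw [map_add, map_mul, map_mul, map_pow, map_pow, map_ofNat, map_ofNat, hb', ← s2, he3]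
    ring
  have hd : w (e₂ - e₁) = 1 := by
    have h5 := congrArg w hdisc
    rw [AbsoluteValue.map_neg, hvw, hΔ, map_mul, map_mul, map_pow, map_pow, map_pow] at h5
    have f1 : w (e₂ - e₁) ≤ 1 := (na_le hw _ _).trans (max_le we2 we1)
    have f2 : w (e₁ - e₃) ≤ 1 := (na_le hw _ _).trans (max_le we1 we3)
    have f3 : w (e₂ - e₃) ≤ 1 := (na_le hw _ _).trans (max_le we2 we3)
    apply le_antisymm f1
    by_contra hcon
    push Not at hcon
    have g1 : w (e₂ - e₁) ^ 2 < 1 := pow_lt_one₀ (w.nonneg _) hcon (by norm_num)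
    have g2 : w (e₁ - e₃) ^ 2 * w (e₂ - e₃) ^ 2 ≤ 1 :=
      mul_le_one₀ (pow_le_one₀ (w.nonneg _) f2) (by positivity) (pow_le_one₀ (w.nonneg _) f3)
    have g3 : w (e₂ - e₁) ^ 2 * (w (e₁ - e₃) ^ 2 * w (e₂ - e₃) ^ 2) ≤ w (e₂ - e₁) ^ 2 * 1 :=
      mul_le_mul_of_nonneg_left g2 (by positivity)
    linarith
  -- the pairing
  have hfib := F4_fib (by norm_num : 1 ≤ 4) (fW_hom (sw a b)) (fW_rs hR) w
  have hwd : wd (vL K ![x, 1]) (vL K ![y, 1]) ≠ 0 := wd_vL_ne (by
    simp only [wd, Matrix.cons_val_zero, Matrix.cons_val_one, mul_one, one_mul]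
    exact sub_ne_zero.2 hne)
  have h6 := gg_good hw (by norm_num : 2 ≤ 4) hfib (good_leg hw h2w p q)
    (roots_wd hR) (inv_ne_zero (pow_ne_zero 3 n21)) (roots_ev hR) hwd
  rw [(coo_Psi e₁ e₂ _).resolve_right n21, (coo_Psi e₁ e₂ _).resolve_right n21] at h6
  refine le_trans ?_ h6
  have hval : ∀ z : K, 1 < v.val z → w ((φ z - e₁) / (e₂ - e₁)) = v.val z := by
    intro z hz
    rw [map_div₀, hd, div_one, na_eq' hw (by rw [hvw]; linarith), hvw]
  have hP : ∀ z : K, Psi e₁ e₂ (vL K ![z, 1]) = ![(φ z - e₁) / (e₂ - e₁), 1] := by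
    intro z
    funext i
    fin_cases i
    · simp [Psi, vL, hφ]
    · simp [Psi, vL]
  rw [hP, hP]
  have hnrm : ∀ z : K, 1 < v.val z → nrm w ![(φ z - e₁) / (e₂ - e₁), 1] = v.val z := by
    intro z hz
    simp only [nrm, Matrix.cons_val_zero, Matrix.cons_val_one, map_one]
    rw [hval z hz, max_eq_left hz.le]
  unfold lam
  rw [hnrm x hx, hnrm y (by rw [hyx]; exact hx), hyx]
  have hwd' : wd ![(φ x - e₁) / (e₂ - e₁), 1] ![(φ y - e₁) / (e₂ - e₁), (1 : AlgebraicClosure K)] =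
      (φ x - φ y) / (e₂ - e₁) := by
    simp only [wd, Matrix.cons_val_zero, Matrix.cons_val_one, mul_one, one_mul]
    rw [← sub_div]; congr 1; ring
  rw [hwd', map_div₀, hd, div_one, ← map_sub, hvw]
  have h7 : v.val (x - y) ≤ v.val x := (na_le (na_val v) _ _).trans (by rw [hyx, max_self])
  have h8 := Real.log_le_log (v.val.pos (sub_ne_zero.2 hne)) h7
  have h9 := log_Nm_le_abs v (x := x) (by rintro rfl; rw [map_zero] at hx; linarith) hx.ne'
  rw [abs_of_pos (Real.log_pos hx)] at h9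
  linarith

end gain

end Pool.Agent.Y725.LS
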