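import Mathlib
import Pool.Agent.Y725.LS.Ram

/-! A point in the kernel of reduction at many places has large height. -/

set_option autoImplicit false

open Height NumberField Module Finset Pool.Agent.H951R3.PB Filter Topology TH951.LS TH951
open WeierstrassCurve

namespace Pool.Agent.Y725.LS

open Pool.Agent.TH942 Pool.Agent.TH910.LS

/-- nonnegativity and doubling for the canonical height -/
theorem ht_pow {K : Type} [Field K] [NumberField K] [DecidableEq K]
    (W : WeierstrassCurve K) {ht : W.toAffine.Point → ℝ}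
    (hlim' : ∀ Q : W.toAffine.Point,
      Tendsto (fun n : ℕ => logHeight ((2 ^ n • Q).xRep) / (4 ^ n * finrank ℚ K)) atTop
        (𝓝 (ht Q))) :
    (∀ Q, 0 ≤ ht Q) ∧ ∀ (k : ℕ) (Q : W.toAffine.Point), ht (2 ^ k • Q) = 4 ^ k * ht Q := by
  have hnn : ∀ Q, 0 ≤ ht Q := fun Q => by
    refine ge_of_tendsto' (hlim' Q) fun n => ?_
    have : 0 ≤ logHeight ((2 ^ n • Q).xRep) := by
      rw [logHeight_eq_log_mulHeight]
      exact Real.log_nonneg (one_le_mulHeight _)
    positivity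
  have hdbl : ∀ Q, ht (2 • Q) = 4 * ht Q := by
    intro Q
    have e1 := (hlim' (2 • Q))
    have e2 := ((tendsto_add_atTop_iff_nat 1).2 (hlim' Q)).const_mul 4
    refine tendsto_nhds_unique e1 (e2.congr fun n => ?_)
    rw [← mul_nsmul', ← pow_succ, pow_succ (4 : ℝ)]
    field_simp
  refine ⟨hnn, fun k Q => ?_⟩
  induction k with
  | zero => simp
  | succ k ih => rw [pow_succ', mul_nsmul', hdbl, ih, pow_succ']; ring

/-- **A point in the kernel of reduction at many places.** -/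
theorem ram_case (D : ℕ) {ε : ℝ} (hε : 0 < ε) : ∃ C : ℝ, 0 < C ∧ ∀ M : ℕ, M ≠ 0 →
    ∃ A : ℝ, 0 ≤ A ∧
    ∀ (K : Type) [Field K] [NumberField K] [DecidableEq K], finrank ℚ K ≤ D →
    ∀ a b : K, 4 * a ^ 3 + 27 * b ^ 2 ≠ 0 →
    A < logHeight₁ (jinv a b) / finrank ℚ K →
    ∀ ht : SPt a b → ℝ, (∀ Q : SPt a b,
      Tendsto (fun n : ℕ => logHeight ((2 ^ n • Q).xRep) / (4 ^ n * finrank ℚ K)) atTop
        (𝓝 (ht Q))) →
    ∀ (R : SPt a b) (G : Finset (FinitePlace K)),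
      (∀ v ∈ G, v.val a ≤ 1 ∧ v.val b ≤ 1 ∧ v.val 2 = 1 ∧ v.val (4 * a ^ 3 + 27 * b ^ 2) = 1 ∧
        R.xRep 1 = 1 ∧ 1 < v.val (R.xRep 0)) →
      ε * logHeight₁ (jinv a b) ≤ ∑ v ∈ G, Real.log (NF.Nm v) →
      logHeight₁ (jinv a b) / finrank ℚ K ≤ C * ht R := by
  classical
  obtain ⟨N₂, C, hC, hEI⟩ := energy_ineq.{0} D
  obtain ⟨k, hk0, hkN, hka⟩ := exists_pow (a := ε / 4) (b := 2 * C) (by positivity) (N₂ + 2)
  obtain ⟨n, hn⟩ : ∃ n : ℝ, n = (4 : ℝ) ^ k := ⟨_, rfl⟩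
  have hn0 : 0 < n := by rw [hn]; positivity
  rw [← hn] at hka
  have hk1 : (1 : ℝ) ≤ k := by exact_mod_cast hk0
  have hn2 : 2 ≤ n := by
    have h1 : (2 : ℕ) ≤ 4 ^ k := by omega
    rw [hn]; exact_mod_cast h1
  refine ⟨C * (n + k) * 4 ^ (4 ^ k), by positivity, ?_⟩
  intro M hM
  obtain ⟨A₂, hA₂, hEI⟩ := hEI M hM
  have hlog6 : 0 ≤ Real.log ((6 * M : ℕ) : ℝ) := Real.log_natCast_nonneg _
  have hlog4 : 0 ≤ Real.log 4 := Real.log_nonneg (by norm_num)
  refine ⟨A₂ + Real.log ((6 * M : ℕ) : ℝ) * (2 / ε) + n * Real.log 4 / ε, by positivity, ?_⟩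
  intro K _ _ _ hKD a b hab hAj ht hlim R G hG hGs
  haveI : (sw a b).IsElliptic := sw_ell hab
  have hjj : (sw a b).j = jinv a b := jinv_eq a b inferInstance
  have hd : (0 : ℝ) < finrank ℚ K := by exact_mod_cast (finrank_pos : 0 < finrank ℚ K)
  have hd1 : (1 : ℝ) ≤ finrank ℚ K := by exact_mod_cast (finrank_pos : 0 < finrank ℚ K)
  obtain ⟨d, hdd⟩ : ∃ d : ℝ, d = finrank ℚ K := ⟨_, rfl⟩
  obtain ⟨H, hH⟩ : ∃ H : ℝ, H = logHeight₁ (jinv a b) / finrank ℚ K := ⟨_, rfl⟩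
  have hdH : logHeight₁ (jinv a b) = d * H := by rw [hH, hdd]; field_simp
  have ht1 : 0 ≤ Real.log ((6 * M : ℕ) : ℝ) * (2 / ε) := by positivity
  have ht2 : 0 ≤ n * Real.log 4 / ε := by positivity
  have hH0 : 0 < H := by rw [hH]; linarith
  have hHA₂ : A₂ ≤ H := by rw [hH]; linarith
  have hH6 : Real.log ((6 * M : ℕ) : ℝ) ≤ ε / 2 * H := by
    have h1 : Real.log ((6 * M : ℕ) : ℝ) * (2 / ε) ≤ H := by rw [hH]; linarith
    have h2 := mul_le_mul_of_nonneg_left h1 (show 0 ≤ ε / 2 by positivity)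
    refine le_trans (le_of_eq ?_) h2
    field_simp
  have hH4 : n * Real.log 4 < ε * H := by
    have h1 : n * Real.log 4 / ε < H := by rw [hH]; linarith
    rw [div_lt_iff₀ hε] at h1
    linarith
  rw [← hH]
  rw [hdH] at hGs
  rw [← hdd] at hd hd1
  obtain ⟨hnn, hpow⟩ := ht_pow (sw a b) hlim
  obtain ⟨μ, hμ⟩ : ∃ μ : ℝ, μ = 4 ^ (4 ^ k) * ht R := ⟨_, rfl⟩
  have hμ0 : 0 ≤ μ := by
    rw [hμ]
    exact mul_nonneg (by positivity) (hnn R)
  have hgoal : d * H ≤ C * (n + k) * (d * μ) → H ≤ C * (n + k) * 4 ^ (4 ^ k) * ht R := by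
    intro h
    have h1 : d * H ≤ d * (C * (n + k) * μ) := by linarith
    have h2 := le_of_mul_le_mul_left h1 hd
    rw [hμ] at h2
    linarith
  by_cases hdist : ∀ i l : Fin (4 ^ k), i ≠ l →
      (2 ^ (i : ℕ) • R).xRep ≠ (2 ^ (l : ℕ) • R).xRep
  · apply hgoal
    choose wf hwf using fun v : FinitePlace K => exists_ext_fin v
    have hj0 : (sw a b).j ≠ 0 := by
      intro h
      rw [hH, ← hjj, h] at hH0
      simp at hH0
    set S : Finset (FinitePlace K) := (F4_finite_ne hj0).toFinset.filter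
      (fun v => v.val ((6 * M : ℕ) : K) = 1 ∧ 1 < v.val (sw a b).j) with hSd
    have hS : ∀ v, v ∈ S ↔ v.val ((6 * M : ℕ) : K) = 1 ∧ 1 < v.val (sw a b).j := by
      intro v
      rw [hSd, Finset.mem_filter, Set.Finite.mem_toFinset, Set.mem_ofPred_eq]
      constructor
      · exact fun h => h.2
      · exact fun h => ⟨h.2.ne', h⟩
    obtain ⟨J, hJ⟩ : ∃ J : ℝ, J = ∑ v ∈ S, Real.log (v.val (sw a b).j) := ⟨_, rfl⟩
    have hJH : J ≤ d * H := by
      rw [← hdH, hJ, ← hjj]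
      refine le_trans ?_ (FE.posLog_sum_le (sw a b).j S)
      have h1 : 0 ≤ ∑ v : InfinitePlace K, (v.mult : ℝ) * Real.posLog (v.val (sw a b).j) :=
        Finset.sum_nonneg fun v _ => mul_nonneg (Nat.cast_nonneg _) Real.posLog_nonneg
      have h2 : ∑ v ∈ S, Real.log (v.val (sw a b).j) ≤ ∑ v ∈ S, Real.posLog (v.val (sw a b).j) :=
        Finset.sum_le_sum fun v _ => le_max_right _ _
      linarith
    set S₁ := G.filter (fun v => v.val ((6 * M : ℕ) : K) = 1) with hS₁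
    obtain ⟨z, hz⟩ : ∃ z : ℝ, z = ∑ v ∈ S₁, Real.log (NF.Nm v) := ⟨_, rfl⟩
    have hz1 : ε * (d * H) ≤ z + ε / 2 * (d * H) := by
      refine hGs.trans ?_
      rw [← Finset.sum_filter_add_sum_filter_not G (fun v => v.val ((6 * M : ℕ) : K) = 1), ← hS₁,
        ← hz]
      refine add_le_add le_rfl ?_
      have := sum_Nm_le (K := K) (m := 6 * M) (by positivity)
        (G.filter (fun v => ¬ v.val ((6 * M : ℕ) : K) = 1))
        (fun v hv => (Finset.mem_filter.1 hv).2)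
      rw [← hdd] at this
      refine this.trans ?_
      have := mul_le_mul_of_nonneg_left hH6 hd.le
      linarith
    have hEI' := hEI K hKD (sw a b) wf hwf ht hlim ∅ S S₁ (fun v => Real.log (NF.Nm v))
      (fun v hv => absurd hv (Finset.notMem_empty v)) hS
      (fun v hv => (Finset.mem_filter.1 hv).2) k hk0 (by omega)
      (fun i => 2 ^ (i : ℕ) • R) hdist (fun v hv i l hil => by
        obtain ⟨hvG, -⟩ := Finset.mem_filter.1 hv
        obtain ⟨g1, g2, g3, g4, g5, g6⟩ := hG v hvG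
        obtain ⟨i1, i2, -⟩ := iter_far (na_val v) g3 g1 g2 R g5 g6 i
        obtain ⟨l1, l2, -⟩ := iter_far (na_val v) g3 g1 g2 R g5 g6 l
        have ei : (2 ^ (i : ℕ) • R).xRep = ![(2 ^ (i : ℕ) • R).xRep 0, 1] := by
          funext t; fin_cases t
          · rfl
          · exact i1
        have el : (2 ^ (l : ℕ) • R).xRep = ![(2 ^ (l : ℕ) • R).xRep 0, 1] := by
          funext t; fin_cases t
          · rfl
          · exact l1
        have hne : (2 ^ (i : ℕ) • R).xRep 0 ≠ (2 ^ (l : ℕ) • R).xRep 0 := by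
          intro h
          apply hdist i l hil
          rw [ei, el, h]
        have := far_gain hab v (hwf v) g3 g1 g2 g4 (x := (2 ^ (i : ℕ) • R).xRep 0)
          (y := (2 ^ (l : ℕ) • R).xRep 0) (by rw [i2]; exact g6) (by rw [i2, l2]) hne
        rw [← ei, ← el] at this
        exact this) μ hμ0 (fun i => by
        rw [hpow, hμ]
        refine mul_le_mul_of_nonneg_right ?_ (hnn R)
        exact pow_le_pow_right₀ (by norm_num) i.2.le) 0
    rw [Finset.sum_empty, ← hn, ← hJ, ← hz, ← hdd] at hEI'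
    have hdHp : 0 < d * H := by positivity
    refine num_2 (a := ε / 4) (δ₁ := 16 * ε) (z := 32 * z) (w := 0) hn2 (by linarith) hC hdHp.le
      (by positivity) (by linarith) hka hJH (hHA₂.trans (le_mul_of_one_le_left hH0.le hd1))
      (by linarith) rfl ?_
    refine le_trans (le_of_eq ?_) hEI'
    ring
  · exfalso
    push Not at hdist
    obtain ⟨i, l, hil, heq⟩ := hdist
    obtain ⟨i', l', hil', hl', heq'⟩ : ∃ i l : ℕ, i < l ∧ l < 4 ^ k ∧
        (2 ^ i • R).xRep = (2 ^ l • R).xRep := by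
      rcases lt_or_gt_of_ne (fun h => hil (Fin.ext h) : (i : ℕ) ≠ l) with h | h
      · exact ⟨i, l, h, l.2, heq⟩
      · exact ⟨l, i, h, i.2, heq.symm⟩
    have hm : 4 ^ (l' - i') - 1 ≠ 0 := by
      have : 4 ^ 1 ≤ 4 ^ (l' - i') := Nat.pow_le_pow_right (by norm_num) (by omega)
      omega
    have h1 := sum_Nm_le (K := K) hm G (fun v hv => by
      obtain ⟨g1, g2, g3, g4, g5, g6⟩ := hG v hv
      exact far_eq (na_val v) g3 g1 g2 R g5 g6 hil' heq')
    rw [← hdd] at h1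
    have h2 : Real.log ((4 ^ (l' - i') - 1 : ℕ) : ℝ) ≤ n * Real.log 4 := by
      have h3 : Real.log ((4 ^ (l' - i') - 1 : ℕ) : ℝ) ≤ Real.log ((4 : ℝ) ^ (4 ^ k)) := by
        apply Real.log_le_log (by exact_mod_cast Nat.pos_of_ne_zero hm)
        have h4 : 4 ^ (l' - i') - 1 ≤ 4 ^ (4 ^ k) := by
          refine (Nat.sub_le _ _).trans (Nat.pow_le_pow_right (by norm_num) (by omega))
        exact_mod_cast h4
      rw [Real.log_pow] at h3
      refine h3.trans (le_of_eq ?_)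
      rw [hn]; push_cast; rfl
    have h3 := mul_le_mul_of_nonneg_left h2 hd.le
    have h4 := mul_lt_mul_of_pos_left hH4 hd
    linarith

end Pool.Agent.Y725.LS
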