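import Mathlib
import Pool.Agent.Y725.LS.RamCase
import Pool.Agent.Y725.LS.Ext

/-! The dichotomy for forms of powers of elliptic curves with bounded Szpiro-type ratio. -/

set_option autoImplicit false
set_option linter.unusedSectionVars false

open Height NumberField Module Finset Pool.Agent.H951R3.PB Filter Topology TH951.LS TH951
open WeierstrassCurve

namespace Pool.Agent.Y725.LS

open Pool.Agent.TH942 Pool.Agent.TH910.LS

section

variable {K : Type} [Field K] [NumberField K] {L : Type} [Field L] [NumberField L] [Algebra K L]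

/-- A place `w` of `L` at which the form has visibly bad reduction: the curve has bad reduction
over `L` at `w`, or it has good reduction and the extension is ramified. -/
def BadAt (a b : 𝓞 K) (w : FinitePlace L) : Prop :=
  ¬ GoodRed w.val (sw (algebraMap K L a) (algebraMap K L b)) ∨
    (w.val (2 * (4 * (algebraMap K L a) ^ 3 + 27 * (algebraMap K L b) ^ 2)) = 1 ∧
      ∃ σ : L ≃ₐ[K] L, σ ≠ 1 ∧ Inert w.maximalIdeal (σ : L ≃+* L))

/-- summation over the places below -/
theorem sum_below {M : ℕ} {j : K} (T : Finset (FinitePlace K)) {X : ℝ}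
    (h : ∀ S : Finset (FinitePlace K),
      (∀ v ∈ S, v ∉ T ∧ v.val (M : K) = 1 ∧ 1 < v.val j) →
      ∑ v ∈ S, Real.log (v.val j) ≤ X) :
    ∃ T' : Finset (FinitePlace L), T'.card ≤ T.card * finrank K L ∧
      ∀ S : Finset (FinitePlace L),
      (∀ w ∈ S, w ∉ T' ∧ w.val (M : L) = 1 ∧ 1 < w.val (algebraMap K L j)) →
      ∑ w ∈ S, Real.log (w.val (algebraMap K L j)) ≤ finrank K L * X := by
  classical
  have hlt : ∀ w : FinitePlace L, 1 < w.val (algebraMap K L j) ↔ 1 < (below K w).val j := by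
    intro w
    rw [ext_apply]
    exact one_lt_pow_iff_of_nonneg ((below K w).val.nonneg _) (ldeg_pos K w).ne'
  refine ⟨T.biUnion fun v => (above_finite (L := L) v).toFinset, ?_, ?_⟩
  · refine Finset.card_biUnion_le.trans ?_
    refine (Finset.sum_le_card_nsmul _ _ (finrank K L) fun v _ => ?_).trans (le_of_eq ?_)
    · have h1 := sum_ldeg v (above_finite (L := L) v).toFinset (fun w hw => by simpa using hw)
      refine le_trans ?_ h1
      rw [Finset.card_eq_sum_ones]
      exact Finset.sum_le_sum fun w _ => ldeg_pos K w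
    · rw [smul_eq_mul]
  · intro S hS
    have h1 := h (S.image (below K)) (by
      intro v hv
      obtain ⟨w, hw, rfl⟩ := Finset.mem_image.1 hv
      obtain ⟨h1, h2, h3⟩ := hS w hw
      refine ⟨fun h4 => h1 ?_, ?_, (hlt w).1 h3⟩
      · rw [Finset.mem_biUnion]
        exact ⟨_, h4, by simp⟩
      · have h5 := ext_apply (K := K) w (M : K)
        rw [map_natCast, h2] at h5
        exact (pow_eq_one_iff_of_nonneg ((below K w).val.nonneg _) (ldeg_pos K w).ne').1 h5.symm)
    have h2 : ∑ w ∈ S, Real.log (w.val (algebraMap K L j)) ≤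
        finrank K L * ∑ v ∈ S.image (below K), Real.log (v.val j) := by
      rw [← Finset.sum_fiberwise_of_maps_to (t := S.image (below K)) (g := below K)
        (fun w hw => Finset.mem_image_of_mem _ hw), Finset.mul_sum]
      refine Finset.sum_le_sum fun v hv => ?_
      obtain ⟨w₀, hw₀, hv₀⟩ := Finset.mem_image.1 hv
      have hv1 : 1 < v.val j := by
        rw [← hv₀]; exact (hlt w₀).1 (hS w₀ hw₀).2.2
      have h3 : ∀ w ∈ S.filter (fun w => below K w = v),
          Real.log (w.val (algebraMap K L j)) = ldeg K w * Real.log (v.val j) := by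
        intro w hw
        rw [ext_apply, Real.log_pow, (Finset.mem_filter.1 hw).2]
      rw [Finset.sum_congr rfl h3, ← Finset.sum_mul]
      refine mul_le_mul_of_nonneg_right ?_ (Real.log_pos hv1).le
      have := sum_ldeg v (S.filter (fun w => below K w = v)) (fun w hw =>
        (Finset.mem_filter.1 hw).2)
      exact_mod_cast this
    exact h2.trans (mul_le_mul_of_nonneg_left h1 (Nat.cast_nonneg _))

theorem logHeight₁_ext (j : K) :
    logHeight₁ (algebraMap K L j) = finrank K L * logHeight₁ j := by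
  rw [FE.logHeight₁_pair, FE.logHeight₁_pair,
    ← Pool.Agent.Helper259.HtExt.logHeight_ext (L := L)]
  congr 1
  funext i
  fin_cases i
  · rfl
  · exact (map_one _).symm

end

/-- **The dichotomy.** -/
theorem dichotomy (D s n : ℕ) (σ : ℝ) : ∃ (N : ℕ) (c δ : ℝ), 0 < c ∧ 0 < δ ∧
    ∀ M₀ : ℕ, M₀ ≠ 0 → ∃ A : ℝ, 0 ≤ A ∧
    ∀ (K : Type) [Field K] [NumberField K], finrank ℚ K ≤ D →
    ∀ a b : 𝓞 K, 4 * (a : K) ^ 3 + 27 * (b : K) ^ 2 ≠ 0 →
      A < absH (jinv (a : K) b) →
    ∀ (L : Type) [Field L] [NumberField L] [Algebra K L] [IsGalois K L] [DecidableEq L],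
      finrank K L ≤ n →
    ∀ (T : Finset (FinitePlace K)) (F : Finset (FinitePlace L)), T.card ≤ s →
      (∀ w ∈ F, BadAt a b w) →
      (∀ S : Finset (FinitePlace K),
        (∀ v ∈ S, v ∉ T ∧ v.val (M₀ : K) = 1 ∧ 1 < v.val (jinv (a : K) b)) →
        ∑ v ∈ S, Real.log (v.val (jinv (a : K) b)) ≤
          σ * ∑ w ∈ F, Real.log (NF.Nm w) + δ * logHeight₁ (jinv (a : K) b)) →
      (∀ Q : Pts L a b, (∃ m : ℕ, 0 < m ∧ m ≤ 2 * N + 1 ∧ m • Q = 0) ∨
        c * absH (jinv (a : K) b) ≤ chat Q / finrank ℚ L) ∨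
      (∀ (g : ℕ) (ρ : (L ≃ₐ[K] L) →* Matrix (Fin g) (Fin g) ℤ) (M : Matrix (Fin g) (Fin g) ℤ)
        (P : Fin g → Pts L a b), Polar ρ M → FixedPt ρ P → Generates P →
        c * absH (jinv (a : K) b) ≤ chatM M P / finrank ℚ L) := by
  classical
  obtain ⟨σ', hσ'⟩ : ∃ σ' : ℝ, σ' = |σ| + 1 := ⟨_, rfl⟩
  have hσ1 : 1 ≤ σ' := by rw [hσ']; linarith [abs_nonneg σ]
  have hσσ : σ ≤ σ' := by rw [hσ']; linarith [le_abs_self σ]
  obtain ⟨N, c, δ₁, hc, hδ₁, hfam⟩ := family'.{0} (D * n) (s * n) (n * σ')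
  obtain ⟨ε₁, hε₁⟩ : ∃ ε₁ : ℝ, ε₁ = δ₁ / (2 * ((n + 1) * σ')) := ⟨_, rfl⟩
  have hε₁0 : 0 < ε₁ := by rw [hε₁]; positivity
  obtain ⟨C, hC, hram⟩ := ram_case (D * n) (ε := ε₁ / (n + 1)) (by positivity)
  refine ⟨N, min (c / 4 ^ N) (1 / (4 * C)), δ₁ / 2, lt_min (by positivity) (by positivity),
    by positivity, ?_⟩
  intro M₀ hM₀
  obtain ⟨A₁, hA₁, hfam⟩ := hfam M₀ hM₀
  obtain ⟨A₂, hA₂, hram⟩ := hram M₀ hM₀
  refine ⟨A₁ + A₂, by positivity, ?_⟩
  intro K _ _ hK a b hab hAj L _ _ _ _ _ hKL T F hT hF hS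
  have hn : finrank ℚ L ≤ D * n := by
    rw [← Module.finrank_mul_finrank ℚ K L]
    exact Nat.mul_le_mul hK hKL
  have hab' : 4 * (algebraMap K L a) ^ 3 + 27 * (algebraMap K L b) ^ 2 ≠ 0 := by
    have h1 : algebraMap K L (4 * (a : K) ^ 3 + 27 * (b : K) ^ 2) ≠ 0 := by
      rw [ne_eq, map_eq_zero]
      exact hab
    rw [map_add, map_mul, map_mul, map_pow, map_pow, map_ofNat, map_ofNat] at h1
    exact h1
  obtain ⟨nL, hnL⟩ : ∃ nL : ℝ, nL = finrank ℚ L := ⟨_, rfl⟩
  have hnL0 : 0 < nL := by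
    rw [hnL]
    exact_mod_cast (Module.finrank_pos : 0 < Module.finrank ℚ L)
  obtain ⟨j, hjd⟩ : ∃ j : K, j = jinv (a : K) b := ⟨_, rfl⟩
  rw [← hjd] at hAj hS ⊢
  have hjL : jinv (algebraMap K L a) (algebraMap K L b) = algebraMap K L j := by
    rw [hjd]
    unfold jinv
    simp [map_ofNat]
  have hHj0 : 0 < absH j := by linarith
  haveI hell : (sw (algebraMap K L (a : K)) (algebraMap K L (b : K))).IsElliptic := sw_ell hab'
  have hjj : (sw (algebraMap K L (a : K)) (algebraMap K L (b : K))).j = algebraMap K L j := by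
    rw [← hjL]
    exact jinv_eq _ _ hell
  have hlim : ∀ Q : Pts L a b, Tendsto (fun n : ℕ =>
      logHeight ((2 ^ n • Q).xRep) / (4 ^ n * Module.finrank ℚ L)) atTop
      (𝓝 (chat Q / nL)) := by
    intro Q
    have h := ((chat_spec hab').1 Q).div_const nL
    refine h.congr fun n => ?_
    rw [div_div, hnL]
    rfl
  have habsL : logHeight₁ (algebraMap K L j) / Module.finrank ℚ L = absH j := absH_ext L j
  have habsL' : logHeight₁ (algebraMap K L j) = nL * absH j := by
    rw [← habsL, ← hnL]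
    have := hnL0.ne'
    field_simp
  have hnn : ∀ u : FinitePlace L, 0 ≤ Real.log (NF.Nm u) := fun u => by
    have : (1 : ℝ) < NF.Nm u := by exact_mod_cast NF.one_lt_Nm u
    exact (Real.log_pos this).le
  obtain ⟨F₁, hF₁⟩ : ∃ F₁ : Finset (FinitePlace L), F₁ = F.filter (fun w =>
    ¬ GoodRed w.val (sw (algebraMap K L a) (algebraMap K L b))) := ⟨_, rfl⟩
  obtain ⟨F₂, hF₂⟩ : ∃ F₂ : Finset (FinitePlace L), F₂ = F.filter (fun w =>
    ¬ ¬ GoodRed w.val (sw (algebraMap K L a) (algebraMap K L b))) := ⟨_, rfl⟩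
  have hFsum : ∑ w ∈ F, Real.log (NF.Nm w) = ∑ w ∈ F₁, Real.log (NF.Nm w) +
      ∑ w ∈ F₂, Real.log (NF.Nm w) := by
    rw [hF₁, hF₂, Finset.sum_filter_add_sum_filter_not]
  have hσ'0 : 0 < σ' := by linarith
  rw [← hnL]
  by_cases hcase : ∑ w ∈ F₂, Real.log (NF.Nm w) ≤ ε₁ * (nL * absH j)
  · -- no ramification
    left
    obtain ⟨T', hT', hS'⟩ := sum_below (L := L) T hS
    have hsz : ∀ S : Finset (FinitePlace L),
        (∀ v ∈ S, v ∉ T' ∧ v.val (M₀ : L) = 1 ∧
          1 < v.val (sw (algebraMap K L (a : K)) (algebraMap K L (b : K))).j) →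
        ∑ v ∈ S, Real.log (v.val (sw (algebraMap K L (a : K)) (algebraMap K L (b : K))).j) ≤
          (n * σ') * ∑ v ∈ F₁, Real.log (NF.Nm v) +
            δ₁ * logHeight₁ (sw (algebraMap K L (a : K)) (algebraMap K L (b : K))).j := by
      intro S hSS
      rw [hjj] at hSS ⊢
      refine (hS' S hSS).trans ?_
      have hF0 : 0 ≤ ∑ w ∈ F₁, Real.log (NF.Nm w) := Finset.sum_nonneg fun w _ => hnn w
      have hF0' : 0 ≤ ∑ w ∈ F₂, Real.log (NF.Nm w) := Finset.sum_nonneg fun w _ => hnn w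
      have hk : (finrank K L : ℝ) ≤ n := by exact_mod_cast hKL
      have hk0 : (0 : ℝ) ≤ finrank K L := Nat.cast_nonneg _
      have hn0 : (0 : ℝ) ≤ n := Nat.cast_nonneg _
      rw [mul_add, ← mul_assoc (finrank K L : ℝ) (δ₁ / 2), mul_comm (finrank K L : ℝ) (δ₁ / 2),
        mul_assoc (δ₁ / 2), ← logHeight₁_ext, hFsum, habsL']
      have e1 : (finrank K L : ℝ) * (σ * (∑ w ∈ F₁, Real.log (NF.Nm w) +
          ∑ w ∈ F₂, Real.log (NF.Nm w))) ≤ n * (σ' * (∑ w ∈ F₁, Real.log (NF.Nm w) +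
          ∑ w ∈ F₂, Real.log (NF.Nm w))) := by
        have e2 : σ * (∑ w ∈ F₁, Real.log (NF.Nm w) + ∑ w ∈ F₂, Real.log (NF.Nm w)) ≤
            σ' * (∑ w ∈ F₁, Real.log (NF.Nm w) + ∑ w ∈ F₂, Real.log (NF.Nm w)) :=
          mul_le_mul_of_nonneg_right hσσ (by positivity)
        refine (mul_le_mul_of_nonneg_left e2 hk0).trans ?_
        exact mul_le_mul_of_nonneg_right hk (by positivity)
      have e3 : (n : ℝ) * (σ' * ∑ w ∈ F₂, Real.log (NF.Nm w)) ≤ δ₁ / 2 * (nL * absH j) := by
        have e4 : (n : ℝ) * (σ' * ∑ w ∈ F₂, Real.log (NF.Nm w)) ≤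
            (n + 1) * (σ' * (ε₁ * (nL * absH j))) := by
          have e5 : σ' * ∑ w ∈ F₂, Real.log (NF.Nm w) ≤ σ' * (ε₁ * (nL * absH j)) :=
            mul_le_mul_of_nonneg_left hcase hσ'0.le
          refine mul_le_mul (by linarith) e5 (by positivity) (by positivity)
        refine e4.trans (le_of_eq ?_)
        rw [hε₁]
        field_simp
      rw [mul_add σ', mul_add (n : ℝ)] at e1
      linarith
    intro Q
    have hmain : ∀ Q : Fin N → Pts L a b, (∀ i k, i ≠ k → (Q i).xRep ≠ (Q k).xRep) →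
        ∃ i, c * absH j ≤ chat (Q i) / nL := by
      intro Q hQ
      obtain ⟨i, hi⟩ := hfam L hn (sw (algebraMap K L (a : K)) (algebraMap K L (b : K))) F₁ T'
        (fun w hw => by
          rw [hF₁] at hw
          exact (Finset.mem_filter.1 hw).2)
        (hT'.trans (Nat.mul_le_mul hT hKL)) hsz (by rw [hjj, habsL]; linarith) _ hlim Q hQ
      refine ⟨i, ?_⟩
      rw [hjj, habsL] at hi
      refine le_trans ?_ hi
      have : 0 ≤ (∑ w ∈ F₁, Real.log (NF.Nm w)) / (Module.finrank ℚ L : ℝ) :=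
        div_nonneg (Finset.sum_nonneg fun w _ => hnn w) (Nat.cast_nonneg _)
      have := mul_nonneg hc.le this
      linarith
    rcases TH951.LS.of_family (sw (algebraMap K L (a : K)) (algebraMap K L (b : K))) hlim
      (mul_pos hc hHj0) hmain Q with h | h
    · exact Or.inl h
    · right
      refine le_trans ?_ h
      rw [mul_div_right_comm]
      exact mul_le_mul_of_nonneg_right (min_le_left _ _) hHj0.le
  · -- much ramification
    right
    intro g ρ M P hM hP hgen
    push Not at hcase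
    have hcard : (Fintype.card (L ≃ₐ[K] L) : ℝ) ≤ n + 1 := by
      have h1 := AlgEquiv.card_le (F := K) (K := L)
      have h2 : Fintype.card (L ≃ₐ[K] L) ≤ n := h1.trans hKL
      have h3 : (Fintype.card (L ≃ₐ[K] L) : ℝ) ≤ n := by exact_mod_cast h2
      linarith
    obtain ⟨Y, hY⟩ : ∃ Y : ℝ, Y = nL * absH j := ⟨_, rfl⟩
    have hY0 : 0 < Y := by rw [hY]; positivity
    rw [← hY] at hcase
    have hF₂' : ∀ w ∈ F₂, w.val (2 * (4 * (algebraMap K L a) ^ 3 + 27 * (algebraMap K L b) ^ 2)) = 1 ∧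
        ∃ τ : L ≃ₐ[K] L, τ ≠ 1 ∧ Inert w.maximalIdeal (τ : L ≃+* L) := by
      intro w hw
      rw [hF₂] at hw
      obtain ⟨h1, h2⟩ := Finset.mem_filter.1 hw
      exact (hF w h1).resolve_left h2
    obtain ⟨τ, hτ1, hτ⟩ : ∃ τ : L ≃ₐ[K] L, τ ≠ 1 ∧ ε₁ / (n + 1) * Y ≤
        ∑ w ∈ F₂.filter (fun w => Inert w.maximalIdeal (τ : L ≃+* L)), Real.log (NF.Nm w) := by
      by_contra hcon
      push Not at hcon
      have h1 : ∑ w ∈ F₂, Real.log (NF.Nm w) ≤ ∑ τ : L ≃ₐ[K] L, ε₁ / (n + 1) * Y := by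
        have h2 : ∀ w ∈ F₂, Real.log (NF.Nm w) ≤
            ∑ τ : L ≃ₐ[K] L, if τ ≠ 1 ∧ Inert w.maximalIdeal (τ : L ≃+* L) then
              Real.log (NF.Nm w) else 0 := by
          intro w hw
          obtain ⟨-, τ, hτ1, hτ2⟩ := hF₂' w hw
          have h3 := Finset.single_le_sum (f := fun τ : L ≃ₐ[K] L =>
            if τ ≠ 1 ∧ Inert w.maximalIdeal (τ : L ≃+* L) then Real.log (NF.Nm w) else 0)
            (fun τ _ => by
              split_ifs
              · exact hnn w
              · exact le_refl _) (Finset.mem_univ τ)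
          rw [if_pos ⟨hτ1, hτ2⟩] at h3
          exact h3
        refine (Finset.sum_le_sum h2).trans ?_
        rw [Finset.sum_comm]
        refine Finset.sum_le_sum fun τ _ => ?_
        by_cases hτ1 : τ = 1
        · have : ∀ w ∈ F₂, (if τ ≠ 1 ∧ Inert w.maximalIdeal (τ : L ≃+* L) then
              Real.log (NF.Nm w) else 0) = 0 := fun w _ => if_neg fun h => h.1 hτ1
          rw [Finset.sum_congr rfl this, Finset.sum_const_zero]
          positivity
        · refine le_trans (le_of_eq ?_) (hcon τ hτ1).le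
          rw [Finset.sum_filter]
          refine Finset.sum_congr rfl fun w _ => ?_
          simp [hτ1]
      rw [Finset.sum_const, Finset.card_univ, nsmul_eq_mul] at h1
      have h2 : (Fintype.card (L ≃ₐ[K] L) : ℝ) * (ε₁ / (n + 1) * Y) ≤
          (n + 1) * (ε₁ / (n + 1) * Y) := mul_le_mul_of_nonneg_right hcard (by positivity)
      have h3 : ((n : ℝ) + 1) * (ε₁ / (n + 1) * Y) = ε₁ * Y := by field_simp
      linarith
    obtain ⟨U, hU1, hU2⟩ := exists_diff hab' hM.1 (hM.2 τ⁻¹) (fixed_iff ρ hP τ) (hgen τ hτ1)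
    have hint : ∀ (w : FinitePlace L) (z : 𝓞 K), w.val (algebraMap K L z) ≤ 1 := by
      intro w z
      have h1 : av w.maximalIdeal (algebraMap K L z) ≤ 1 := by
        rw [av_le_one]
        obtain ⟨z', hz'⟩ := exists_int_alg L z
        rw [← hz']
        exact w.maximalIdeal.valuation_le_one (K := L) z'
      have h2 : av w.maximalIdeal = w.val := by
        unfold av
        rw [FinitePlace.mk_maximalIdeal]
      rwa [h2] at h1
    have hav : ∀ w : FinitePlace L, av w.maximalIdeal = w.val := by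
      intro w
      unfold av
      rw [FinitePlace.mk_maximalIdeal]
    have hres := hram L hn (algebraMap K L a) (algebraMap K L b) hab'
      (by rw [hjL, habsL]; linarith) (fun Q => chat Q / nL) hlim (U - gal τ U)
      (F₂.filter (fun w => Inert w.maximalIdeal (τ : L ≃+* L))) (fun w hw => by
        obtain ⟨hw1, hw2⟩ := Finset.mem_filter.1 hw
        obtain ⟨hw3, -⟩ := hF₂' w hw1
        have h2 : w.val (2 : L) ≤ 1 := by
          have := NF.natCast_le_one w 2
          exact_mod_cast this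
        have h3 : w.val (4 * (algebraMap K L a) ^ 3 + 27 * (algebraMap K L b) ^ 2) ≤ 1 := by
          have h4 := hint w (4 * a ^ 3 + 27 * b ^ 2)
          have e3 : ((4 * a ^ 3 + 27 * b ^ 2 : 𝓞 K) : K) = 4 * (a : K) ^ 3 + 27 * (b : K) ^ 2 := by
            push_cast
            rfl
          have e4 : algebraMap K L ((4 * a ^ 3 + 27 * b ^ 2 : 𝓞 K) : K) =
              4 * (algebraMap K L a) ^ 3 + 27 * (algebraMap K L b) ^ 2 := by
            rw [e3, map_add, map_mul, map_mul, map_pow, map_pow, map_ofNat, map_ofNat]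
          rw [e4] at h4
          exact h4
        rw [map_mul] at hw3
        have h4 : w.val (2 : L) = 1 := by
          apply le_antisymm h2
          rw [← hw3]
          exact mul_le_of_le_one_right (w.val.nonneg _) h3
        have h5 : w.val (4 * (algebraMap K L a) ^ 3 + 27 * (algebraMap K L b) ^ 2) = 1 := by
          rwa [h4, one_mul] at hw3
        obtain ⟨x, y, h, hxy, hx⟩ := inert_point hw2 (by rw [hav]; exact h4)
          (by rw [hav]; exact h5) U hU1
        rw [hav] at hx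
        refine ⟨hint w a, hint w b, h4, h5, ?_, ?_⟩
        · rw [hxy]; rfl
        · rw [hxy]; exact hx) (by
        rw [hjL, habsL', ← hY]
        exact hτ)
    rw [hjL, habsL] at hres
    have h1 : chat (U - gal τ U) / nL ≤ 4 * (chatM M P / nL) := by
      rw [← mul_div_assoc]
      exact div_le_div_of_nonneg_right hU2 hnL0.le
    have h2 : absH j ≤ C * (4 * (chatM M P / nL)) :=
      hres.trans (mul_le_mul_of_nonneg_left h1 hC.le)
    have h3 : min (c / 4 ^ N) (1 / (4 * C)) * absH j ≤ 1 / (4 * C) * absH j :=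
      mul_le_mul_of_nonneg_right (min_le_right _ _) hHj0.le
    refine h3.trans ?_
    rw [one_div, inv_mul_le_iff₀ (by positivity)]
    linarith

end Pool.Agent.Y725.LS
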