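import Mathlib
import Pool.Agent.Y725.LS.Core

/-! Forms of powers of elliptic curves with bounded Szpiro-type ratio. -/

set_option autoImplicit false
set_option linter.unusedSectionVars false

open Height NumberField Module IsDedekindDomain Matrix Filter Topology
open WeierstrassCurve

namespace Pool.Agent.Y725.LS

open Pool.Agent.TH942 Pool.Agent.TH910.LS

/-- some lower bound for the heights of the points of infinite order -/
theorem exists_eps {L : Type} [Field L] [NumberField L] [DecidableEq L] {a b : L}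
    (hab : 4 * a ^ 3 + 27 * b ^ 2 ≠ 0) :
    ∃ ε : ℝ, 0 < ε ∧ ∀ Q : SPt a b, ¬ IsOfFinAddOrder Q → ε ≤ chat Q := by
  by_cases h : ∃ Q : SPt a b, ¬ IsOfFinAddOrder Q
  · obtain ⟨Q, hQ, hmin⟩ := exists_min_of_finite (chat_fin hab)
      (S := {Q : SPt a b | ¬ IsOfFinAddOrder Q}) h
    exact ⟨chat Q, chat_pos hab hQ, hmin⟩
  · push Not at h
    exact ⟨1, one_pos, fun Q hQ => absurd (h Q) hQ⟩

/-- points of small height on curves of small height -/
theorem small (d : ℕ) (B : ℝ) : ∃ (N : ℕ) (ε : ℝ), 0 < ε ∧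
    ∀ (L : Type) [Field L] [NumberField L] [DecidableEq L], finrank ℚ L ≤ d →
    ∀ a b : L, 4 * a ^ 3 + 27 * b ^ 2 ≠ 0 → (∀ P : SPt a b, sht P ≤ chat P + B) →
    ∀ Q : SPt a b, (∃ n : ℕ, 0 < n ∧ n ≤ N ∧ n • Q = 0) ∨ ε ≤ chat Q := by
  classical
  obtain ⟨n₀, hn₀⟩ := north d (B + 1)
  obtain ⟨N, hN⟩ : ∃ N : ℕ, N = 2 * (1 + n₀) := ⟨_, rfl⟩
  refine ⟨N, 1 / (N + 1) ^ 2, by positivity, ?_⟩
  intro L _ _ _ hL a b hab hC Q
  by_contra hcon
  push Not at hcon
  obtain ⟨h1, h2⟩ := hcon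
  obtain ⟨-, hq0, hq, -⟩ := chat_spec hab
  have hF := nht_fin (a := a) (b := b) one_ne_zero (one_ne_zero (α := L)) (B + 1)
  have hcard := nht_card (a := a) (b := b) one_ne_zero (one_ne_zero (α := L)) (B + 1)
  have hset : {r : L | logHeight₁ r ≤ ((1 : ℕ) : ℝ) * (B + 1)} = {r : L | logHeight₁ r ≤ B + 1} := by
    ext r; simp
  rw [hset] at hcard
  have hcard' : {P : SPt a b | nht 1 (1 : L) P ≤ B + 1}.ncard ≤ N := by
    have := hn₀ L hL
    omega
  have hmem : ∀ i : Fin (N + 1), (i : ℕ) • Q ∈ {P : SPt a b | nht 1 (1 : L) P ≤ B + 1} := by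
    intro i
    have e1 : chat ((i : ℕ) • Q) = ((i : ℕ) : ℝ) ^ 2 * chat Q :=
      q_nsmul (q := fun P : SPt a b => chat P) hq (i : ℕ) Q
    have e2 : ((i : ℕ) : ℝ) ^ 2 * chat Q ≤ 1 := by
      have h3 : ((i : ℕ) : ℝ) ≤ N + 1 := by exact_mod_cast i.2.le
      have h4 : ((i : ℕ) : ℝ) ^ 2 ≤ ((N : ℝ) + 1) ^ 2 :=
        pow_le_pow_left₀ (Nat.cast_nonneg _) h3 2
      calc ((i : ℕ) : ℝ) ^ 2 * chat Q ≤ ((N : ℝ) + 1) ^ 2 * (1 / (N + 1) ^ 2) :=
            mul_le_mul h4 h2.le (hq0 Q) (by positivity)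
        _ = 1 := by field_simp
    have e3 := hC ((i : ℕ) • Q)
    have e4 := abs_le.1 (nht_sht one_ne_zero (one_ne_zero (α := L)) ((i : ℕ) • Q))
    have e5 : logHeight₁ (1 : L) = 0 := by simp
    rw [e5] at e4
    simp only [Set.mem_ofPred_eq]
    linarith [e4.2]
  obtain ⟨i, k, hik, heq⟩ : ∃ i k : Fin (N + 1), i ≠ k ∧ (i : ℕ) • Q = (k : ℕ) • Q := by
    by_contra hcon
    push Not at hcon
    have hinj : Function.Injective fun i : Fin (N + 1) => (i : ℕ) • Q := by
      intro i k h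
      by_contra hne
      exact hcon i k hne h
    have h3 : (Finset.univ.image fun i : Fin (N + 1) => (i : ℕ) • Q).card ≤ N := by
      refine le_trans ?_ hcard'
      rw [Set.ncard_eq_toFinset_card _ hF]
      apply Finset.card_le_card
      intro P hP
      obtain ⟨i, -, rfl⟩ := Finset.mem_image.1 hP
      rw [Set.Finite.mem_toFinset]
      exact hmem i
    rw [Finset.card_image_of_injective _ hinj, Finset.card_univ, Fintype.card_fin] at h3
    omega
  have key : ∀ i k : ℕ, i < k → k ≤ N → i • Q = k • Q → False := by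
    intro i k hik hkN h
    refine h1 (k - i) (by omega) (by omega) ?_
    have h4 : k • Q = (k - i) • Q + i • Q := by rw [← add_nsmul]; congr 1; omega
    rw [h] at h4
    exact left_eq_add.1 (h4.trans (add_comm _ _))
  rcases lt_or_gt_of_ne (fun h => hik (Fin.ext h) : (i : ℕ) ≠ k) with h | h
  · exact key i k h (by omega) heq
  · exact key k i h (by omega) heq.symm

section

variable {K : Type} [Field K] [NumberField K]

/-- The truncated Szpiro-type condition for the form of a power of `y² = x³ + a x + b` given by a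
representation of the group of `L` over `K`. -/
def SzpiroLe (σ δ : ℝ) (s M₀ : ℕ) (a b : 𝓞 K) (L : Type) [Field L] [NumberField L]
    [Algebra K L] : Prop :=
  ∃ (T : Finset (FinitePlace K)) (F : Finset (FinitePlace L)), T.card ≤ s ∧
    (∀ w ∈ F, BadAt a b w) ∧
    ∀ S : Finset (FinitePlace K),
      (∀ v ∈ S, v ∉ T ∧ v.val (M₀ : K) = 1 ∧ 1 < v.val (jinv (a : K) b)) →
      ∑ v ∈ S, Real.log (v.val (jinv (a : K) b)) ≤
        σ * ∑ w ∈ F, Real.log (Ideal.absNorm w.maximalIdeal.asIdeal) +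
          δ * logHeight₁ (jinv (a : K) b)

variable {L : Type} [Field L] [NumberField L] [Algebra K L] [IsGalois K L] [DecidableEq L]
  {a b : 𝓞 K} {g : ℕ}

lemma gen_faithful {ρ : (L ≃ₐ[K] L) →* Matrix (Fin g) (Fin g) ℤ} {P : Fin g → Pts L a b}
    (hP : FixedPt ρ P) (hH : Generates P) : Faithful ρ := by
  intro σ hσ
  by_contra hne
  obtain ⟨i, hi⟩ := hH σ⁻¹ (inv_ne_one.2 hne)
  apply hi
  rw [fixed_iff ρ hP, inv_inv, hσ, act_one]

lemma faithful_deg {ρ : (L ≃ₐ[K] L) →* Matrix (Fin g) (Fin g) ℤ} (hf : Faithful ρ) :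
    Module.finrank K L ≤ 3 ^ (g * g) := by
  classical
  have hcard : Fintype.card (L ≃ₐ[K] L) ≤ 3 ^ (g * g) := minkowski ρ hf
  rw [← IsGalois.card_aut_eq_finrank, Nat.card_eq_fintype_card]
  exact hcard

/-- the height bounds the ramification -/
theorem ram_bound {κ₀ : ℝ} (hκ₀ : 0 < κ₀) (hvar : ∀ (K : Type) [Field K] [NumberField K]
    (a b : 𝓞 K), 4 * (a : K) ^ 3 + 27 * (b : K) ^ 2 ≠ 0 →
    ∀ (L : Type) [Field L] [NumberField L] [Algebra K L] [DecidableEq L],
      (∀ P : SPt (algebraMap K L a) (algebraMap K L b), sht P ≤ chat P +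
        κ₀ * (totalWeight L + Module.finrank K L * (logHeight₁ (a : K) + logHeight₁ (b : K)))) ∧
      ∀ T : Finset (HeightOneSpectrum (𝓞 L)), (∀ v ∈ T,
        v.valuation L (2 * (4 * (algebraMap K L a) ^ 3 + 27 * (algebraMap K L b) ^ 2)) ≠ 1) →
        ∑ v ∈ T, Real.log (Ideal.absNorm v.asIdeal) ≤
          κ₀ * (totalWeight L + Module.finrank K L * (logHeight₁ (a : K) + logHeight₁ (b : K))))
    (hab : 4 * (a : K) ^ 3 + 27 * (b : K) ^ 2 ≠ 0)
    {ρ : (L ≃ₐ[K] L) →* Matrix (Fin g) (Fin g) ℤ} {M : Matrix (Fin g) (Fin g) ℤ}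
    {P : Fin g → Pts L a b} {T : Finset (HeightOneSpectrum (𝓞 L))}
    (hM : Polar ρ M) (hP : FixedPt ρ P) (hT : RamPrimes K T) (hH : Generates P)
    (ht : ¬ IsOfFinAddOrder P) {Y : ℝ} (hY : 1 + (absH (a : K) + absH (b : K)) ≤ Y) :
    logNorms T / Module.finrank ℚ L ≤ κ₀ * Y +
      3 ^ (g * g) * (4 * (chatM M P / Module.finrank ℚ L) + κ₀ * Y) := by
  have hf := gen_faithful hP hH
  have hKL := faithful_deg hf
  have hab' : 4 * (algebraMap K L a) ^ 3 + 27 * (algebraMap K L b) ^ 2 ≠ 0 := by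
    have h1 : algebraMap K L (4 * (a : K) ^ 3 + 27 * (b : K) ^ 2) ≠ 0 := by
      rw [ne_eq, map_eq_zero]
      exact hab
    rw [map_add, map_mul, map_mul, map_pow, map_pow, map_ofNat, map_ofNat] at h1
    exact h1
  obtain ⟨nL, hnL⟩ : ∃ nL : ℝ, nL = ((Module.finrank ℚ L : ℕ) : ℝ) := ⟨_, rfl⟩
  have hnL0 : 0 < nL := by
    rw [hnL]
    exact_mod_cast (Module.finrank_pos : 0 < Module.finrank ℚ L)
  obtain ⟨hC, hB⟩ := hvar K a b hab L
  obtain ⟨C, hCd⟩ : ∃ C : ℝ, C = κ₀ * (totalWeight L +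
    Module.finrank K L * (logHeight₁ (a : K) + logHeight₁ (b : K))) := ⟨_, rfl⟩
  rw [← hCd] at hC hB
  have hC0 : 0 ≤ C := by
    rw [hCd]
    have := zero_le_logHeight₁ (a : K)
    have := zero_le_logHeight₁ (b : K)
    positivity
  have hCle : C ≤ nL * (κ₀ * Y) := by
    have h1 : (totalWeight L : ℝ) = nL := by
      rw [hnL, NumberField.totalWeight_eq_finrank]
    have h2 : (Module.finrank K L : ℝ) * (logHeight₁ (a : K) + logHeight₁ (b : K)) =
        nL * (absH (a : K) + absH (b : K)) := by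
      have h3 : (0 : ℝ) < Module.finrank ℚ K := by exact_mod_cast Module.finrank_pos
      rw [hnL, ← Module.finrank_mul_finrank ℚ K L]
      unfold absH
      push_cast
      field_simp
    rw [hCd, h1, h2]
    have h3 := mul_le_mul_of_nonneg_left hY hnL0.le
    have h6 := mul_le_mul_of_nonneg_left h3 hκ₀.le
    linarith
  obtain ⟨ε, hε, hεQ⟩ := exists_eps hab'
  obtain ⟨-, h2⟩ := forms_L a b hab (3 ^ (g * g)) L hKL hC0 hε hC hεQ hB g M hM.1
    (fun σ => ρ σ⁻¹) (fun σ => hM.2 σ⁻¹) P (fixed_iff ρ hP) hH ht T hT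
  rw [← hnL, div_le_iff₀ hnL0]
  unfold logNorms
  refine h2.trans ?_
  obtain ⟨X, hX⟩ : ∃ X : ℝ, X = chatM M P / nL := ⟨_, rfl⟩
  have hXe : chatM M P = nL * X := by
    rw [hX]
    field_simp
  rw [← hX, hXe]
  push_cast
  have h3 : (3 : ℝ) ^ (g * g) * (4 * (nL * X) + C) ≤
      3 ^ (g * g) * (4 * (nL * X) + nL * (κ₀ * Y)) := by
    apply mul_le_mul_of_nonneg_left _ (by positivity)
    linarith
  linarith

end

/-- **Points that generate the splitting field.** -/
theorem gen_all (D g s : ℕ) (κ σ : ℝ) (hκ : 0 ≤ κ) :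
    ∃ c δ : ℝ, 0 < c ∧ 0 < δ ∧ ∃ c₂ : ℕ, ∀ M₀ : ℕ, M₀ ≠ 0 → ∃ A c₀ : ℝ, 0 < c₀ ∧ ∃ c₃ : ℕ,
    ∀ (K : Type) [Field K] [NumberField K], Module.finrank ℚ K ≤ D →
    ∀ a b : 𝓞 K, 4 * (a : K) ^ 3 + 27 * (b : K) ^ 2 ≠ 0 →
      absH (a : K) + absH (b : K) ≤ κ * (1 + absH (jinv (a : K) b)) →
    ∀ (L : Type) [Field L] [NumberField L] [Algebra K L] [IsGalois K L] [DecidableEq L],
      SzpiroLe σ δ s M₀ a b L →
    ∀ (ρ : (L ≃ₐ[K] L) →* Matrix (Fin g) (Fin g) ℤ) (M : Matrix (Fin g) (Fin g) ℤ)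
      (P : Fin g → Pts L a b) (T : Finset (HeightOneSpectrum (𝓞 L))),
      Polar ρ M → FixedPt ρ P → RamPrimes K T → Generates P →
        ((A < absH (jinv (a : K) b) → c₂.factorial • P = 0 ∨ ¬ IsOfFinAddOrder P ∧
          c * (absH (jinv (a : K) b) + logNorms T / Module.finrank ℚ L) ≤
            chatM M P / Module.finrank ℚ L) ∧
        (c₃.factorial • P = 0 ∨ ¬ IsOfFinAddOrder P ∧
          c₀ * (1 + absH (jinv (a : K) b) + logNorms T / Module.finrank ℚ L) ≤
            chatM M P / Module.finrank ℚ L)) := by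
  classical
  obtain ⟨κ₀, hκ₀, hvar⟩ := var_const
  obtain ⟨N, c, δ, hc, hδ, hdich⟩ := dichotomy D s (3 ^ (g * g)) σ
  obtain ⟨d, hd⟩ : ∃ d : ℝ, d = 3 ^ (g * g) := ⟨_, rfl⟩
  have hd0 : 0 < d := by rw [hd]; positivity
  obtain ⟨E, hE⟩ : ∃ E : ℝ, E = (1 + κ₀ * (1 + 2 * κ) * (1 + d)) * (1 / c) + 4 * d := ⟨_, rfl⟩
  have hE0 : 0 < E := by rw [hE]; positivity
  refine ⟨1 / E, δ, by positivity, hδ, 2 * N + 1, fun M₀ hM₀ => ?_⟩
  obtain ⟨A, hA, hdich⟩ := hdich M₀ hM₀
  obtain ⟨A', hA'⟩ : ∃ A' : ℝ, A' = max A 1 := ⟨_, rfl⟩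
  have hA1 : 1 ≤ A' := by rw [hA']; exact le_max_right _ _
  have hAA : A ≤ A' := by rw [hA']; exact le_max_left _ _
  -- curves of small height
  obtain ⟨Y₀, hY₀⟩ : ∃ Y₀ : ℝ, Y₀ = 1 + κ * (1 + A') := ⟨_, rfl⟩
  have hY₀0 : 0 < Y₀ := by rw [hY₀]; positivity
  obtain ⟨N', ε, hε, hsmall⟩ := small (D * 3 ^ (g * g)) (D * 3 ^ (g * g) * (κ₀ * Y₀))
  obtain ⟨ε', hε'⟩ : ∃ ε' : ℝ, ε' = ε / (D * 3 ^ (g * g) + 1) := ⟨_, rfl⟩
  have hε'0 : 0 < ε' := by rw [hε']; positivity
  obtain ⟨E', hE'⟩ : ∃ E' : ℝ, E' = (1 + A' + κ₀ * Y₀ * (1 + d)) / ε' + 4 * d := ⟨_, rfl⟩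
  have hE'0 : 0 < E' := by rw [hE']; positivity
  refine ⟨A', min (1 / (2 * E)) (1 / E'), lt_min (by positivity) (by positivity),
    max (2 * N + 1) N', ?_⟩
  intro K _ _ hK a b hab hκab L _ _ _ _ _ hSz ρ M P T hM hP hT hH
  have hf := gen_faithful hP hH
  have hKL := faithful_deg hf
  have hn : Module.finrank ℚ L ≤ D * 3 ^ (g * g) := by
    rw [← Module.finrank_mul_finrank ℚ K L]
    exact Nat.mul_le_mul hK hKL
  have hab' : 4 * (algebraMap K L a) ^ 3 + 27 * (algebraMap K L b) ^ 2 ≠ 0 := by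
    have h1 : algebraMap K L (4 * (a : K) ^ 3 + 27 * (b : K) ^ 2) ≠ 0 := by
      rw [ne_eq, map_eq_zero]
      exact hab
    rw [map_add, map_mul, map_mul, map_pow, map_pow, map_ofNat, map_ofNat] at h1
    exact h1
  obtain ⟨-, hq0, hq, -⟩ := chat_spec hab'
  obtain ⟨nL, hnL⟩ : ∃ nL : ℝ, nL = ((Module.finrank ℚ L : ℕ) : ℝ) := ⟨_, rfl⟩
  have hnL0 : 0 < nL := by
    rw [hnL]
    exact_mod_cast (Module.finrank_pos : 0 < Module.finrank ℚ L)
  have hj0 : 0 ≤ absH (jinv (a : K) b) :=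
    div_nonneg (zero_le_logHeight₁ _) (Nat.cast_nonneg _)
  have hT0 : 0 ≤ logNorms T / nL :=
    div_nonneg (Finset.sum_nonneg fun _ _ => Real.log_natCast_nonneg _) hnL0.le
  rw [← hnL]
  -- torsion points
  have hfac : ∀ m : ℕ, (∀ Q : Pts L a b, IsOfFinAddOrder Q → m.factorial • Q = 0) →
      IsOfFinAddOrder P → m.factorial • P = 0 := by
    intro m hm ht
    funext i
    have hk : IsOfFinAddOrder (P i) := by
      obtain ⟨n, hn, h⟩ := isOfFinAddOrder_iff_nsmul_eq_zero.1 ht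
      exact isOfFinAddOrder_iff_nsmul_eq_zero.2 ⟨n, hn, congrFun h i⟩
    exact hm _ hk
  have hchatM0 : IsOfFinAddOrder P → chatM M P = 0 := by
    intro ht
    have h0 : ∀ Q : Pts L a b, IsOfFinAddOrder Q → chat Q = 0 := fun Q hQ =>
      q_tors (q := fun P => chat P) hq hQ
    have hk : ∀ i, IsOfFinAddOrder (P i) := by
      intro i
      obtain ⟨n, hn, h⟩ := isOfFinAddOrder_iff_nsmul_eq_zero.1 ht
      exact isOfFinAddOrder_iff_nsmul_eq_zero.2 ⟨n, hn, congrFun h i⟩
    unfold chatM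
    refine Finset.sum_eq_zero fun i _ => Finset.sum_eq_zero fun k _ => ?_
    have hik : IsOfFinAddOrder (P i + P k) := (hk i).add (hk k)
    rw [h0 _ hik, h0 _ (hk i), h0 _ (hk k)]
    ring
  -- large height
  have hbig : A < absH (jinv (a : K) b) → 1 ≤ absH (jinv (a : K) b) →
      ((2 * N + 1).factorial • P = 0 ∨ ¬ IsOfFinAddOrder P ∧
        absH (jinv (a : K) b) + logNorms T / nL ≤ E * (chatM M P / nL)) := by
    intro hAj h1j
    have hHj0 : 0 < absH (jinv (a : K) b) := by linarith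
    obtain ⟨T₁, F, hT₁, hF, hS⟩ := hSz
    have key := hdich K hK a b hab hAj L hKL T₁ F hT₁ hF hS
    rw [← hnL] at key
    have hlow : IsOfFinAddOrder P ∧ (2 * N + 1).factorial • P = 0 ∨
        ¬ IsOfFinAddOrder P ∧ c * absH (jinv (a : K) b) ≤ chatM M P / nL := by
      rcases key with key | key
      · have htor : ∀ Q : Pts L a b, IsOfFinAddOrder Q → (2 * N + 1).factorial • Q = 0 := by
          intro Q hQ
          have h0 : chat Q = 0 := q_tors (q := fun P => chat P) hq hQ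
          rcases key Q with ⟨n, hn, hnN, h⟩ | h
          · obtain ⟨m, hm⟩ := Nat.dvd_factorial hn hnN
            rw [hm, mul_comm, mul_nsmul', h, nsmul_zero]
          · rw [h0, zero_div] at h
            have : 0 < c * absH (jinv (a : K) b) := by positivity
            linarith
        by_cases ht : IsOfFinAddOrder P
        · exact Or.inl ⟨ht, hfac _ htor ht⟩
        · right
          refine ⟨ht, ?_⟩
          obtain ⟨Q, -, hQ, hQ2⟩ := Pool.Agent.TH910.LS.reduction hab' M hM.1 P ht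
          rcases key Q with ⟨n, hn, -, h⟩ | h
          · exact absurd (isOfFinAddOrder_iff_nsmul_eq_zero.2 ⟨n, hn, h⟩) hQ
          · exact h.trans (div_le_div_of_nonneg_right hQ2 hnL0.le)
      · have h := key g ρ M P hM hP hH
        right
        refine ⟨fun ht => ?_, h⟩
        rw [hchatM0 ht, zero_div] at h
        have : 0 < c * absH (jinv (a : K) b) := by positivity
        linarith
    rcases hlow with ⟨-, h⟩ | ⟨ht, hX⟩
    · exact Or.inl h
    · right
      refine ⟨ht, ?_⟩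
      have hY : 1 + (absH (a : K) + absH (b : K)) ≤
          (1 + 2 * κ) * absH (jinv (a : K) b) := by
        have h2 : κ * (1 + absH (jinv (a : K) b)) ≤ κ * (2 * absH (jinv (a : K) b)) :=
          mul_le_mul_of_nonneg_left (by linarith) hκ
        linarith
      have h2 := ram_bound hκ₀ hvar hab hM hP hT hH ht hY
      rw [← hnL, ← hd] at h2
      obtain ⟨X, hXd⟩ : ∃ X : ℝ, X = chatM M P / nL := ⟨_, rfl⟩
      rw [← hXd] at hX h2 ⊢
      have hX1 : absH (jinv (a : K) b) ≤ (1 / c) * X := by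
        rw [one_div, ← div_eq_inv_mul, le_div_iff₀ hc]
        linarith
      have h5 : absH (jinv (a : K) b) + (κ₀ * ((1 + 2 * κ) * absH (jinv (a : K) b)) +
          d * (4 * X + κ₀ * ((1 + 2 * κ) * absH (jinv (a : K) b)))) =
          (1 + κ₀ * (1 + 2 * κ) * (1 + d)) * absH (jinv (a : K) b) + 4 * d * X := by ring
      have h6 : (1 + κ₀ * (1 + 2 * κ) * (1 + d)) * absH (jinv (a : K) b) ≤
          (1 + κ₀ * (1 + 2 * κ) * (1 + d)) * ((1 / c) * X) :=
        mul_le_mul_of_nonneg_left hX1 (by positivity)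
      rw [hE]
      linarith
  have hX0 : 0 ≤ chatM M P / nL :=
    div_nonneg (qM_nonneg (q := fun Q : Pts L a b => chat Q) hq0 hq hM.1 P) hnL0.le
  refine ⟨fun hAj => ?_, ?_⟩
  · rcases hbig (by linarith) (by linarith) with h | ⟨ht, h⟩
    · exact Or.inl h
    · right
      refine ⟨ht, ?_⟩
      rw [one_div, inv_mul_le_iff₀ hE0]
      exact h
  · by_cases hAj : A' < absH (jinv (a : K) b)
    · rcases hbig (by linarith) (by linarith) with h | ⟨ht, h⟩
      · left
        obtain ⟨m, hm⟩ := Nat.factorial_dvd_factorial (le_max_left (2 * N + 1) N')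
        rw [hm, mul_comm, mul_nsmul', h, nsmul_zero]
      · right
        refine ⟨ht, ?_⟩
        have h1 : 1 + absH (jinv (a : K) b) + logNorms T / nL ≤
            2 * (absH (jinv (a : K) b) + logNorms T / nL) := by linarith
        have h3 : min (1 / (2 * E)) (1 / E') * (1 + absH (jinv (a : K) b) + logNorms T / nL) ≤
            1 / (2 * E) * (2 * (absH (jinv (a : K) b) + logNorms T / nL)) :=
          mul_le_mul (min_le_left _ _) h1 (by positivity) (by positivity)
        refine h3.trans ?_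
        rw [one_div, inv_mul_le_iff₀ (by positivity)]
        linarith
    · push Not at hAj
      have hY : 1 + (absH (a : K) + absH (b : K)) ≤ Y₀ := by
        have h2 : κ * (1 + absH (jinv (a : K) b)) ≤ κ * (1 + A') :=
          mul_le_mul_of_nonneg_left (by linarith) hκ
        rw [hY₀]
        linarith
      obtain ⟨hC, -⟩ := hvar K a b hab L
      have hnL' : nL ≤ D * 3 ^ (g * g) := by
        rw [hnL]; exact_mod_cast hn
      have hCle : κ₀ * (totalWeight L +
          Module.finrank K L * (logHeight₁ (a : K) + logHeight₁ (b : K))) ≤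
          D * 3 ^ (g * g) * (κ₀ * Y₀) := by
        have h1 : (totalWeight L : ℝ) = nL := by
          rw [hnL, NumberField.totalWeight_eq_finrank]
        have h2 : (Module.finrank K L : ℝ) * (logHeight₁ (a : K) + logHeight₁ (b : K)) =
            nL * (absH (a : K) + absH (b : K)) := by
          have h3 : (0 : ℝ) < Module.finrank ℚ K := by exact_mod_cast Module.finrank_pos
          rw [hnL, ← Module.finrank_mul_finrank ℚ K L]
          unfold absH
          push_cast
          field_simp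
        rw [h1, h2]
        have h3 : nL + nL * (absH (a : K) + absH (b : K)) ≤ D * 3 ^ (g * g) * Y₀ := by
          have h4 := mul_le_mul_of_nonneg_left hY hnL0.le
          have h5 := mul_le_mul_of_nonneg_right hnL' hY₀0.le
          linarith
        have h6 := mul_le_mul_of_nonneg_left h3 hκ₀.le
        linarith
      have key := hsmall L hn (algebraMap K L a) (algebraMap K L b) hab'
        (fun Q => (hC Q).trans (by linarith))
      by_cases ht : IsOfFinAddOrder P
      · left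
        have htor : ∀ Q : Pts L a b, IsOfFinAddOrder Q → N'.factorial • Q = 0 := by
          intro Q hQ
          have h0 : chat Q = 0 := q_tors (q := fun P => chat P) hq hQ
          rcases key Q with ⟨n, hn, hnN, h⟩ | h
          · obtain ⟨m, hm⟩ := Nat.dvd_factorial hn hnN
            rw [hm, mul_comm, mul_nsmul', h, nsmul_zero]
          · rw [h0] at h
            linarith
        have h1 := hfac _ htor ht
        obtain ⟨m, hm⟩ := Nat.factorial_dvd_factorial (le_max_right (2 * N + 1) N')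
        rw [hm, mul_comm, mul_nsmul', h1, nsmul_zero]
      · right
        refine ⟨ht, ?_⟩
        obtain ⟨Q, -, hQ, hQ2⟩ := Pool.Agent.TH910.LS.reduction hab' M hM.1 P ht
        have hεX : ε' ≤ chatM M P / nL := by
          rcases key Q with ⟨n, hn, -, h⟩ | h
          · exact absurd (isOfFinAddOrder_iff_nsmul_eq_zero.2 ⟨n, hn, h⟩) hQ
          · rw [le_div_iff₀ hnL0]
            have h1 : ε' * nL ≤ ε' * (D * 3 ^ (g * g) + 1) :=
              mul_le_mul_of_nonneg_left (by linarith) hε'0.le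
            have h2 : ε' * ((D : ℝ) * 3 ^ (g * g) + 1) = ε := by rw [hε']; field_simp
            linarith
        have h2 := ram_bound hκ₀ hvar hab hM hP hT hH ht hY
        rw [← hnL, ← hd] at h2
        obtain ⟨X, hXd⟩ : ∃ X : ℝ, X = chatM M P / nL := ⟨_, rfl⟩
        rw [← hXd] at hX0 hεX h2 ⊢
        have h3 : min (1 / (2 * E)) (1 / E') * (1 + absH (jinv (a : K) b) + logNorms T / nL) ≤
            1 / E' * (1 + absH (jinv (a : K) b) + logNorms T / nL) :=
          mul_le_mul_of_nonneg_right (min_le_right _ _) (by positivity)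
        refine h3.trans ?_
        rw [one_div, inv_mul_le_iff₀ hE'0, hE']
        have h4 : 1 + A' + κ₀ * Y₀ * (1 + d) ≤ (1 + A' + κ₀ * Y₀ * (1 + d)) / ε' * X := by
          have h5 : 1 ≤ X / ε' := by rw [one_le_div hε'0]; exact hεX
          have h6 := mul_le_mul_of_nonneg_left h5
            (show 0 ≤ 1 + A' + κ₀ * Y₀ * (1 + d) by positivity)
          refine le_trans (by linarith) (h6.trans (le_of_eq ?_))
          ring
        linarith

end Pool.Agent.Y725.LS
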