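import Mathlib
import Pool.Agent.Y725.LS.Forms2

/-! Final forms of the bounds for forms of powers of elliptic curves. -/

set_option autoImplicit false
set_option linter.unusedSectionVars false

open Height NumberField Module IsDedekindDomain Matrix Filter Topology

namespace Pool.Agent.Y725.LS

open Pool.Agent.TH942 Pool.Agent.TH910.LS

/-- from a bound for large height and a bound for all heights to one bound -/
theorem join_bound {A c c₀ H Y X : ℝ} (hc : 0 < c) (hY : 0 ≤ Y)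
    (h1 : A < H → c * (H + Y) ≤ X) (h2 : c₀ * (1 + H + Y) ≤ X) :
    (if max A 1 < H then c / 2 else c₀) * (1 + H + Y) ≤ X := by
  split_ifs with h
  · have hA : A < H := lt_of_le_of_lt (le_max_left _ _) h
    have h3 : 1 < H := lt_of_le_of_lt (le_max_right _ _) h
    have h4 := h1 hA
    have h5 : c / 2 * (1 + H + Y) ≤ c / 2 * (2 * (H + Y)) :=
      mul_le_mul_of_nonneg_left (by linarith) (by positivity)
    linarith
  · exact h2

/-- points with a dense orbit -/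
theorem dense_main (D g s : ℕ) (hg : 0 < g) (κ σ : ℝ) (hκ : 0 ≤ κ) :
    ∃ c δ : ℝ, 0 < c ∧ 0 < δ ∧ ∀ M₀ : ℕ, M₀ ≠ 0 → ∃ A c₀ : ℝ, 0 < c₀ ∧
    ∀ (K : Type) [Field K] [NumberField K], Module.finrank ℚ K ≤ D →
    ∀ a b : 𝓞 K, 4 * (a : K) ^ 3 + 27 * (b : K) ^ 2 ≠ 0 →
      absH (a : K) + absH (b : K) ≤ κ * (1 + absH (jinv (a : K) b)) →
    ∀ (L : Type) [Field L] [NumberField L] [Algebra K L] [IsGalois K L] [DecidableEq L],
      SzpiroLe σ δ s M₀ a b L →
    ∀ (ρ : (L ≃ₐ[K] L) →* Matrix (Fin g) (Fin g) ℤ) (M : Matrix (Fin g) (Fin g) ℤ)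
      (P : Fin g → Pts L a b) (T : Finset (HeightOneSpectrum (𝓞 L))),
      Polar ρ M → FixedPt ρ P → RamPrimes K T →
      (Generates P ∧ ¬ IsOfFinAddOrder P) ∨ (Faithful ρ ∧ DenseOrbit ρ P) →
        (if A < absH (jinv (a : K) b) then c else c₀) *
            (1 + absH (jinv (a : K) b) + logNorms T / Module.finrank ℚ L) ≤
          chatM M P / Module.finrank ℚ L := by
  obtain ⟨c, δ, hc, hδ, c₂, h⟩ := gen_all D g s κ σ hκ
  refine ⟨c / 2, δ, by positivity, hδ, fun M₀ hM₀ => ?_⟩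
  obtain ⟨A, c₀, hc₀, c₃, h⟩ := h M₀ hM₀
  refine ⟨max A 1, c₀, hc₀,
    fun K _ _ hK a b hab hκ L _ _ _ _ _ hSz ρ M P T hM hP hT hor => ?_⟩
  obtain ⟨h1, h2⟩ : Generates P ∧ ¬ IsOfFinAddOrder P := by
    rcases hor with h | ⟨h1, h2⟩
    · exact h
    · exact ⟨h2.stab h1 hP, h2.nontors hg⟩
  have hno : ∀ n : ℕ, n.factorial • P ≠ 0 := fun n hn =>
    h2 (isOfFinAddOrder_iff_nsmul_eq_zero.2 ⟨n.factorial, Nat.factorial_pos n, hn⟩)
  obtain ⟨k1, k2⟩ := h K hK a b hab hκ L hSz ρ M P T hM hP hT h1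
  exact join_bound hc (div_nonneg (Finset.sum_nonneg fun _ _ => Real.log_natCast_nonneg _)
    (Nat.cast_nonneg _)) (fun hA => ((k1 hA).resolve_left (hno _)).2)
    (k2.resolve_left (hno _)).2

/-- the strong form -/
theorem strong_main (D g s : ℕ) (hg : 0 < g) (κ σ : ℝ) (hκ : 0 ≤ κ) :
    ∃ c₁ δ : ℝ, 0 < c₁ ∧ 0 < δ ∧ ∃ c₂ : ℕ, ∀ M₀ : ℕ, M₀ ≠ 0 → ∃ A c₁' : ℝ, 0 < c₁' ∧ ∃ c₂' : ℕ,
    ∀ (K : Type) [Field K] [NumberField K], Module.finrank ℚ K ≤ D →
    ∀ a b : 𝓞 K, 4 * (a : K) ^ 3 + 27 * (b : K) ^ 2 ≠ 0 →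
      absH (a : K) + absH (b : K) ≤ κ * (1 + absH (jinv (a : K) b)) →
    ∀ (L : Type) [Field L] [NumberField L] [Algebra K L] [IsGalois K L] [DecidableEq L],
      SzpiroLe σ δ s M₀ a b L →
    ∀ (ρ : (L ≃ₐ[K] L) →* Matrix (Fin g) (Fin g) ℤ) (M : Matrix (Fin g) (Fin g) ℤ)
      (P : Fin g → Pts L a b) (T : Finset (HeightOneSpectrum (𝓞 L))),
      Faithful ρ → Polar ρ M → FixedPt ρ P → RamPrimes K T →
        SubvarLe (if A < absH (jinv (a : K) b) then c₂ else c₂') ρ M P ∨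
        (¬ IsOfFinAddOrder P ∧ (if A < absH (jinv (a : K) b) then c₁ else c₁') *
            (1 + absH (jinv (a : K) b) + logNorms T / Module.finrank ℚ L) ≤
          chatM M P / Module.finrank ℚ L) := by
  obtain ⟨c, δ, hc, hδ, c₂, h⟩ := gen_all D g s κ σ hκ
  refine ⟨c / 2, δ, by positivity, hδ, c₂.factorial + (3 ^ (g * g)) ^ (2 * g),
    fun M₀ hM₀ => ?_⟩
  obtain ⟨A, c₀, hc₀, c₃, h⟩ := h M₀ hM₀
  refine ⟨max A 1, c₀, hc₀, c₃.factorial + (3 ^ (g * g)) ^ (2 * g),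
    fun K _ _ hK a b hab hκ L _ _ _ _ _ hSz ρ M P T hf hM hP hT => ?_⟩
  have htors : ∀ n : ℕ, n.factorial • P = 0 →
      SubvarLe (n.factorial + (3 ^ (g * g)) ^ (2 * g)) ρ M P := by
    intro n hn
    have ht : IsOfFinAddOrder P :=
      isOfFinAddOrder_iff_nsmul_eq_zero.2 ⟨n.factorial, Nat.factorial_pos n, hn⟩
    exact subvar_tors n hg hM ht
      (Nat.le_of_dvd (Nat.factorial_pos _) (addOrderOf_dvd_of_nsmul_eq_zero hn))
  by_cases hH : Generates P
  · obtain ⟨k1, k2⟩ := h K hK a b hab hκ L hSz ρ M P T hM hP hT hH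
    split_ifs with hA
    · have hA' : A < absH (jinv (a : K) b) := lt_of_le_of_lt (le_max_left _ _) hA
      have h3 : 1 < absH (jinv (a : K) b) := lt_of_le_of_lt (le_max_right _ _) hA
      rcases k1 hA' with k | ⟨k, k'⟩
      · exact Or.inl (htors _ k)
      · refine Or.inr ⟨k, ?_⟩
        have hY : 0 ≤ logNorms T / Module.finrank ℚ L :=
          div_nonneg (Finset.sum_nonneg fun _ _ => Real.log_natCast_nonneg _) (Nat.cast_nonneg _)
        have h5 : c / 2 * (1 + absH (jinv (a : K) b) + logNorms T / Module.finrank ℚ L) ≤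
            c / 2 * (2 * (absH (jinv (a : K) b) + logNorms T / Module.finrank ℚ L)) :=
          mul_le_mul_of_nonneg_left (by linarith) (by positivity)
        linarith
    · rcases k2 with k | k
      · exact Or.inl (htors _ k)
      · exact Or.inr k
  · have hH' : ∃ τ : L ≃ₐ[K] L, τ ≠ 1 ∧ ∀ i, gal τ (P i) = P i := by
      by_contra hcon
      push Not at hcon
      exact hH hcon
    obtain ⟨τ, hτ1, hτ⟩ := hH'
    left
    split_ifs with hA
    · exact subvar_stab _ hg hf hM hP hτ1 hτ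
    · exact subvar_stab _ hg hf hM hP hτ1 hτ

end Pool.Agent.Y725.LS
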